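import Pool.Agent.Lib.MP_c86c76_al.Tk.St
import Pool.Agent.Lib.MP_c86c76_al.Tg.Win
import Pool.Agent.Lib.MP_c86c76_al.Tg.Lift
import Pool.Agent.Lib.MP_c86c76_al.Tg.Gam
import Pool.Agent.Lib.MP_c86c76_al.Tg.Ed
import Pool.Agent.Lib.MP_c86c76_al.Tg.Wl
import Pool.Agent.Lib.MP_c86c76_al.Tg.Un
import Pool.Agent.Lib.MP_c86c76_al.T.Lam

/-!
Lifts of local braids, the twist about the foot, restriction to the base of the window.
-/

set_option autoImplicit false

namespace Pool.Agent.MK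

open Pool.Agent.MB Pool.Agent.MG Pool.Agent.MA Pool.Agent.MW
open FreeGroup hiding map_mul map_inv map_one

theorem wiSt : WiSt := by
  rintro G _ h m i r ρ k s ι hX hi hm hS ⟨k1, k2, k3⟩ β u hβ hu hp hq
  have e0 : (pp ρ).comp (inB h m i) = pp (rhoW h) := MonoidHom.ext fun x => by
    show (ρ (inB h m i x)).p = (rhoW h x).p
    rw [k2]
    simp [k1]
  obtain ⟨ψ, b, v, l1, l2, l3, l4, l5, l6⟩ :=
    liftSt edSt (modSt edSt wlSt) gamSt h m i (pp ρ) β u hi hm e0 hβ hu hp hq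
  obtain ⟨a1, a2, a3, a4⟩ := k3 ψ
  refine ⟨ψ, b, fun x => ?_, l1, l3⟩
  have key : ρ.comp β.1.toMonoidHom = (Wr.map (ι ψ).1.toMonoidHom).comp ρ := by
    refine FreeGroup.ext_hom _ _ fun j => ?_
    obtain ⟨p, hpm⟩ := j
    rw [← win_io hpm]
    show ρ (β.1 (io m p)) = Wr.map (ι ψ).1.toMonoidHom (ρ (io m p))
    by_cases c1 : p < i
    · obtain ⟨c, g, e⟩ := hX.1 p hpm
      have hc : c = 0 := by
        refine ((edSt G).2.2.2.2.2 c 0).1 ?_
        have t : (ρ (io m p)).p = tau 0 := hS.1 p (by omega)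
        rw [e] at t
        exact t
      subst hc
      rw [a3 p c1, hu.2.1 p c1, map_mul, map_mul, map_inv, l2, k2, e]
      refine win_conj edSt _ _ g ?_ ?_ ?_ ?_
      · simp [k1, l4]
      · simp [k1, Ub]
      · simp only [Wr.mul_l, Wr.inv_l, Wr.map_l, Wr.map_p, k1, l4, l5, inv_one,
          Equiv.Perm.coe_one, id, show (Ub ψ).p = 1 from rfl]
      · simp only [Wr.mul_l, Wr.inv_l, Wr.map_l, Wr.map_p, k1, l4, l6, inv_one,
          Equiv.Perm.coe_one, id, show (Ub ψ).p = 1 from rfl]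
    · by_cases c2 : p < i + 2 * h + 1
      · rw [← win_inB (h := h) (not_lt.1 c1) c2, l1, k2, k2, l3, map_mul, map_mul, map_inv, a2]
        congr 2
        exact Wr.ext rfl (funext fun t => (a1 _).symm)
      · rw [a4 p (not_lt.1 c2), hu.2.2.2 p (not_lt.1 c2)]
  exact DFunLike.congr_fun key x

theorem ker_ext {h : ℕ} (ψ ψ' : Gam h) (e : fb ψ = fb ψ') (e' : uu ψ = uu ψ') : ψ = ψ' :=
  Subtype.ext (MulEquiv.toMonoidHom_injective (Gam_ext1
    (fun x => (Gam_fb ψ x).trans (e ▸ (Gam_fb ψ' x).symm))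
    ((Gam_a ψ).trans (Gam_a ψ').symm) ((Gam_uu ψ).trans (e' ▸ (Gam_uu ψ').symm))))

theorem kerSt : KerSt := by
  refine fun h => ⟨Gam_fb, Gam_uu, ker_ext, ?_⟩
  obtain ⟨φ, hφ⟩ := (((lickSt (2 * (h + 1))).2.1 h).1 (by omega)).1
  obtain ⟨⟨g1, g2⟩, g3, g4, -⟩ := gamSt h
  let A : Gam h := ⟨φ, (lickSt _).2.2 (h + 1) rfl φ ⟨h, Or.inl ⟨by omega, Or.inl hφ⟩⟩,
    hφ.2 _ (by omega)⟩
  have a1 : uu A = (io _ (2 * h))⁻¹ := by
    change reG h (φ _) = _
    rw [hφ.1, map_mul, Gam_re_b, Gam_re_a, one_mul]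
  have a2 : fb A = MonoidHom.id _ := by
    refine Gam_ext0 (fun j hj => ?_) ?_
    · change reG h (φ (inG h _)) = _
      rw [Gam_in_low hj, hφ.2 j (by omega), Gam_re_low hj, MonoidHom.id_apply]
    · rw [(g4 A).1, a1, MonoidHom.id_apply]
      group
  have a3 : ∀ n : ℤ, fb (A ^ n) = MonoidHom.id _ ∧ uu (A ^ n) = io _ (2 * h) ^ (-n) := by
    intro n
    induction n using Int.induction_on with
    | zero => rw [zpow_zero, g1, g2]; simp
    | succ n ih =>
      rw [zpow_add_one, (g3 _ _).1, (g3 _ _).2, ih.1, ih.2, a1, a2]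
      exact ⟨rfl, by rw [MonoidHom.id_apply]; group⟩
    | pred n ih =>
      have e : A ^ (-(n : ℤ)) = A ^ (-(n : ℤ) - 1) * A := by group
      rw [e, (g3 _ _).1, (g3 _ _).2, a1, a2, MonoidHom.comp_id] at ih
      refine ⟨ih.1, ?_⟩
      have := ih.2
      rw [ih.1, MonoidHom.id_apply, inv_mul_eq_iff_eq_mul] at this
      rw [this]
      group
  refine ⟨A, hφ, fun ψ => ker_ext _ _ ?_ ?_, fun ψ ψ' e => ?_⟩
  · rw [(g3 _ _).1, (g3 _ _).1, a2, MonoidHom.id_comp, MonoidHom.comp_id]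
  · rw [(g3 _ _).2, (g3 _ _).2, a1, a2, map_inv, (g4 ψ).1, MonoidHom.id_apply]
    group
  · have e1 := (g4 ψ).1
    rw [e, (g4 ψ').1] at e1
    obtain ⟨n, hn⟩ := MT.cen_of ⟨2 * h, by omega⟩ ((uu ψ)⁻¹ * uu ψ') (by
      rw [← win_io]
      change _ * io _ (2 * h) = io _ (2 * h) * _
      rw [mul_assoc, mul_inv_eq_iff_eq_mul.1 e1]
      group)
    rw [← win_io] at hn
    refine ⟨-n, ker_ext _ _ ?_ ?_⟩
    · rw [(g3 _ _).1, (a3 _).1, MonoidHom.comp_id, e]
    · rw [(g3 _ _).2, (a3 _).2, neg_neg, map_zpow, (g4 ψ).1, conj_zpow, inv_mul_cancel_right]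
      exact inv_mul_eq_iff_eq_mul.1 hn.symm

theorem rs_top {n p : ℕ} (h : n ≤ p) : io n p = 1 := dif_neg (not_lt.2 h)

theorem rs_all {n : ℕ} (x : FN n) : x ∈ EA n 1 n := by
  induction x using FreeGroup.induction_on with
  | C1 => exact one_mem _
  | of j =>
    rw [lift_of]
    by_cases e : (j : ℕ) = 0
    · refine Subgroup.subset_closure (Or.inl ?_)
      rw [e, bl_succ _ le_rfl, bl_self, one_mul]
    · exact Subgroup.subset_closure (Or.inr ⟨_, by omega, j.2, rfl⟩)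
  | inv_of j a => exact inv_mem a
  | mul x y a b => exact mul_mem a b

theorem rs_perm {n : ℕ} (φ : MulAut (FN n)) (h : ∀ j, ∃ q, IsConj (of q) (φ (of j))) :
    ∃ π : Equiv.Perm (Fin n), ∀ j, IsConj (of (π j)) (φ (of j)) := by
  choose q hq using h
  refine ⟨Equiv.ofBijective q (Finite.injective_iff_bijective.1 fun j j' e => ?_), hq⟩
  have h1 := φ.symm.toMonoidHom.map_isConj ((hq j).symm.trans (e ▸ hq j'))
  have h2 := (lift fun x => if x = j then Multiplicative.ofAdd (1 : ℤ) else 1).map_isConj h1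
  by_contra hn
  simp [Ne.symm hn] at h2

theorem rs_loc {h m i : ℕ} (hi : 1 ≤ i) (hm : i + 2 * h + 1 ≤ m) {β : MulAut (FN m)} {u : FN m}
    (hL : Loc0 m i (i + 2 * h + 1) β u) {φ : MulAut (FN (2 * h + 1 + 1))}
    (e : ∀ x, φ x = liftRt h m i (β (inB h m i x))) :
    Loc0 _ 1 (2 * h + 1 + 1) φ (liftRt h m i u) := by
  refine ⟨rs_all _, fun p hp => ?_, fun p a b => ?_, fun p hp => by rw [rs_top hp, map_one]⟩
  · obtain rfl : p = 0 := by omega
    rw [e, lift_in_zero, show β (bl m 0 i) = u * bl m 0 i * u⁻¹ from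
      bl_conj β.toMonoidHom (MonoidHom.id _) u hL.2.1, map_mul, map_mul, map_inv,
      lift_rt_bl' hi (by omega)]
  · obtain ⟨q, w, c, d, -, e1⟩ := hL.2.2.1 (i + p - 1) (by omega) (by omega)
    refine ⟨q - i + 1, liftRt h m i w, by omega, by omega, rs_all _, ?_⟩
    rw [e, lift_in_io a (by omega), e1, map_mul, map_mul, map_inv, lift_rt_io hi c (by omega)]

theorem rs_ex {h m i : ℕ} (hi : 1 ≤ i) (hm : i + 2 * h + 1 ≤ m) (β : Loc m i (i + 2 * h + 1)) :
    ∃ γ : BL (2 * h + 1 + 1), (∀ x, β.1.1 (inB h m i x) = inB h m i (γ.1 x)) ∧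
      γ ∈ Loc _ 1 (2 * h + 1 + 1) := by
  obtain ⟨β, ⟨u, hL⟩, u', hL'⟩ := β
  let φ : MulAut (FN (2 * h + 1 + 1)) := MonoidHom.toMulEquiv
    ((liftRt h m i).comp (β.1.toMonoidHom.comp (inB h m i)))
    ((liftRt h m i).comp ((β.1⁻¹).toMonoidHom.comp (inB h m i)))
    (MonoidHom.ext fun x => by
      change liftRt h m i (β.1⁻¹ (inB h m i (liftRt h m i (β.1 (inB h m i x))))) = x
      rw [lift_in_rt hi hm (hL.ea (lift_in_mem x)), MulAut.inv_apply_self, lift_rt_in hi hm])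
    (MonoidHom.ext fun x => by
      change liftRt h m i (β.1 (inB h m i (liftRt h m i (β.1⁻¹ (inB h m i x))))) = x
      rw [lift_in_rt hi hm (hL'.ea (lift_in_mem x)), MulAut.apply_inv_self, lift_rt_in hi hm])
  have l1 := rs_loc hi hm hL (φ := φ) fun _ => rfl
  have l2 := rs_loc hi hm hL' (φ := φ⁻¹) fun _ => rfl
  refine ⟨⟨φ, ?_, rs_perm φ fun j => ?_⟩,
    fun x => (lift_in_rt hi hm (hL.ea (lift_in_mem x))).symm, ⟨_, l1⟩, _, l2⟩
  · change liftRt h m i (β.1 (inB h m i _)) = _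
    have e : inB h m i (bl _ 0 (2 * h + 1 + 1)) = bl m 0 (i + 2 * h + 1) := lift_in_bl _ le_rfl
    rw [e, lift_fix hL.2.2.2 (m - (i + 2 * h + 1)) (by
      rw [Nat.add_sub_cancel' hm]; exact β.2.1), ← e, lift_rt_in hi hm]
  · by_cases e : (j : ℕ) < 1
    · exact ⟨j, isConj_iff.2 ⟨_, by rw [lift_of, l1.2.1 j e]⟩⟩
    · obtain ⟨q, w, -, d, -, e1⟩ := l1.2.2.1 j (by omega) j.2
      exact ⟨⟨q, d⟩, isConj_iff.2 ⟨w, by rw [lift_of, lift_of, e1]⟩⟩

theorem rsSt : RsSt := by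
  intro h m i hi hm
  have inj : Function.Injective (inB h m i) :=
    Function.LeftInverse.injective (lift_rt_in hi hm)
  choose R h1 h2 using rs_ex hi hm
  refine ⟨inj, MonoidHom.mk' R fun β γ => Subtype.ext (MulEquiv.ext fun x => inj ?_),
    fun β => ⟨h1 β, h2 β, ?_⟩⟩
  · change _ = inB h m i ((R β).1 ((R γ).1 x))
    rw [← h1, ← h1, ← h1]
    rfl
  have e := h1 β
  change _ → R β ∈ _
  generalize R β = γ at e
  have fx : ∀ p, 1 ≤ p → β.1.1 (io m (i + p - 1)) = io m (i + p - 1) → γ.1 (io _ p) = io _ p :=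
    fun p a b => by
      by_cases c : p ≤ 2 * h + 1
      · exact inj (by rw [← e, lift_in_io a c, b])
      · rw [rs_top (by omega), map_one]
  rintro (⟨q, a, b, z1, z2⟩ | ⟨q, a, b, s1, s2, s3⟩)
  · refine Or.inl ⟨q - i + 1, by omega, by omega, fun p hp => inj ?_,
      fun p hp => fx p (by omega) (z2 _ (by omega))⟩
    rw [← e, map_mul, map_mul, map_inv, lift_in_bl _ (by omega), Nat.add_sub_cancel' a]
    by_cases c : p = 0
    · rw [c, lift_in_zero]
      exact bl_conj β.1.1.toMonoidHom (MonoidHom.id _) _ fun p hp => z1 p (by omega)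
    · rw [lift_in_io (by omega) (by omega), z1 _ (by omega)]
  · have e1 : inB h m i (io _ (q - i + 1)) = io m q := win_inB a (by omega)
    have e2 : inB h m i (io _ (q - i + 1 + 1)) = io m (q + 1) := by
      rw [lift_in_io (by omega) (by omega)]
      congr 1
      omega
    refine Or.inr ⟨q - i + 1, by omega, by omega, inj ?_, inj ?_, fun p c d => ?_⟩
    · rw [← e, map_mul, map_mul, map_inv, e1, e2, s1]
    · rw [← e, e1, e2, s2]
    · by_cases c0 : p = 0
      · refine inj ?_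
        rw [← e, c0, lift_in_zero]
        have := bl_conj (i := i) β.1.1.toMonoidHom (MonoidHom.id _) 1 fun p hp => by
          rw [one_mul, inv_one, mul_one]
          exact s3 p (by omega) (by omega)
        rwa [one_mul, inv_one, mul_one] at this
      · exact fx p (by omega) (s3 _ (by omega) (by omega))

end Pool.Agent.MK
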