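import Pool.Agent.Lib.MP_c86c76_al.Tk.St
import Pool.Agent.Lib.MP_c86c76_al.Tg.Ed
import Pool.Agent.Lib.MP_c86c76_al.Tg.Sg
import Pool.Agent.Lib.MP_c86c76_al.Tg.Lca
import Pool.Agent.Lib.MP_c86c76_al.Tg.Lift

/-!
Full twists: existence, support, commutation, action on types, sixth powers.
-/

set_option autoImplicit false

namespace Pool.Agent.MK

open Pool.Agent.MB Pool.Agent.MG Pool.Agent.MA Pool.Agent.MW
open FreeGroup hiding map_mul map_inv map_one

/-- Conjugation of the first `q` letters. -/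
def zedF (m q : ℕ) (u : FN m) : FN m →* FN m :=
  sgL m fun p => if p < q then u * io m p * u⁻¹ else io m p

theorem zed_lo {m q : ℕ} (h : q ≤ m) (u : FN m) {p : ℕ} (hp : p < q) :
    zedF m q u (io m p) = u * io m p * u⁻¹ := by
  rw [zedF, sg_lift _ (by omega), if_pos hp]

theorem zed_hi {m q : ℕ} (u : FN m) {p : ℕ} (hp : q ≤ p) : zedF m q u (io m p) = io m p := by
  by_cases hi : p < m
  · rw [zedF, sg_lift _ hi, if_neg (by omega)]
  · rw [io, dif_neg hi, map_one]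

theorem zed_F {m q : ℕ} (h : q ≤ m) (u : FN m) :
    zedF m q u (bl m 0 q) = u * bl m 0 q * u⁻¹ :=
  bl_conj (zedF m q u) (MonoidHom.id _) u fun _ hp => zed_lo h u hp

theorem zed_top {m q : ℕ} {Z : MulAut (FN m)} (h : IsZ m q Z) : Z (bl m 0 q) = bl m 0 q := by
  rw [sg_conj Z (bl m 0 q) (Nat.zero_le q) fun p _ b => h.1 p b]
  group

theorem zed_exists (m q : ℕ) (h : q ≤ m) : ∃ Z : BL m, IsZ m q Z.1 := by
  have f1 : zedF m q (bl m 0 q) (bl m 0 q) = bl m 0 q := by
    rw [zed_F h]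
    group
  have f2 : zedF m q (bl m 0 q)⁻¹ (bl m 0 q) = bl m 0 q := by
    rw [zed_F h]
    group
  have e1 : (zedF m q (bl m 0 q)⁻¹).comp (zedF m q (bl m 0 q)) = MonoidHom.id _ :=
    sg_hext fun p _ => by
      rw [MonoidHom.comp_apply, MonoidHom.id_apply]
      by_cases a : p < q
      · rw [zed_lo h _ a, map_mul, map_mul, map_inv, f2, zed_lo h _ a]
        group
      · rw [zed_hi _ (by omega), zed_hi _ (by omega)]
  have e2 : (zedF m q (bl m 0 q)).comp (zedF m q (bl m 0 q)⁻¹) = MonoidHom.id _ :=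
    sg_hext fun p _ => by
      rw [MonoidHom.comp_apply, MonoidHom.id_apply]
      by_cases a : p < q
      · rw [zed_lo h _ a, inv_inv, map_mul, map_mul, map_inv, f1, zed_lo h _ a]
        group
      · rw [zed_hi _ (by omega), zed_hi _ (by omega)]
  obtain ⟨Z, hZ⟩ : ∃ Z : MulAut (FN m), IsZ m q Z := ⟨MonoidHom.toMulEquiv _ _ e1 e2,
    fun p hp => zed_lo h _ hp, fun p hp => zed_hi _ hp⟩
  refine ⟨⟨Z, ?_, 1, fun i => ?_⟩, hZ⟩
  · rw [sg_split m (Nat.zero_le q) h, map_mul, zed_top hZ, sg_fix _ h fun p a _ => hZ.2 p a]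
  · rw [Equiv.Perm.one_apply, ← sg_io]
    by_cases a : (i : ℕ) < q
    · rw [hZ.1 i a]
      exact isConj_iff.2 ⟨_, rfl⟩
    · rw [hZ.2 i (by omega)]

theorem zed_inv {m q : ℕ} {Z : MulAut (FN m)} (h : IsZ m q Z) :
    (∀ p, p < q → Z⁻¹ (io m p) = (bl m 0 q)⁻¹ * io m p * (bl m 0 q)⁻¹⁻¹) ∧
      ∀ p, q ≤ p → Z⁻¹ (io m p) = io m p := by
  refine ⟨fun p hp => ?_, fun p hp => ?_⟩
  · apply Z.injective
    rw [MulAut.apply_inv_self, inv_inv, map_mul, map_mul, map_inv, zed_top h, h.1 p hp]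
    group
  · apply Z.injective
    rw [MulAut.apply_inv_self, h.2 p hp]

theorem zed_iter {m : ℕ} {β : MulAut (FN m)} {y x : FN m} (hy : β y = y)
    (hx : β x = y * x * y⁻¹) (n : ℕ) : (β ^ n) x = y ^ n * x * (y ^ n)⁻¹ := by
  induction n with
  | zero => simp
  | succ n ih =>
    rw [pow_succ', MulAut.mul_apply, ih, map_mul, map_mul, map_inv, map_pow, hy, hx, pow_succ]
    group

theorem zed_fixn {m : ℕ} {β : MulAut (FN m)} {x : FN m} (hx : β x = x) (n : ℕ) :
    (β ^ n) x = x := by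
  simpa using zed_iter (y := 1) (map_one β) (by simpa using hx) n

theorem zed_loc0 {m i j q : ℕ} (h1 : i ≤ q) (h2 : q ≤ j) {β : MulAut (FN m)} {u : FN m}
    (hu : u ∈ EA m i j) (a : ∀ p, p < q → β (io m p) = u * io m p * u⁻¹)
    (b : ∀ p, q ≤ p → β (io m p) = io m p) : Loc0 m i j β u := by
  refine ⟨hu, fun p hp => a p (by omega), fun p c d => ?_, fun p hp => b p (by omega)⟩
  by_cases e : p < q
  · exact ⟨p, u, c, d, hu, a p e⟩
  · exact ⟨p, 1, c, d, one_mem _, by simpa using b p (by omega)⟩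

theorem zed_pow {m i j q : ℕ} (h1 : i ≤ q) (h2 : q ≤ j) {Z : BL m} (h : IsZ m q Z.1) (n : ℕ) :
    Loc0 m i j (Z ^ n).1 (bl m 0 q ^ n) := by
  rw [Subgroup.coe_pow]
  exact zed_loc0 h1 h2 (pow_mem (lca_bl q h1 h2) n)
    (fun p hp => zed_iter (zed_top h) (h.1 p hp) n) fun p hp => zed_fixn (h.2 p hp) n

theorem zed_loc {m i j q : ℕ} (h1 : i ≤ q) (h2 : q ≤ j) {Z : BL m} (h : IsZ m q Z.1) :
    Z ∈ Loc m i j :=
  ⟨⟨_, zed_loc0 h1 h2 (lca_bl q h1 h2) h.1 h.2⟩,
    _, zed_loc0 h1 h2 (inv_mem (lca_bl q h1 h2)) (zed_inv h).1 (zed_inv h).2⟩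

theorem zed_out {m j q : ℕ} {Z : MulAut (FN m)} (h : IsZ m q Z) {x : FN m}
    (hx : x ∈ EA m q j) : Z x = x := by
  induction hx using Subgroup.closure_induction with
  | mem x hx =>
    rcases hx with rfl | ⟨p, h1, -, rfl⟩
    · exact zed_top h
    · exact h.2 p h1
  | one => simp
  | mul x y _ _ a b => rw [map_mul, a, b]
  | inv x _ a => rw [map_inv, a]

theorem zed_inn {m i q : ℕ} (hi : i ≤ q) {Z : MulAut (FN m)} (h : IsZ m q Z) {x : FN m}
    (hx : x ∈ EA m i q) : Z x = bl m 0 q * x * (bl m 0 q)⁻¹ := by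
  induction hx using Subgroup.closure_induction with
  | mem x hx =>
    rcases hx with rfl | ⟨p, -, h2, rfl⟩
    · exact sg_conj Z (bl m 0 q) (Nat.zero_le i) fun p _ b => h.1 p (by omega)
    · exact h.1 p h2
  | one => simp
  | mul x y _ _ a b =>
    rw [map_mul, a, b]
    group
  | inv x _ a =>
    rw [map_inv, a]
    group

theorem zed_comm_out {m j q : ℕ} {Z β : MulAut (FN m)} {u : FN m} (h : IsZ m q Z)
    (hb : Loc0 m q j β u) : Z * β = β * Z := by
  refine lca_ext fun p => ?_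
  rw [MulAut.mul_apply, MulAut.mul_apply]
  by_cases c : p < q
  · rw [hb.2.1 p c, h.1 p c, map_mul, map_mul, map_mul, map_mul, map_inv, map_inv,
      zed_out h hb.1, h.1 p c, hb.2.1 p c,
      sg_conj β u (Nat.zero_le q) fun p _ b => hb.2.1 p b]
    group
  by_cases d : p < j
  · rw [zed_out h (hb.ea (lca_io (by omega) d)), h.2 p (by omega)]
  · rw [h.2 p (by omega), hb.2.2.2 p (by omega), h.2 p (by omega)]

theorem zed_comm_inn {m i q : ℕ} (h1 : i ≤ q) (h2 : q ≤ m) {Z β : MulAut (FN m)} {u : FN m}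
    (h : IsZ m q Z) (hm : β (bl m 0 m) = bl m 0 m) (hb : Loc0 m i q β u) : Z * β = β * Z := by
  have e : β (bl m 0 q) = bl m 0 q :=
    lift_fix hb.2.2.2 (m - q) (by rwa [Nat.add_sub_cancel' h2])
  refine lca_ext fun p => ?_
  rw [MulAut.mul_apply, MulAut.mul_apply]
  by_cases d : p < q
  · rw [h.1 p d, map_mul, map_mul, map_inv, e]
    by_cases c : p < i
    · rw [hb.2.1 p c, map_mul, map_mul, map_inv, zed_inn h1 h hb.1, h.1 p d]
      group
    · exact zed_inn h1 h (hb.ea (lca_io (by omega) d))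
  · rw [h.2 p (by omega), hb.2.2.2 p (by omega), h.2 p (by omega)]

theorem zed_half {m q : ℕ} {s : MulAut (FN m)} (h : IsS m q s) (p : ℕ) :
    (s ^ 6) (io m p) = if p = q ∨ p = q + 1 then
      (io m q * io m (q + 1)) ^ 3 * io m p * ((io m q * io m (q + 1)) ^ 3)⁻¹ else io m p := by
  have hy : s (io m q * io m (q + 1)) = io m q * io m (q + 1) := by
    rw [map_mul, h.1, h.2.1]
    group
  have e : s ^ 6 = (s ^ 2) ^ 3 := by rw [← pow_mul]
  split_ifs with a
  · rw [e]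
    refine zed_iter (zed_fixn hy 2) ?_ 3
    rw [pow_two, MulAut.mul_apply]
    rcases a with rfl | rfl
    · rw [h.1, map_mul, map_mul, map_inv, h.1, h.2.1]
      group
    · rw [h.2.1, h.1]
      group
  · exact zed_fixn (h.2.2 p (fun e => a (Or.inl e)) fun e => a (Or.inr e)) 6

theorem zed_keep {m q : ℕ} {s : MulAut (FN m)} (h : IsS m q s) {G : Type} [Group G]
    (ρ : FN m →* G) (e : (ρ (io m q) * ρ (io m (q + 1))) ^ 3 = 1) :
    ρ.comp (s ^ 6).toMonoidHom = ρ := sg_hext fun p _ => by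
  change ρ ((s ^ 6) (io m p)) = _
  rw [zed_half h]
  split_ifs
  · rw [map_mul, map_mul, map_inv, map_pow, map_mul, e]
    simp
  · rfl

theorem zed_six (σ : Equiv.Perm (Fin 3)) : σ ^ 6 = 1 := by
  have := pow_card_eq_one (x := σ)
  rwa [Fintype.card_perm, Fintype.card_fin] at this

theorem zed_tau : ∀ c c' : Fin 3, (tau c * tau c') ^ 3 = 1 := by decide

theorem zed_cyc : ∀ c c' : Fin 3, c ≠ c' → c' = c + 1 ∨ c = c' + 1 := by decide

theorem zed_add : ∀ c : Fin 3, c + 1 + 1 = c + 2 ∧ c + 1 + 2 = c := by decide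

theorem zed_ed1 {G : Type} [Group G] (c : Fin 3) (g g' : G) :
    (Ed c g * Ed (c + 1) g') ^ 3 = 1 := by
  have a0 := ed_l0 c g
  have a1 := ed_l1 c g
  have a2 := ed_l2 c g
  have b0 := ed_l0 (c + 1) g'
  have b1 := ed_l1 (c + 1) g'
  have b2 := ed_l2 (c + 1) g'
  obtain ⟨t0, t1, t2⟩ := ed_tau c
  obtain ⟨s0, s1, s2⟩ := ed_tau (c + 1)
  obtain ⟨e1, e2⟩ := zed_add c
  rw [e1] at b1 s1 s2
  rw [e2] at b2 s1 s2
  rw [pow_three]
  refine Wr.ext ?_ (funext fun s => ?_)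
  · have := zed_tau c (c + 1)
    rw [pow_three] at this
    exact this
  · simp only [Wr.mul_l, Wr.mul_p, ed_p, Equiv.Perm.mul_apply, Wr.one_l]
    rcases ed_three s c with e | e | e <;>
      simp only [e, a0, a1, a2, b0, b1, b2, t0, t1, t2, s0, s1, s2] <;> group

theorem zed_ed {G : Type} [Group G] {c c' : Fin 3} (h : c ≠ c') (g g' : G) :
    (Ed c g * Ed c' g') ^ 3 = 1 := by
  rcases zed_cyc c c' h with rfl | rfl
  · exact zed_ed1 c g g'
  · have := congrArg (·⁻¹) (zed_ed1 c' g' g)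
    simp only [← inv_pow, mul_inv_rev, ed_inv, inv_one] at this
    exact this

theorem zedSt : ZedSt := by
  intro m
  refine ⟨zed_exists m, fun i j q Z h1 h2 _ h => ⟨zed_loc h1 h2 h, zed_pow h1 h2 h⟩,
    fun i j q Z β h1 h2 h3 h hb => ?_, fun q Z π c _ h hp j hj => ?_, fun i j u _ h2 hu => ?_,
    fun G _ ρ j s c c' g g' _ h a b hc x => ?_⟩
  · rcases hb with ⟨⟨u, hb⟩, -⟩ | ⟨⟨u, hb⟩, -⟩ | hb
    · exact Subtype.ext (zed_comm_inn h1 (h2.trans h3) h β.2.1 hb)
    · exact Subtype.ext (zed_comm_out h hb)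
    · exact (lca_sub le_rfl (Or.inl le_rfl) (zed_loc le_rfl le_rfl h) hb).symm
  · change π (Z.1 (io m j)) = tau (if j < q then _ else _)
    split_ifs with a
    · rw [h.1 j a, map_mul, map_mul, map_inv, hp j hj, ed_conjp, mul_inv_cancel_right]
    · rw [h.2 j (by omega), hp j hj]
  · rcases hu with ⟨q, a, b, h⟩ | ⟨q, a, b, h⟩
    · refine ⟨zed_loc a b h, ⟨_, zed_pow a b h 6, fun π => by rw [map_pow, zed_six]⟩,
        fun π c _ => sg_hext fun p _ => ?_⟩
      change π ((u ^ 6).1 (io m p)) = _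
      have k := zed_pow le_rfl le_rfl h 6
      by_cases e : p < q
      · rw [k.2.1 p e, map_mul, map_mul, map_inv, map_pow, zed_six]
        simp
      · rw [k.2.2.2 p (by omega)]
    · refine ⟨lca_half a b h, ⟨1, ?_, fun π => map_one π⟩, fun π c hp => ?_⟩
      · rw [Subgroup.coe_pow]
        refine ⟨one_mem _, fun p hp => ?_, fun p c d => ?_, fun p hp => ?_⟩
        · rw [zed_half h, if_neg (by omega)]
          simp
        · rw [zed_half h]
          split_ifs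
          · exact ⟨p, _, c, d, pow_mem (mul_mem (lca_io a (by omega)) (lca_io (by omega) b)) 3, rfl⟩
          · exact ⟨p, 1, c, d, one_mem _, by simp⟩
        · rw [zed_half h, if_neg (by omega)]
      · rw [Subgroup.coe_pow]
        exact zed_keep h π (by rw [hp q (by omega), hp (q + 1) (by omega), zed_tau])
  · rw [Subgroup.coe_pow]
    exact DFunLike.congr_fun (zed_keep h ρ (by rw [a, b, zed_ed hc])) x

end Pool.Agent.MK
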