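import Pool.Agent.Lib.MP_c86c76_al.Tk.St
import Pool.Agent.Lib.MP_c86c76_al.Tg.Ed
import Pool.Agent.Lib.MP_c86c76_al.Tg.Wl
import Pool.Agent.Lib.MP_c86c76_al.Tg.Un
import Pool.Agent.Lib.MP_c86c76_al.Tg.Sg
import Pool.Agent.Lib.MP_c86c76_al.Tg.Lca
import Pool.Agent.Lib.MP_c86c76_al.Tg.Lcb
import Pool.Agent.Lib.MP_c86c76_al.Tg.Cl
import Pool.Agent.Lib.MP_c86c76_al.Tg.Re
import Pool.Agent.Lib.MP_c86c76_al.Tg.Nf
import Pool.Agent.Lib.MP_c86c76_al.Tg.Iot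

/-!
The outer handles and the placement of the windows.
-/

set_option autoImplicit false

namespace Pool.Agent.MK

open Pool.Agent.MB Pool.Agent.MG Pool.Agent.MA Pool.Agent.MW
open FreeGroup hiding map_mul map_inv map_one

theorem out_pr (c : ℕ → Fin 3) (p n : ℕ) : pr c p (p + n) = tp (fun x => c (p + x)) n := by
  rw [pr, tp, Nat.add_sub_cancel_left, List.range'_eq_map_range, List.map_map]
  rfl

theorem out_nc {c : ℕ → Fin 3} {p n : ℕ} (h : pr c p (p + 2 * n) = cyc) : Nc p (p + 2 * n) c := by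
  by_contra e
  rw [out_pr, cl_even (t := c p) fun x hx => cl_const e (by omega) (by omega)] at h
  exact absurd h (by decide)

theorem out_tail {m : ℕ} {π : FN m →* Equiv.Perm (Fin 3)} {c : ℕ → Fin 3} {l n : ℕ}
    (hm : 2 * l + n = m) (hc : Tp π c) (hb : π (bl m 0 m) = cyc) (h0 : ∀ x, x < 2 * l → c x = 0) :
    pr c (2 * l) m = cyc := by
  rw [nf_bl hc le_rfl, ← hm, nf_add, cl_even h0, one_mul] at hb
  rw [← hm, out_pr, hb]

theorem out_sub {m p q : ℕ} {β : BL m} (h : β ∈ Sub m p q) {x : ℕ} (hx : x < p) :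
    β.1 (io m x) = io m x := by
  induction h using Subgroup.closure_induction with
  | mem s hs =>
    obtain ⟨j, h1, -, -, h2⟩ := hs
    exact h2.2.2 x (by omega) (by omega)
  | one => rfl
  | mul a b _ _ ha hb => rw [Subgroup.coe_mul, MulAut.mul_apply, hb, ha]
  | inv a _ ha => exact a.1.symm_apply_eq.2 ha.symm

theorem out_type {G : Type} [Group G] {m : ℕ} {ρ : FN m →* Wr G} (h : Sys ρ) :
    ∃ c, Tp (pp ρ) c := by
  have : ∀ j, ∃ c, j < m → pp ρ (io m j) = tau c := fun j => by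
    by_cases e : j < m
    · obtain ⟨c, g, h⟩ := h j e
      exact ⟨c, fun _ => congrArg Wr.p h⟩
    · exact ⟨0, fun e' => absurd e' e⟩
  choose c hc using this
  exact ⟨c, hc⟩

theorem out_fix {g : ℕ} (ψ : MulAut (FN (2 * g)))
    (h : ∀ j, 9 ≤ j → j ≤ 2 * g → ψ (wl (2 * g) g j) = wl (2 * g) g j) (j : ℕ) (hj : 8 ≤ j) :
    ψ (io (2 * g) j) = io (2 * g) j := by
  have hb : ∀ i, 4 ≤ i → i < g → ψ (io _ (2 * i + 1)) = io _ (2 * i + 1) := fun i h1 h2 => by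
    have : io (2 * g) (2 * i + 1) = wl _ g (2 * i + 1) * (wl _ g (2 * i + 2))⁻¹ := by
      rw [Wl_odd, Wl_even]
      group
    rw [this, map_mul, map_inv, h _ (by omega) (by omega), h _ (by omega) (by omega)]
  have he : ∀ i, 4 ≤ i → ψ (be _ g i) = be _ g i := fun i h1 => by
    rw [be, map_list_prod, List.map_map]
    refine congrArg _ (List.map_congr_left fun k hk => hb k ?_ ?_) <;>
      have := List.mem_range'_1.1 hk <;> omega
  have ha : ∀ i, 4 ≤ i → i < g → ψ (io _ (2 * i)) = io _ (2 * i) := fun i h1 h2 => by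
    have : io (2 * g) (2 * i) = be _ g (i + 1) * (wl _ g (2 * i + 2))⁻¹ := by
      rw [Wl_even]
      group
    rw [this, map_mul, map_inv, h _ (by omega) (by omega), he _ (by omega)]
  by_cases e : j < 2 * g
  · rcases Nat.mod_two_eq_zero_or_one j with h' | h'
    · rw [show j = 2 * (j / 2) by omega]
      exact ha _ (by omega) (by omega)
    · rw [show j = 2 * (j / 2) + 1 by omega]
      exact hb _ (by omega) (by omega)
  · rw [Iot_big (by omega), map_one]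

/-- The conclusion for systems whose first letters have the same colour. -/
def outC (g : ℕ) (ρ : FN (2 * g + 1 + 1) →* Wr (FN (2 * g))) : Prop :=
  ∃ θ : MT.St g, ∀ φ : MT.St g,
    (∀ p, p < 2 * (g - 4) → Wr.map φ.1.toMonoidHom (ρ (io _ p)) = ρ (io _ p)) → θ⁻¹ * φ * θ ∈ Fo g

theorem out_zero (hH : HurSt) {g : ℕ} (hg : 4 ≤ g) {ρ : FN (2 * g + 1 + 1) →* Wr (FN (2 * g))}
    (hX : XX (ev (2 * g) (rW g)) ρ) (h0 : ∀ p, p < 2 * (g - 4) → pp ρ (io _ p) = tau 0) :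
    outC g ρ := by
  obtain ⟨c, hc⟩ := out_type hX.1
  have hU := unSt edSt wlSt g
  have c0 : ∀ x, x < 2 * (g - 4) → c x = 0 := fun x hx =>
    (ed_six _ _).1 ((hc x (by omega)).symm.trans (h0 x hx))
  have hd : Tp (pp (rho0 g)) fun x => if x ≤ 2 * g then 0 else 2 := fun j hj => by
    beta_reduce
    by_cases e : j ≤ 2 * g
    · rw [if_pos e]
      exact congrArg Wr.p (Un_r0 e)
    · rw [if_neg e, show j = 2 * g + 1 by omega]
      exact congrArg Wr.p (Un_r1 g)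
  have hm : 2 * (g - 4) + 2 * 5 = 2 * g + 1 + 1 := by omega
  have p1 := out_tail hm hc hX.2.1.1 c0
  have p2 := out_tail hm hd hU.2.1.1 fun x hx => if_pos (by omega)
  obtain ⟨e, r, he⟩ := hH.1 _ _ _ _ (hm ▸ out_nc (hm.symm ▸ p1)) (hm ▸ out_nc (hm.symm ▸ p2))
    (p1.trans p2.symm)
  obtain ⟨β, hβ, t⟩ := (reSt edSt sgSt lcaSt lcbSt _ _ c hc).1 _ _ e le_rfl r
  obtain ⟨θ, h1, h2⟩ := (xSt edSt _ _ _ _ hU).2.1 _ ((xSt edSt _ _ _ _ hX).1 β)
    (Un_ext fun j hj => (t j hj).trans (Eq.trans (congrArg tau (by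
      by_cases a : j < 2 * (g - 4)
      · rw [cl_out r j (Or.inl a), c0 j a]
        exact (if_pos (by omega)).symm
      · exact he j (by omega) hj)) (hd j hj).symm))
  refine ⟨⟨θ, h1⟩, fun φ hφ => ?_⟩
  rintro _ ⟨j, hj, rfl⟩
  refine out_fix _ (fun k k1 k2 => ?_) j hj
  have a1 := hφ (2 * g - k) (by omega)
  have a2 := h2 (io _ (2 * g - k))
  rw [MonoidHom.comp_apply, MulEquiv.coe_toMonoidHom, out_sub hβ (by omega), Un_r0 (by omega),
    ed_map, show 2 * g - (2 * g - k) = k by omega] at a2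
  rw [a2, ed_map] at a1
  exact θ.symm_apply_eq.2 (ed_inj a1).2

theorem out_top {g : ℕ} {ρ : FN (2 * g + 1 + 1) →* Wr (FN (2 * g))}
    (hX : XX (ev (2 * g) (rW g)) ρ) (φ : MT.St g) :
    Wr.map φ.1.toMonoidHom (ρ (bl _ 0 (2 * g + 1 + 1))) = ρ (bl _ 0 (2 * g + 1 + 1)) := by
  refine Wr.ext rfl (funext fun s => ?_)
  rw [Wr.map_l]
  fin_cases s
  · exact (congrArg _ hX.2.1.2.1).trans ((map_one _).trans hX.2.1.2.1.symm)
  · exact (congrArg _ hX.2.1.2.2).trans ((map_one _).trans hX.2.1.2.2.symm)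
  · exact (congrArg _ hX.2.2.1).trans (Eq.trans φ.2 hX.2.2.1.symm)

theorem out_rot (hZ : ZedSt) {g : ℕ} (hg : 4 ≤ g) {t : Fin 3}
    (h : ∀ ρ, XX (ev (2 * g) (rW g)) ρ → (∀ p, p < 2 * (g - 4) → pp ρ (io _ p) = tau (cyc t)) →
      outC g ρ) (ρ : FN (2 * g + 1 + 1) →* Wr (FN (2 * g))) (hX : XX (ev (2 * g) (rW g)) ρ)
    (h0 : ∀ p, p < 2 * (g - 4) → pp ρ (io _ p) = tau t) : outC g ρ := by
  obtain ⟨Z, hZ⟩ := (hZ (2 * g + 1 + 1)).1 _ le_rfl
  obtain ⟨θ, hθ⟩ := h _ ((xSt edSt _ _ _ _ hX).1 Z) fun p hp => by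
    change pp ρ (Z.1 _) = _
    rw [hZ.1 p (by omega), map_mul, map_mul, map_inv, h0 p hp,
      show pp ρ (bl _ 0 _) = cyc from hX.2.1.1, ed_conjp, mul_inv_cancel_right]
  refine ⟨θ, fun φ hφ => hθ φ fun p hp => ?_⟩
  change Wr.map _ (ρ (Z.1 _)) = ρ (Z.1 _)
  rw [hZ.1 p (by omega)]
  simp only [map_mul, map_inv, hφ p hp, out_top hX φ]

theorem outSt (hH : HurSt) (hZ : ZedSt) (hB : BlkSt) : OutSt := by
  intro g ρ c hg hX hc
  have a0 : ∀ ρ, XX (ev (2 * g) (rW g)) ρ → (∀ p, p < 2 * (g - 4) → pp ρ (io _ p) = tau 0) →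
      outC g ρ := fun ρ => out_zero hH hg
  have a1 := out_rot hZ hg (t := 1) a0
  have a2 := out_rot hZ hg (t := 2) a1
  have a3 : ∀ t ρ, XX (ev (2 * g) (rW g)) ρ → (∀ p, p < 2 * (g - 4) → pp ρ (io _ p) = tau t) →
      outC g ρ := fun t => by
    fin_cases t
    exacts [a0, a1, a2]
  obtain ⟨δ, d1, -, -⟩ := hB.1 (2 * g + 1 + 1) 10 (2 * (g - 4)) (by omega)
  obtain ⟨θ, hθ⟩ := a3 (pp ρ (bl _ 0 10) c) _ ((xSt edSt _ _ _ _ hX).1 δ) fun p hp => by
    change pp ρ (δ.1 _) = _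
    rw [d1 p hp, map_mul, map_mul, map_inv, hc _ (by omega) (by omega), ed_conjp,
      mul_inv_cancel_right]
  refine ⟨θ, fun φ hφ => hθ φ fun p hp => ?_⟩
  have b1 : ∀ k, Wr.map φ.1.toMonoidHom (ρ (bl _ 0 (10 + k))) = ρ (bl _ 0 (10 + k)) →
      Wr.map φ.1.toMonoidHom (ρ (bl _ 0 10)) = ρ (bl _ 0 10) := fun k => by
    induction k with
    | zero => exact id
    | succ k ih =>
      intro e
      rw [← add_assoc, bl_succ _ (Nat.zero_le _), map_mul, map_mul, hφ _ (by omega)] at e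
      exact ih (mul_right_cancel e)
  have b2 := b1 (2 * (g - 4)) (by
    rw [show 10 + 2 * (g - 4) = 2 * g + 1 + 1 by omega]
    exact out_top hX φ)
  change Wr.map _ (ρ (δ.1 _)) = ρ (δ.1 _)
  rw [d1 p hp]
  simp only [map_mul, map_inv, hφ (10 + p) (by omega), b2]

theorem plcG (hG : GamSt) (hE : EmbSt) (hO : OutSt) (hK : KpSt) : PlcSt := by
  intro g hg hFo hFi H _ _ _ α ρ i c hX i1 i2 hS hc
  have hI := iotSt edSt (xSt edSt) (modSt edSt wlSt) hG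
  by_cases e : i ≤ 3
  · obtain ⟨k, s, ι, hι⟩ := hI _ 3 _ i _ ρ hX i1 i2 hS
    obtain ⟨θ, hθ⟩ := hO g ρ c (by omega) hX fun p h1 h2 => hc p (by omega) h2
    refine ⟨k, s, ι, hι, ?_⟩
    have h1 := (hK H).2.2.2.2 _ _ (((MulAut.conj θ⁻¹).toMonoidHom.comp ι).codRestrict (Fo g)
      fun ψ => by
        simpa using hθ (ι ψ) fun p hp => (hι.2.2 ψ).2.2.2 p (by omega)) _
      (hFo H (α.comp (MulAut.conj θ).toMonoidHom))
    refine Eq.mp (congrArg ML.LocA (MonoidHom.ext fun ψ => ?_)) h1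
    exact congrArg α (by simp [mul_assoc])
  · obtain ⟨i, rfl⟩ : ∃ j, i = j + 4 := ⟨i - 4, by omega⟩
    obtain ⟨k, s, ι, hι⟩ := hI _ 5 _ i _ ρ hX (by omega) (by omega)
      ⟨fun p hp => hS.1 p (by omega), by
        rw [show i + 2 * 5 = i + 4 + 2 * 3 by omega]; exact hS.2⟩
    obtain ⟨s1, e, h1, h2⟩ := hE
    exact ⟨k, s.comp s1, ι.comp e, h2 _ _ i _ ρ k s ι hι,
      (hK H).2.2.2.2 _ _ (e.codRestrict Fi h1) _ (hFi H (α.comp ι))⟩

end Pool.Agent.MK
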