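import Pool.Agent.Lib.MP_c86c76_al.Tk.St
import Pool.Agent.Lib.MP_c86c76_al.Tg.Cl

/-!
Classification of types.
-/

namespace Pool.Agent.MK

open Pool.Agent.MW Relation

variable {p q : ℕ} {c c' : ℕ → Fin 3}

theorem hur_succ (c : ℕ → Fin 3) (p n : ℕ) :
    pr c p (p + (n + 1)) = tau (c p) * pr c (p + 1) (p + 1 + n) := by
  simp [pr, List.range'_succ]

theorem hur_pr (c : ℕ → Fin 3) (p n : ℕ) (x : Fin 3) :
    pr c p (p + n) x = pr (fun _ => 0) p (p + n) x - al c p n := by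
  induction n generalizing p with
  | zero => simp [pr, al]
  | succ n ih =>
    have k : ∀ a y b : Fin 3, tau a (y - b) = tau 0 y - (a - b) := by decide
    rw [hur_succ, hur_succ, Equiv.Perm.mul_apply, Equiv.Perm.mul_apply, ih, al, k]

theorem hur_al (c c' : ℕ → Fin 3) (p n : ℕ) :
    al c p n = al c' p n ↔ pr c p (p + n) = pr c' p (p + n) := by
  refine ⟨fun h => Equiv.ext fun x => by rw [hur_pr c, hur_pr c', h], fun h => ?_⟩
  have := hur_pr c p n 0
  rw [h, hur_pr c'] at this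
  exact (sub_right_injective this).symm

theorem hur_tp (c : ℕ → Fin 3) (p n : ℕ) : tp c (p + n) = tp c p * pr c p (p + n) := by
  induction n generalizing p with
  | zero => simp [pr]
  | succ n ih => rw [hur_succ, ← mul_assoc, ← cl_succ, ← ih, Nat.add_right_comm, Nat.add_assoc]

theorem hur_inv {n : ℕ} (h : Rch p (p + n) c c') : al c' p n = al c p n := by
  have := cl_tp h
  rw [hur_tp, hur_tp, cl_congr fun x hx => cl_out h x (Or.inl hx)] at this
  exact (hur_al _ _ _ _).2 (mul_left_cancel this)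

theorem hur_tail (k n : ℕ) (h : ∀ x, p ≤ x → x < p + k → c x = c' x)
    (e : al c p (n + k) = al c' p (n + k)) : al c (p + k) n = al c' (p + k) n := by
  induction k generalizing p with
  | zero => exact e
  | succ k ih =>
    rw [← Nat.add_assoc, al, al, h p le_rfl (by omega)] at e
    rw [show p + (k + 1) = p + 1 + k by omega]
    exact ih (fun x a b => h x (by omega) (by omega)) (sub_right_injective e)

theorem hur_symm (h : Rch p q c c') : Rch p q c' c := by
  induction h with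
  | refl => exact .refl
  | @tail b _ _ h ih =>
    obtain ⟨j, h1, h2, rfl⟩ := h
    have k : ∀ x y : Fin 3, -(-(-x - y) - x) - (-x - y) = x ∧ -(-x - y) - x = y := by decide
    have e : Hw j (Hw j (Hw j b)) = b := funext fun x => by
      by_cases a : x = j
      · simp only [Hw, a, if_true, j.succ_ne_self, if_false, (k _ _).1]
      · by_cases a' : x = j + 1
        · simp only [Hw, a', if_true, j.succ_ne_self, if_false, (k _ _).2]
        · simp only [Hw, a, a', if_false]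
    exact (cl_tail (cl_tail .refl h1 h2) h1 h2).trans (e.symm ▸ ih)

/-- Reachable up to the entries outside. -/
def hurE (p q : ℕ) (c c' : ℕ → Fin 3) : Prop :=
  ∃ e, Rch p q c e ∧ ∀ x, p ≤ x → x < q → e x = c' x

theorem hur_congr {d : ℕ → Fin 3} (h : Rch p q c c') (e : ∀ x, p ≤ x → x < q → d x = c x) :
    hurE p q d c' := by
  induction h with
  | refl => exact ⟨d, .refl, e⟩
  | tail _ h ih =>
    obtain ⟨j, h1, h2, rfl⟩ := h
    obtain ⟨b, a1, a2⟩ := ih
    refine ⟨_, cl_tail a1 h1 h2, fun x b1 b2 => ?_⟩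
    rw [Hw, Hw, a2 x b1 b2, a2 j h1 (by omega), a2 (j + 1) (by omega) h2]

theorem hur_join {d d' : ℕ → Fin 3} (h : Rch p q c d) (h' : Rch p q c' d')
    (e : ∀ x, p ≤ x → x < q → d x = d' x) : hurE p q c c' := by
  obtain ⟨b, a1, a2⟩ := hur_congr (hur_symm h') e
  exact ⟨b, h.trans a1, a2⟩

theorem hur_two (h : clN p (p + 2) c) :
    ∃ d, Rch p (p + 2) c d ∧ d p = 0 ∧ d (p + 1) = -al c p 2 := by
  obtain ⟨d, a1, a2, -⟩ := cl_front h 0
  exact ⟨d, a1, a2, by rw [← hur_inv a1]; simp [al, a2]⟩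

theorem hur_three (h : clN p (p + 3) c) :
    ∃ d, Rch p (p + 3) c d ∧ d p = al c p 3 + 1 ∧ d (p + 1) = 0 ∧ d (p + 2) = 2 := by
  obtain ⟨d, a1, a2, -⟩ := cl_front h (al c p 3 + 1)
  have k : ∀ a b : Fin 3, a + 1 - b = a → b = 1 := by decide
  have e : al d (p + 1) 2 = 1 := k _ _ (by rw [← a2]; exact hur_inv a1)
  have k' : ∀ a b : Fin 3, a - (b - 0) = 1 → a ≠ b := by decide
  obtain ⟨d', b1, b2, b3⟩ := hur_two (p := p + 1) ⟨_, le_rfl, Nat.lt_succ_self _, k' _ _ e⟩
  exact ⟨d', a1.trans (cl_mono p.le_succ b1), (cl_out b1 p (Or.inl p.lt_succ_self)).trans a2, b2,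
    b3.trans (by rw [e]; rfl)⟩

theorem hur_one (h : clN p q c) (h' : clN p q c') (e : pr c p q = pr c' p q) : hurE p q c c' := by
  obtain ⟨n, rfl⟩ : ∃ n, q = p + (n + 2) := by
    obtain ⟨j, a, b, -⟩ := h
    exact ⟨q - p - 2, by omega⟩
  replace e := (hur_al _ _ _ _).2 e
  rcases n with _ | n
  · obtain ⟨d, a1, a2, a3⟩ := hur_two h
    obtain ⟨d', b1, b2, b3⟩ := hur_two h'
    refine hur_join a1 b1 fun x x1 x2 => ?_
    obtain rfl | rfl : x = p ∨ x = p + 1 := by omega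
    exacts [a2.trans b2.symm, by rw [a3, b3, e]]
  obtain ⟨d, a1, a2, a3⟩ := cl_many 0 n (by omega) h
  obtain ⟨d', b1, b2, b3⟩ := cl_many 0 n (by omega) h'
  have e1 : ∀ x, p ≤ x → x < p + n → d x = d' x :=
    fun x x1 x2 => (a2 x x1 (by omega)).trans (b2 x x1 (by omega)).symm
  have e2 := hur_tail n 3 e1 (by rw [Nat.add_comm 3 n, hur_inv a1, hur_inv b1]; exact e)
  obtain ⟨f, f1, f2, f3, f4⟩ := hur_three (p := p + n) a3
  obtain ⟨g, g1, g2, g3, g4⟩ := hur_three (p := p + n) b3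
  refine hur_join (a1.trans (cl_mono (p.le_add_right n) f1)) (b1.trans (cl_mono (p.le_add_right n) g1))
    fun x x1 x2 => ?_
  obtain x3 | rfl | rfl | rfl : x < p + n ∨ x = p + n ∨ x = p + n + 1 ∨ x = p + n + 2 := by omega
  exacts [by rw [cl_out f1 x (Or.inl x3), cl_out g1 x (Or.inl x3), e1 x x1 x3],
    by rw [f2, g2, e2], f3.trans g3.symm, f4.trans g4.symm]

theorem hur_left (p q : ℕ) (c : ℕ → Fin 3) :
    ∃ c', Rch p q c c' ∧ ∀ x y, p ≤ x → p ≤ y → x + 2 < q → y + 2 < q → c' x = c' y := by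
  by_cases h : clN p q c
  · by_cases h3 : p + 3 ≤ q
    · obtain ⟨d, a1, a2, a3⟩ := cl_many 0 (q - (p + 3)) (by omega) h
      obtain ⟨d', b1, b2, -⟩ := cl_front a3 0
      have e : ∀ x, p ≤ x → x + 2 < q → d' x = 0 := fun x x1 x2 => by
        rcases (show x ≤ q - 3 by omega).lt_or_eq with k | rfl
        exacts [(cl_out b1 x (Or.inl k)).trans (a2 x x1 (by omega)), b2]
      exact ⟨d', a1.trans (cl_mono (by omega) b1),
        fun x y x1 x2 x3 x4 => (e x x1 x3).trans (e y x2 x4).symm⟩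
    · exact ⟨c, .refl, fun x y b1 b2 b3 b4 => by omega⟩
  · exact ⟨c, .refl, fun x y b1 b2 b3 b4 =>
      (cl_const h b1 (by omega)).trans (cl_const h b2 (by omega)).symm⟩

theorem hur_right (h3 : p + 2 ≤ q) (c : ℕ → Fin 3) (r : ℕ) (hr : r ≤ 2) : ∃ c', Rch p q c c' ∧
    ∀ x y, p + r ≤ x → p + r ≤ y → x + 2 < q + r → y + 2 < q + r → c' x = c' y := by
  induction r with
  | zero => exact hur_left p q c
  | succ r ih =>
    obtain ⟨c₁, a1, a2⟩ := ih (by omega)
    obtain ⟨c₂, b1, -, b2, -⟩ := cl_move (k := p + r) (l := q + r - 2) (q := q)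
      (p.le_add_right r) (by omega) (by omega) c₁
    refine ⟨c₂, a1.trans b1, fun x y d1 d2 d3 d4 => ?_⟩
    obtain ⟨x, rfl⟩ : ∃ x', x = x' + 1 := ⟨x - 1, by omega⟩
    obtain ⟨y, rfl⟩ : ∃ y', y = y' + 1 := ⟨y - 1, by omega⟩
    rw [b2 x (by omega) (by omega), b2 y (by omega) (by omega),
      a2 x y (by omega) (by omega) (by omega) (by omega)]

theorem hurSt : HurSt := by
  refine ⟨fun _ _ _ _ => hur_one, hur_left, fun p q c => ?_, hur_al, fun c n => ?_⟩
  · by_cases h3 : p + 2 ≤ q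
    · obtain ⟨c', a1, a2⟩ := hur_right h3 c 2 le_rfl
      exact ⟨c', a1, fun x y b1 b2 b3 b4 => a2 x y b1 b2 (by omega) (by omega)⟩
    · exact ⟨c, .refl, fun x y b1 b2 b3 b4 => by omega⟩
  have e : ∀ c, tp c (2 * n) = pr c 0 (0 + 2 * n) := fun c => by
    simpa [tp] using hur_tp c 0 (2 * n)
  have e' : ∀ x, tp c (2 * n) x = x - al c 0 (2 * n) := fun x => by
    rw [e, hur_pr, ← e, cl_even (t := 0) fun _ _ => rfl, Equiv.Perm.one_apply]
  have k : ∀ a : Fin 3, (cyc 0 = 0 - a → a = 1) ∧ a - 1 = cyc a := by decide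
  exact ⟨fun h => (k _).1 (h ▸ e' 0), fun h => Equiv.ext fun x => by rw [e', h, (k x).2]⟩

end Pool.Agent.MK
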