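import Pool.Agent.Lib.MP_c86c76_al.Tg.St
import Pool.Agent.Lib.MP_c86c76_al.Lo.St

/-!
The step with cusps: windows of genus three, tame lifts of full twists, placement of the windows.
Definitions and statements.
-/

set_option autoImplicit false

namespace Pool.Agent.MK

open Pool.Agent.MB Pool.Agent.MG Pool.Agent.MA Pool.Agent.MW
open FreeGroup hiding map_mul map_inv map_one

/-- The full twist of the first `q` points. -/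
def IsZ (m q : ℕ) (β : MulAut (FN m)) : Prop :=
  (∀ p, p < q → β (io m p) = bl m 0 q * io m p * (bl m 0 q)⁻¹) ∧ ∀ p, q ≤ p → β (io m p) = io m p

/-- The product of the transpositions at the places `p, …, q - 1`. -/
def pr (c : ℕ → Fin 3) (p q : ℕ) : Equiv.Perm (Fin 3) :=
  ((List.range' p (q - p)).map fun j => tau (c j)).prod

/-- The alternating sum of `n` colours from the place `p` on. -/
def al (c : ℕ → Fin 3) : ℕ → ℕ → Fin 3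
  | _, 0 => 0
  | p, n + 1 => c p - al c (p + 1) n

/-- The type is not constant on the places `p, …, q - 1`. -/
def Nc (p q : ℕ) (c : ℕ → Fin 3) : Prop := ∃ j, p ≤ j ∧ j + 1 < q ∧ c j ≠ c (j + 1)

/-- The elements that fix a set of words. -/
def Fx {F : Type} [Group F] (K : Subgroup (MulAut F)) (W : Set F) : Subgroup K where
  carrier := {φ | ∀ w ∈ W, φ.1 w = w}
  one_mem' := fun _ _ => rfl
  mul_mem' := fun {a b} h h' w hw => by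
    rw [Subgroup.coe_mul, MulAut.mul_apply, h' w hw, h w hw]
  inv_mem' := fun {a} h w hw => a.1.symm_apply_eq.2 (h w hw).symm

/-- The elements that fix all handles but the first four. -/
def Fo (g : ℕ) : Subgroup (MT.St g) := Fx (MT.St g) {w | ∃ j, 8 ≤ j ∧ w = io (2 * g) j}

/-- The elements that fix the two handles next to the foot. -/
def Fi : Subgroup (Gam 5) := Fx (Gam 5) {w | ∃ j, 6 ≤ j ∧ j ≤ 9 ∧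
  w = (io _ (2 * 5 + 1))⁻¹ * inG 5 ((wl _ 5 10)⁻¹ * wl _ 5 j) * io _ (2 * 5 + 1)}

/-- The curve around the foot and `p` handles. -/
def dd (h p : ℕ) : FN (2 * (h + 1)) :=
  (io _ (2 * h))⁻¹ * ev _ (rW (h + 1)) * (ev _ (rW (h - p)))⁻¹

/-- The twist about the curve around the foot and `p` handles. -/
def IsE (h p : ℕ) (φ : MulAut (FN (2 * (h + 1)))) : Prop :=
  φ (io _ (2 * h + 1)) = dd h p * io _ (2 * h + 1) ∧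
  (∀ j, 2 * (h - p) ≤ j → j < 2 * h → φ (io _ j) = dd h p * io _ j * (dd h p)⁻¹) ∧
  ∀ j, (j < 2 * (h - p) ∨ j = 2 * h) → φ (io _ j) = io _ j

/-- The data of a window. -/
def Iot {G : Type} [Group G] {m : ℕ} {r : G} (ρ : FN m →* Wr G) (h i : ℕ) (k : Wr G)
    (s : FN (2 * h + 1) →* G) (ι : Gam h →* MulAction.stabilizer (MulAut G) r) : Prop :=
  k.p = 1 ∧ (∀ x, ρ (inB h m i x) = k⁻¹ * Wr.map s (rhoW h x) * k) ∧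
    ∀ ψ, (∀ x, (ι ψ).1 (s x) = s (fb ψ x)) ∧ Wr.map (ι ψ).1.toMonoidHom k = k ∧
      (∀ p, p < i → Wr.map (ι ψ).1.toMonoidHom (ρ (io m p)) =
        (k⁻¹ * Wr.map s (Ub ψ) * k) * ρ (io m p) * (k⁻¹ * Wr.map s (Ub ψ) * k)⁻¹) ∧
      ∀ p, i + 2 * h + 1 ≤ p → Wr.map (ι ψ).1.toMonoidHom (ρ (io m p)) = ρ (io m p)

/-- `ψ` lifts `β` for the standard system of the window. -/
def Lw (h : ℕ) (β : MulAut (FN (2 * h + 1 + 1))) (ψ : Gam h) : Prop :=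
  ∀ x, rhoW h (β x) = Wr.map (fb ψ) (rhoW h x)

/-- The braid has a tame lift. -/
def Gz (β : BL (2 * 3 + 1 + 1)) : Prop := ∃ ψ : Gam 3, ML.Good ψ ∧ Lw 3 β.1 ψ

/-- The sixth power of `u` has a tame lift at the type `d`. -/
def Pz (u : BL (2 * 3 + 1 + 1)) (d : ℕ → Fin 3) : Prop :=
  ∃ γ ∈ Loc (2 * 3 + 1 + 1) 1 (2 * 3 + 1 + 1),
    Tp ((pp (rhoW 3)).comp γ.1.toMonoidHom) d ∧ Gz (γ * u ^ 6 * γ⁻¹)

/-- The full twists and half twists of the annulus with the points `i, …, j - 1`. -/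
def Cu (m i j : ℕ) : Set (BL m) :=
  {u | (∃ q, i ≤ q ∧ q ≤ j ∧ IsZ m q u.1) ∨ ∃ q, i ≤ q ∧ q + 1 < j ∧ IsS m q u.1}

/-- The action is small on the windows of genus three. -/
def HL (g : ℕ) {H : Type} [NormedAddCommGroup H] [InnerProductSpace ℂ H]
    (α : MT.St g →* (H ≃ᵃⁱ[ℂ] H)) : Prop :=
  ∀ (ρ : FN (2 * g + 1 + 1) →* Wr (FN (2 * g))) (i : ℕ) (c : Fin 3), XX (ev (2 * g) (rW g)) ρ →
    i % 2 = 1 → i + 2 * 3 + 1 ≤ 2 * g + 1 + 1 → Std 3 i (pp ρ) →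
    (∀ p, i + 2 * 3 + 1 ≤ p → p < 2 * g + 1 + 1 → pp ρ (io _ p) = tau c) →
    ∃ (k : Wr (FN (2 * g))) (s : FN (2 * 3 + 1) →* FN (2 * g)) (ι : Gam 3 →* MT.St g),
      Iot ρ 3 i k s ι ∧ ML.LocA (α.comp ι)

/-- Classification of types. -/
def HurSt : Prop :=
  (∀ p q c c', Nc p q c → Nc p q c' → pr c p q = pr c' p q →
    ∃ e, Rch p q c e ∧ ∀ x, p ≤ x → x < q → e x = c' x) ∧
  (∀ p q c, ∃ c', Rch p q c c' ∧ ∀ x y, p ≤ x → p ≤ y → x + 2 < q → y + 2 < q → c' x = c' y) ∧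
  (∀ p q c, ∃ c', Rch p q c c' ∧ ∀ x y, p + 2 ≤ x → p + 2 ≤ y → x < q → y < q → c' x = c' y) ∧
  (∀ c c' p n, al c p n = al c' p n ↔ pr c p (p + n) = pr c' p (p + n)) ∧
  ∀ c n, tp c (2 * n) = cyc ↔ al c 0 (2 * n) = 1

/-- Full twists. -/
def ZedSt : Prop := ∀ m : ℕ,
  (∀ q, q ≤ m → ∃ Z : BL m, IsZ m q Z.1) ∧
  (∀ i j q (Z : BL m), i ≤ q → q ≤ j → j ≤ m → IsZ m q Z.1 →
    Z ∈ Loc m i j ∧ ∀ n : ℕ, Loc0 m i j (Z ^ n).1 (bl m 0 q ^ n)) ∧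
  (∀ i j q (Z β : BL m), i ≤ q → q ≤ j → j ≤ m → IsZ m q Z.1 →
    (β ∈ Loc m i q ∨ β ∈ Loc m q j ∨ β ∈ Sub m 0 q) → Commute Z β) ∧
  (∀ q (Z : BL m) (π : FN m →* Equiv.Perm (Fin 3)) c, q ≤ m → IsZ m q Z.1 → Tp π c →
    Tp (π.comp Z.1.toMonoidHom) fun x => if x < q then π (bl m 0 q) (c x) else c x) ∧
  (∀ i j (u : BL m), i ≤ j → j ≤ m → u ∈ Cu m i j → u ∈ Loc m i j ∧
    (∃ w, Loc0 m i j (u ^ 6).1 w ∧ ∀ π : FN m →* Equiv.Perm (Fin 3), π w = 1) ∧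
    ∀ (π : FN m →* Equiv.Perm (Fin 3)) c, Tp π c → π.comp (u ^ 6).1.toMonoidHom = π) ∧
  ∀ (G : Type) [Group G] (ρ : FN m →* Wr G) j (s : BL m) c c' g g', j + 1 < m → IsS m j s.1 →
    ρ (io m j) = Ed c g → ρ (io m (j + 1)) = Ed c' g' → c ≠ c' → ∀ x, ρ ((s ^ 6).1 x) = ρ x

/-- The three loops of a pair of pants. -/
def LcSt : Prop := ∀ N k, k < N → ∃ η : BL (N + 1), ∀ Z0 Z1 Z2 s : BL (N + 1),
  IsZ _ k Z0.1 → IsZ _ (k + 1) Z1.1 → IsZ _ (k + 2) Z2.1 → IsS _ k s.1 →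
  η⁻¹ * ((MM N 0)⁻¹ * MM N k) * η = Z1 * Z0⁻¹ ∧
  η⁻¹ * ((MM N 0)⁻¹ * MM N (k + 1)) * η = Z2 * (s⁻¹ * Z1 * s)⁻¹ ∧
  η⁻¹ * ((MM N (k + 1))⁻¹ * MM N k) * η = (s ^ 2)⁻¹

/-- Two blocks of points change places. -/
def BlkSt : Prop :=
  (∀ m a b, a + b ≤ m → ∃ δ : BL m,
    (∀ p, p < b → δ.1 (io m p) = bl m 0 a * io m (a + p) * (bl m 0 a)⁻¹) ∧
    (∀ p, p < a → δ.1 (io m (b + p)) = io m p) ∧ ∀ p, a + b ≤ p → δ.1 (io m p) = io m p) ∧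
  ∀ N k, k + 2 ≤ N → ∃ δ : BL (N + 1),
    (MM N (k + 2))⁻¹ * MM N k = δ * ((MM N 2)⁻¹ * MM N 0) * δ⁻¹

/-- Every annulus with two points lies in a standard window of genus three. -/
def NfSt : Prop := ∀ (g k : ℕ) (π : FN (2 * g + 1 + 1) →* Equiv.Perm (Fin 3)) (c : ℕ → Fin 3),
  3 ≤ g → 1 ≤ k → k + 2 ≤ 2 * g + 1 + 1 → Tp π c → π (bl _ 0 (2 * g + 1 + 1)) = cyc →
  ∃ (i : ℕ) (γ δ : BL (2 * g + 1 + 1)) (e : Fin 3), i % 2 = 1 ∧ i ≤ k ∧ k + 2 ≤ i + 2 * 3 + 1 ∧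
    i + 2 * 3 + 1 ≤ 2 * g + 1 + 1 ∧ (∀ β ∈ Loc _ k (k + 2), Commute γ β) ∧
    δ ∈ Loc _ i (i + 2 * 3 + 1) ∧ Std 3 i (π.comp (γ * δ).1.toMonoidHom) ∧
    ∀ p, i + 2 * 3 + 1 ≤ p → p < 2 * g + 1 + 1 → π ((γ * δ).1 (io _ p)) = tau e

/-- Lifts of local braids. -/
def WiSt : Prop := ∀ (G : Type) [Group G] (h m i : ℕ) (r : G) (ρ : FN m →* Wr G) k s
  (ι : Gam h →* MulAction.stabilizer (MulAut G) r), XX r ρ → 1 ≤ i → i + 2 * h + 1 ≤ m →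
  Std h i (pp ρ) → Iot ρ h i k s ι → ∀ (β : BL m) (u : FN m), β ∈ Loc m i (i + 2 * h + 1) →
  Loc0 m i (i + 2 * h + 1) β.1 u → pp ρ u = 1 → (pp ρ).comp β.1.toMonoidHom = pp ρ →
  ∃ (ψ : Gam h) (b : FN (2 * h + 1 + 1) →* FN (2 * h + 1 + 1)), Lf ρ β.1 (ι ψ).1 ∧
    (∀ x, β.1 (inB h m i x) = inB h m i (b x)) ∧ ∀ x, rhoW h (b x) = Wr.map (fb ψ) (rhoW h x)

/-- The twist about the foot. -/
def KerSt : Prop := ∀ h : ℕ,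
  (∀ (ψ : Gam h) x, ψ.1 (inG h x) = inG h (fb ψ x)) ∧
  (∀ ψ : Gam h, ψ.1 (io _ (2 * h + 1)) = inG h (uu ψ) * io _ (2 * h + 1)) ∧
  (∀ ψ ψ' : Gam h, fb ψ = fb ψ' → uu ψ = uu ψ' → ψ = ψ') ∧
  ∃ A : Gam h, IsA _ h A.1 ∧ (∀ ψ, Commute A ψ) ∧
    ∀ ψ ψ' : Gam h, fb ψ = fb ψ' → ∃ n : ℤ, ψ' = ψ * A ^ n

/-- Restriction of local braids to the base of the window. -/
def RsSt : Prop := ∀ h m i : ℕ, 1 ≤ i → i + 2 * h + 1 ≤ m → Function.Injective (inB h m i) ∧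
  ∃ R : Loc m i (i + 2 * h + 1) →* BL (2 * h + 1 + 1),
    ∀ β, (∀ x, β.1.1 (inB h m i x) = inB h m i ((R β).1 x)) ∧ R β ∈ Loc _ 1 (2 * h + 1 + 1) ∧
      (β.1 ∈ Cu m i (i + 2 * h + 1) → R β ∈ Cu _ 1 (2 * h + 1 + 1))

/-- Tame twists. -/
def GoodSt : Prop := (∀ ψ : Gam 3, ψ.1 ∈ Lick _ → ML.Good ψ) ∧
  ∀ p, p ≤ 3 → ∃ E : Gam 3, IsE 3 p E.1 ∧ ML.Good E

/-- Moves of types. -/
def MovSt : Prop := ∀ (u : BL (2 * 3 + 1 + 1)) (d : ℕ → Fin 3), Pz u d →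
  (∀ γ ∈ Loc _ 1 (2 * 3 + 1 + 1), Tp ((pp (rhoW 3)).comp γ.1.toMonoidHom) d →
    Gz (γ * u ^ 6 * γ⁻¹)) ∧
  (∀ d' : ℕ → Fin 3, (∀ x, x < 8 → d' x = d x) → Pz u d') ∧
  (∀ a d', 1 ≤ a → a ≤ 8 → (∀ β ∈ Loc _ 1 a, Commute u β) → Rch 0 a d d' → Pz u d') ∧
  (∀ a d', 1 ≤ a → a ≤ 8 → (∀ β ∈ Sub _ a 8, Commute u β) → Rch a 8 d d' → Pz u d') ∧
  (u ∈ Loc _ 1 (2 * 3 + 1 + 1) → Pz u fun x => cyc (d x))

/-- Full twists at all types. -/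
def RepSt : Prop := ∀ (a : ℕ) (u : BL (2 * 3 + 1 + 1)) (d : ℕ → Fin 3), 1 ≤ a → a ≤ 8 →
  IsZ _ a u.1 → tp d 8 = cyc → Pz u d

/-- Half twists at all types. -/
def SigSt : Prop := ∀ (j : ℕ) (u : BL (2 * 3 + 1 + 1)), 1 ≤ j → j ≤ 6 → IsS _ j u.1 →
  ∀ γ ∈ Loc _ 1 (2 * 3 + 1 + 1), Gz (γ * u ^ 6 * γ⁻¹)

/-- The cusps of the standard window. -/
def MgSt : Prop := ∀ u ∈ Cu (2 * 3 + 1 + 1) 1 (2 * 3 + 1 + 1), ∀ γ ∈ Loc _ 1 (2 * 3 + 1 + 1),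
  Gz (γ * u ^ 6 * γ⁻¹)

/-- The cusps of a window. -/
def GdSt : Prop := ∀ (G : Type) [Group G] (m i : ℕ) (r : G) (ρ : FN m →* Wr G) k s
  (ι : Gam 3 →* MulAction.stabilizer (MulAut G) r), XX r ρ → 1 ≤ i → i + 2 * 3 + 1 ≤ m →
  Std 3 i (pp ρ) → Iot ρ 3 i k s ι → ∀ u ∈ Cu m i (i + 2 * 3 + 1), ∀ γ ∈ Loc m i (i + 2 * 3 + 1),
  ∃ ψ, ML.Good ψ ∧ Lf ρ (γ * u ^ 6 * γ⁻¹).1 (ι ψ).1

/-- The window of genus three in the window of genus five. -/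
def EmbSt : Prop := ∃ (s1 : FN (2 * 3 + 1) →* FN (2 * 5 + 1)) (e : Gam 3 →* Gam 5),
  (∀ ψ, e ψ ∈ Fi) ∧ ∀ (G : Type) [Group G] (m i : ℕ) (r : G) (ρ : FN m →* Wr G) k s
    (ι : Gam 5 →* MulAction.stabilizer (MulAut G) r), Iot ρ 5 i k s ι →
    Iot ρ 3 (i + 4) k (s.comp s1) (ι.comp e)

/-- The outer handles. -/
def OutSt : Prop := ∀ (g : ℕ) (ρ : FN (2 * g + 1 + 1) →* Wr (FN (2 * g))) (c : Fin 3), 4 ≤ g →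
  XX (ev (2 * g) (rW g)) ρ → (∀ p, 10 ≤ p → p < 2 * g + 1 + 1 → pp ρ (io _ p) = tau c) →
  ∃ θ : MT.St g, ∀ φ : MT.St g,
    (∀ p, 10 ≤ p → Wr.map φ.1.toMonoidHom (ρ (io _ p)) = ρ (io _ p)) → θ⁻¹ * φ * θ ∈ Fo g

/-- Placement of the windows. -/
def PlcSt : Prop := ∀ g, 5 ≤ g → ML.Loc (Fo g).subtype → ML.Loc Fi.subtype →
  ∀ (H : Type) [NormedAddCommGroup H] [InnerProductSpace ℂ H] [CompleteSpace H]
    (α : MT.St g →* (H ≃ᵃⁱ[ℂ] H)), HL g α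

/-- Soft facts on cusp norms. -/
def KpSt : Prop := ∀ (H : Type) [NormedAddCommGroup H] [InnerProductSpace ℂ H],
  (∀ (T R : H ≃ᵃⁱ[ℂ] H) y K K', Commute T R → ML.Kap T y K → ML.Kap R y K' →
    ML.Kap (T * R) y (2 * K + 2 * K')) ∧
  (∀ (T : H ≃ᵃⁱ[ℂ] H) y K, ML.Kap T y K → 0 ≤ K ∧ ML.Kap T⁻¹ y K ∧
    (∀ K', K ≤ K' → ML.Kap T y K') ∧ ∀ g : H ≃ᵃⁱ[ℂ] H, ML.Kap (g * T * g⁻¹) (g y) K) ∧
  (∀ l : ℕ, 0 < l → ∃ C : ℝ, 0 ≤ C ∧ ∀ (T : H ≃ᵃⁱ[ℂ] H) y K e, ML.Kap (T ^ l) y K →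
    ‖T y - y‖ ≤ e → ML.Kap T y (C * (K + e ^ 2))) ∧
  (∀ (T : H ≃ᵃⁱ[ℂ] H) y, ∃ y', ‖T y' - y'‖ ≤ ‖T (T y) - y‖ ∧ ∀ R : H ≃ᵃⁱ[ℂ] H, Commute T R →
    ‖R y' - y'‖ ≤ ‖R y - y‖ ∧ ∀ K, ML.Kap R y K → ML.Kap R y' K) ∧
  ∀ (K K' : Type) [Group K] [Group K'] (e : K' →* K) (α : K →* (H ≃ᵃⁱ[ℂ] H)),
    ML.LocA α → ML.LocA (α.comp e)

/-- The induced action with cusp norms. -/
def InSt : Prop := ∀ (B G T : Type) [Group B] [Group G] [Finite T] (act : T → B → T)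
  (Φ : T → B → G), (∀ t, act t 1 = t) → (∀ t β γ, act t (β * γ) = act (act t β) γ) →
  (∀ t β γ, Φ t (β * γ) = Φ t β * Φ (act t β) γ) →
  ∀ (H : Type) [NormedAddCommGroup H] [InnerProductSpace ℂ H] [CompleteSpace H]
    (α : G →* (H ≃ᵃⁱ[ℂ] H)),
    ∃ (H' : Type) (_ : NormedAddCommGroup H') (_ : InnerProductSpace ℂ H') (_ : CompleteSpace H')
      (a : B →* (H' ≃ᵃⁱ[ℂ] H')) (e : T → H' → H),
      (∀ (Λ : Subgroup B) (V : Finset B) (l : ℕ), 0 < l → (∀ v ∈ V, v ∈ Λ) →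
        (∀ v ∈ V, ∀ t, act t (v ^ l) = t) →
        (∀ t (S U : Finset G), (∀ φ ∈ S, ∃ β ∈ Λ, act t β = t ∧ φ = Φ t β) →
          (∀ φ ∈ U, ∃ γ ∈ Λ, ∃ v ∈ V, φ = Φ t (γ * v ^ l * γ⁻¹)) → ML.Small α S U) →
        ML.Small a V V) ∧
      ∀ t β v, act t β = t → ‖α (Φ t β) (e t v) - e t v‖ ≤ ‖a β v - v‖

/-- The lifts of the braids of an annulus with two points. -/
def ElSt : Prop := ∀ (g k : ℕ) (ρ : FN (2 * g + 1 + 1) →* Wr (FN (2 * g))),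
  XX (ev (2 * g) (rW g)) ρ → 3 ≤ g → 1 ≤ k → k + 2 ≤ 2 * g + 1 + 1 →
  ∀ (H : Type) [NormedAddCommGroup H] [InnerProductSpace ℂ H] [CompleteSpace H]
    (α : MT.St g →* (H ≃ᵃⁱ[ℂ] H)), HL g α → ∀ S U : Finset (MT.St g),
    (∀ φ ∈ S, ∃ β ∈ Loc (2 * g + 1 + 1) k (k + 2), Lf ρ β.1 φ.1) →
    (∀ φ ∈ U, ∃ γ ∈ Loc (2 * g + 1 + 1) k (k + 2), ∃ u ∈ Cu (2 * g + 1 + 1) k (k + 2),
      Lf ρ (γ * u ^ 6 * γ⁻¹).1 φ.1) →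
    ML.Small α S U

/-- The step. -/
def StepSt : Prop := ∀ g, 3 ≤ g →
  ∀ (H : Type) [NormedAddCommGroup H] [InnerProductSpace ℂ H] [CompleteSpace H]
    (α : MT.St g →* (H ≃ᵃⁱ[ℂ] H)), HL g α →
    ∀ (S : Finset (MT.St g)) (ε : ℝ), 0 < ε → ∃ x, ∀ s ∈ S, ‖α s x - x‖ < ε

end Pool.Agent.MK
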