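import Pool.Agent.Lib.MP_c86c76_al.Tk.Sig
import Pool.Agent.Lib.MP_c86c76_al.Tk.Hur
import Pool.Agent.Lib.MP_c86c76_al.Lo.All

/-!
The sixth powers of full twists have tame lifts at all types.
-/

set_option autoImplicit false

namespace Pool.Agent.MK

open Pool.Agent.MB Pool.Agent.MG Pool.Agent.MA Pool.Agent.MW
open FreeGroup hiding map_mul map_inv map_one

/-- A power of a conjugate of a twist. -/
abbrev RepF : Type := RW × ℕ × Bool × ℕ

/-- A braid, its type, and the lift. -/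
abbrev Cert : Type := RW × List (Fin 3) × ℕ × List RepF

abbrev tt : Bool := true

abbrev ff : Bool := false

def repL : List (List Cert) :=
  [[],
  [([(13,ff),(12,ff),(11,ff),(10,ff),(9,ff),(8,ff),(1,tt)], [2,1,1,1,1,1,1,1], 2,
    []),
   ([], [0,0,0,0,0,0,0,2], 2,
    [])],
  [([], [0,0,0,0,0,0,0,2], 1,
    [([(8,tt),(6,ff)],7,ff,1), ([],7,ff,1)]),
   ([(13,ff),(12,ff),(11,ff),(10,ff),(9,ff),(8,ff)], [0,2,1,1,1,1,1,1], 3,
    []),
   ([(13,ff),(12,ff),(11,ff),(10,ff),(9,tt),(8,tt)], [0,2,0,0,1,1,1,1], 3,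
    []),
   ([(13,ff),(12,ff),(11,ff),(10,ff),(9,ff),(8,tt)], [0,1,0,1,1,1,1,1], 3,
    [])],
  [([(13,ff),(12,ff),(11,ff),(10,ff),(9,tt),(8,tt),(1,tt),(8,tt),(9,tt)], [2,2,2,1,1,1,1,1], 2,
    [([(8,tt),(7,tt),(5,tt)],10,tt,1)]),
   ([], [0,0,0,0,0,0,0,2], 2,
    [([(8,tt),(7,tt),(5,tt)],10,tt,1)]),
   ([(13,ff),(12,ff),(11,ff),(10,ff),(9,ff)], [0,0,2,1,1,1,1,1], 2,
    [([(8,tt),(6,ff)],7,ff,1), ([],7,ff,2)]),
   ([(13,ff),(12,ff),(11,ff),(10,ff),(9,tt)], [0,0,1,0,1,1,1,1], 2,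
    [([],7,ff,1), ([(8,tt),(6,ff)],7,ff,2)])],
  [([], [0,0,0,0,0,0,0,2], 1,
    [([(8,tt),(3,ff),(4,ff),(5,ff)],7,ff,1), ([(3,tt),(4,tt),(5,tt),(6,ff)],7,ff,1)]),
   ([(13,ff),(12,ff),(11,tt),(10,tt),(9,ff),(10,tt)], [0,0,2,2,1,0,1,1], 1,
    [([],4,ff,1), ([(8,tt),(3,ff),(4,ff),(5,ff)],7,ff,1), ([],7,ff,1)]),
   ([(13,ff),(12,ff),(11,ff),(10,ff)], [0,0,0,2,1,1,1,1], 3,
    [([(8,tt),(7,tt),(5,tt)],10,tt,1)]),
   ([(13,ff),(12,ff),(11,tt),(10,tt)], [0,0,0,2,0,0,1,1], 3,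
    [([(8,tt),(7,tt),(5,tt)],10,tt,1)]),
   ([(13,ff),(12,ff),(11,ff),(10,tt)], [0,0,0,1,0,1,1,1], 3,
    [([(8,tt),(7,tt),(5,tt)],10,tt,1)])],
  [([(13,ff),(12,ff),(11,tt),(10,tt),(9,tt),(8,tt),(1,tt),(8,tt),(9,tt),(10,tt),(11,tt)], [2,2,2,2,2,1,1,1], 2,
    [([(8,tt),(7,tt),(5,tt),(4,tt),(2,tt)],11,tt,1)]),
   ([], [0,0,0,0,0,0,0,2], 2,
    [([(8,tt),(7,tt),(5,tt),(4,tt),(2,tt)],11,tt,1)]),
   ([(13,ff),(12,ff),(11,ff)], [0,0,0,0,2,1,1,1], 2,
    [([(8,tt),(3,ff),(4,ff),(5,ff)],7,ff,1), ([(3,tt),(4,tt),(5,tt),(6,ff)],7,ff,2)]),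
   ([(13,ff),(12,ff),(11,tt)], [0,0,0,0,1,0,1,1], 2,
    [([(3,tt),(4,tt),(5,tt),(6,ff)],7,ff,1), ([(8,tt),(3,ff),(4,ff),(5,ff)],7,ff,2)])],
  [([], [0,0,0,0,0,0,0,2], 1,
    [([(8,tt),(0,ff),(1,ff),(2,ff),(4,ff),(5,ff)],7,ff,1), ([(0,tt),(1,tt),(2,tt),(4,tt),(5,tt),(6,ff)],7,ff,1)]),
   ([(13,ff),(12,tt),(11,ff),(12,tt)], [0,0,0,0,1,1,2,1], 1,
    [([],1,ff,1), ([(8,tt),(3,ff),(4,ff),(5,ff)],7,ff,1), ([(0,tt),(1,tt),(2,tt),(4,tt),(5,tt),(6,ff)],7,ff,1)]),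
   ([(13,ff),(12,ff)], [0,0,0,0,0,2,1,1], 3,
    [([(8,tt),(7,tt),(5,tt),(4,tt),(2,tt)],11,tt,1)]),
   ([(13,ff),(12,tt)], [0,0,0,0,0,1,0,1], 3,
    [([(8,tt),(7,tt),(5,tt),(4,tt),(2,tt)],11,tt,1)])],
  [([], [0,0,0,0,0,0,0,2], 2,
    [([],12,tt,1)]),
   ([(13,ff)], [0,0,0,0,0,0,2,1], 2,
    [([(8,tt),(0,ff),(1,ff),(2,ff),(4,ff),(5,ff)],7,ff,1), ([(0,tt),(1,tt),(2,tt),(4,tt),(5,tt),(6,ff)],7,ff,2)])],
  [([], [0,0,0,0,0,0,0,2], 3,
    [([],12,tt,1)])]]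

def llL : List (List RW) :=
  [[[], [(4,ff)], [(6,tt),(4,tt)]],
  [[], [(5,tt),(4,ff)], [(4,tt),(5,ff)]],
  [[], [(2,ff),(5,tt)], [(5,ff),(2,tt)]],
  [[], [(3,tt),(2,ff),(5,tt)], [(5,ff),(2,tt),(3,ff)]],
  [[], [(0,ff),(3,tt),(5,tt)], [(5,ff),(3,ff),(0,tt)]],
  [[], [(1,tt),(0,ff),(3,tt),(5,tt)], [(5,ff),(3,ff),(0,tt),(1,ff)]],
  [[], [(1,tt),(3,tt),(5,tt)], [(5,ff),(3,ff),(1,ff)]],
  [[], [], []]]

/-- The product of the first letters. -/
def blR (q : ℕ) : RW := (List.range q).map fun p => (p, true)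

theorem rep_bl (m q : ℕ) : gw (io m) (blR q) = bl m 0 q := by
  induction q with
  | zero => exact (Raw_nil _).trans (bl_self m 0).symm
  | succ q ih => rw [bl_succ m q.zero_le, ← ih, blR, List.range_succ, List.map_append, Raw_append,
      List.map_singleton, Raw_pos, blR]

def zR (q : ℕ) (X : RW) (p : ℕ) : RW :=
  if p < q then X ++ [(p, true)] ++ iv X else [(p, true)]

def sR (j p : ℕ) : RW :=
  if p = j then [(j, true), (j + 1, true), (j, false)] else if p = j + 1 then [(j, true)]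
  else [(p, true)]

def sI (j p : ℕ) : RW :=
  if p = j then [(j + 1, true)] else if p = j + 1 then [(j + 1, false), (j, true), (j + 1, true)]
  else [(p, true)]

/-- The full twists and the half twists. -/
def bL : List SA :=
  ((List.range 8).map fun q => ((List.range 8).map fun p => rd (zR (q + 1) (blR (q + 1)) p),
    (List.range 8).map fun p => rd (zR (q + 1) (iv (blR (q + 1))) p))) ++
  (List.range 6).map fun j => ((List.range 8).map (sR (j + 1)), (List.range 8).map (sI (j + 1)))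

theorem bL_ok : bL.all (okS 8) = true := by decide +kernel

theorem rep_z {q : ℕ} (h : q < 8) {Z : MulAut (FN 8)} (hZ : IsZ 8 (q + 1) Z) :
    Z = ML.tb 8 bL q := by
  have k : ∀ q < 8, agR 8 (bL.getD q ([], [])) (zR (q + 1) (blR (q + 1))) = true := by
    decide +kernel
  obtain ⟨a, b⟩ := agR_ok (Raw_ok_getD 8 bL bL_ok q) (k q h)
  refine io_ext fun x => ?_
  by_cases c : x < q + 1
  · refine (hZ.1 x c).trans (Eq.symm ((a x (by omega)).trans ?_))
    rw [zR, if_pos c, Raw_append, Raw_append, Raw_iv, rep_bl, Raw_pos]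
  · exact (hZ.2 x (by omega)).trans (b x (if_neg c)).symm

theorem rep_s {j : ℕ} (h : j < 6) {s : MulAut (FN 8)} (hs : IsS 8 (j + 1) s) :
    s = ML.tb 8 bL (j + 8) := by
  have k : ∀ j < 6, agR 8 (bL.getD (j + 8) ([], [])) (sR (j + 1)) = true := by decide +kernel
  obtain ⟨a, b⟩ := agR_ok (Raw_ok_getD 8 bL bL_ok (j + 8)) (k j h)
  refine io_ext fun x => ?_
  by_cases c : x = j + 1
  · rw [c]
    refine hs.1.trans (Eq.symm ((a _ (by omega)).trans ?_))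
    rw [sR, if_pos rfl, Raw_cons, Raw_cons, Raw_neg, mul_assoc]
    rfl
  by_cases d : x = j + 1 + 1
  · rw [d]
    refine hs.2.1.trans (Eq.symm ((a _ (by omega)).trans ?_))
    rw [sR, if_neg (by omega), if_pos rfl, Raw_pos]
  · exact (hs.2.2 x c d).trans (b x (by rw [sR, if_neg c, if_neg d])).symm

theorem rep_loc (hZ : ZedSt) (w : RW) (h : bd 14 w = true) :
    ∃ γ ∈ Loc 8 1 8, γ.1 = gw (ML.tb 8 bL) w := by
  refine Raw_mem _ ((Loc 8 1 8).map (BL 8).subtype) 14 w (fun i hi => ?_) h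
  by_cases c : i < 8
  · obtain ⟨Z, e⟩ := (hZ 8).1 (i + 1) c
    exact ⟨Z, ((hZ 8).2.1 1 8 (i + 1) Z (by omega) c le_rfl e).1, rep_z c e⟩
  · obtain ⟨j, rfl⟩ : ∃ j, i = j + 8 := ⟨i - 8, by omega⟩
    obtain ⟨s, e⟩ := sgSt.1 8 (j + 1) (by omega)
    exact ⟨s, ((hZ 8).2.2.2.2.1 1 8 s (by omega) le_rfl
      (Or.inr ⟨j + 1, by omega, by omega, e⟩)).1, rep_s (by omega) e⟩

/-- The sheet after a letter. -/
def lp (j : ℕ) (s : Fin 3) : Fin 3 := if j < 7 then -s else if j = 7 then 1 - s else s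

/-- The label of a letter. -/
def ll (j : ℕ) (s : Fin 3) : RW := (llL.getD j []).getD s []

theorem rep_let (j : ℕ) (s : Fin 3) :
    (rhoW 3 (io _ j)).p s = lp j s ∧ (rhoW 3 (io _ j)).l s = ev 7 (ll j s) := by
  by_cases h : j < 8
  · interval_cases j
    · rw [sig_rho0]
      fin_cases s <;> refine ⟨by decide, ?_⟩ <;>
        simp [ll, llL, ev, Raw_cons, Raw_nil, wl, be]
    all_goals first | rw [sig_rho7] | rw [sig_rho (by decide) (by decide)]
    all_goals fin_cases s <;> refine ⟨by decide, ?_⟩ <;>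
      simp [ll, llL, ev, Raw_cons, Raw_nil, wl, be, Ed, List.range', mul_assoc]
  · rw [Lick_big (by omega), map_one, lp, if_neg (by omega), if_neg (by omega), ll,
      List.getD_eq_default _ _ (show llL.length ≤ j from not_lt.1 h)]
    exact ⟨rfl, (Raw_nil _).symm⟩

theorem rep_lp (j : ℕ) (s : Fin 3) : lp j (lp j s) = s := by
  unfold lp
  split_ifs <;> simp

/-- Evaluate the sheet. -/
def frc {α : Type} (x : Fin 3) (k : Fin 3 → α) : α :=
  cond (Nat.beq x 0) (k 0) (cond (Nat.beq x 1) (k 1) (k 2))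

theorem frc_eq {α : Type} (x : Fin 3) (k : Fin 3 → α) : frc x k = k x := by
  fin_cases x <;> rfl

/-- The lift of a path. -/
def go (w : RW) (s : Fin 3) : Fin 3 × RW :=
  w.foldr (fun l r => match r with
    | (t, u) => frc (lp l.1 t) fun t' => (t', cond l.2 (ll l.1 t) (iv (ll l.1 t')) ++ u)) (s, [])

theorem rep_go (w : RW) (s : Fin 3) :
    (rhoW 3 (ev _ w)).p s = (go w s).1 ∧ (rhoW 3 (ev _ w)).l s = ev 7 (go w s).2 := by
  induction w with
  | nil => rw [ev, Raw_nil, map_one]; exact ⟨rfl, (Raw_nil _).symm⟩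
  | cons l w ih =>
    have e : go (l :: w) s = (lp l.1 (go w s).1,
      cond l.2 (ll l.1 (go w s).1) (iv (ll l.1 (lp l.1 (go w s).1))) ++ (go w s).2) :=
      frc_eq _ fun t' => (t', cond l.2 (ll l.1 (go w s).1) (iv (ll l.1 t')) ++ (go w s).2)
    have i : ∀ t, (rhoW 3 (io _ l.1)).p⁻¹ t = lp l.1 t := fun t =>
      Equiv.Perm.inv_eq_iff_eq.2 ((rep_let _ _).1.trans (rep_lp _ _)).symm
    rw [e, ev, Raw_cons, map_mul, Wr.mul_p, Wr.mul_l, Equiv.Perm.mul_apply, ev, Raw_append]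
    rw [ev, ev] at ih
    rw [ih.1, ih.2]
    rcases l with ⟨j, _ | _⟩
    · rw [cond_false, cond_false, map_inv, Wr.inv_p, Wr.inv_l, i, (rep_let _ _).2, Raw_iv]
      exact ⟨rfl, rfl⟩
    · rw [cond_true, cond_true, (rep_let _ _).1, (rep_let _ _).2]
      exact ⟨rfl, rfl⟩

def inL : List RW := (List.range 6).map (fun p => [(p, true)]) ++ [[(7, tt), (6, ff), (7, ff)], []]

def reL : List RW := (List.range 6).map (fun p => [(p, true)]) ++ [[(6, ff)], []]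

theorem rep_in (w : RW) : inG 3 (ev 7 w) = ev 8 (sub inL w) := by
  rw [ev, ev, Raw_sub, Raw_map]
  refine congrArg (gw · w) (funext fun i => ?_)
  by_cases h : i < 8
  · interval_cases i
    iterate 6 exact (Gam_in_low (by omega)).trans (Raw_pos _ _).symm
    · refine Gam_in_top.trans (Eq.symm ((Raw_cons _ _ _).trans ?_))
      rw [Raw_cons, Raw_neg, mul_assoc]
      rfl
    · rw [Lick_big (by omega), map_one]
      exact (Raw_nil _).symm
  · rw [List.getD_eq_default _ _ (show inL.length ≤ i from not_lt.1 h), Raw_pos,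
      Lick_big (by omega), Lick_big (by omega), map_one]

theorem rep_re (w : RW) : reG 3 (ev 8 w) = ev 7 (sub reL w) := by
  rw [ev, ev, Raw_sub, Raw_map]
  refine congrArg (gw · w) (funext fun i => ?_)
  by_cases h : i < 8
  · interval_cases i
    iterate 6 exact (Gam_re_low (by omega)).trans (Raw_pos _ _).symm
    · exact Gam_re_a.trans (Raw_neg _ _).symm
    · exact Gam_re_b.trans (Raw_nil _).symm
  · rw [List.getD_eq_default _ _ (show reL.length ≤ i from not_lt.1 h), Raw_pos,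
      Lick_big (by omega), Lick_big (by omega), map_one]

def facW (f : RepF) : RW := f.1 ++ List.replicate f.2.2.2 (f.2.1, f.2.2.1) ++ iv f.1

def prodW (L : List RepF) : RW := L.foldr (fun f v => facW f ++ v) []

def cmOk : List RepF → Bool
  | [] => true
  | f :: t => ML.same 8 ML.tG3.L (facW f ++ prodW t) (prodW t ++ facW f) && cmOk t

theorem rep_rep {G : Type} [Group G] (T : ℕ → G) (n : ℕ) (l : ℕ × Bool) :
    gw T (List.replicate n l) = cond l.2 (T l.1) (T l.1)⁻¹ ^ n := by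
  induction n with
  | zero => rw [pow_zero]; exact Raw_nil _
  | succ n ih => rw [List.replicate_succ, Raw_cons, ih, pow_succ']

theorem rep_good (L : List RepF) (h : cmOk L = true) : ML.Good (gw ML.tG3.t (prodW L)) := by
  induction L with
  | nil => exact (Raw_nil ML.tG3.t).symm ▸ ML.bas_one
  | cons f t ih =>
    obtain ⟨a, b⟩ := Bool.and_eq_true_iff.1 h
    have e := ML.tG3.same a
    rw [Raw_append, Raw_append] at e
    rw [show prodW (f :: t) = facW f ++ prodW t from rfl, Raw_append]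
    refine ML.bas_mul _ _ e ?_ (ih b)
    rw [facW, ML.conj_of, rep_rep]
    refine (ML.basSt _).2.2.1 _ _ (ML.bas_pow _ _ ?_)
    cases f.2.2.1
    exacts [ML.bas_inv _ (ML.good_g3 _), ML.good_g3 _]

/-- A list as a type. -/
def fn (L : List (Fin 3)) (x : ℕ) : Fin 3 := L.getD x 0

/-- The check of a certificate. -/
def cerOk (q : ℕ) (C : Cert) : Bool := bd 14 C.1 && cmOk C.2.2.2 &&
  Nat.beq (C.2.2.1 * (6 / C.2.2.1)) 6 &&
  (List.range 8).all fun j => [0, 1, 2].all fun s : Fin 3 =>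
    Nat.beq (go (act bL C.1 [(j, true)]) s).1 (-s - fn C.2.1 j : Fin 3) &&
    match go (act bL (C.1 ++ List.replicate C.2.2.1 (q, true) ++ iv C.1) [(j, true)]) s with
    | (t, u) => Nat.beq t (lp j s) &&
      eqF u (sub reL (act ML.tG3.L (prodW C.2.2.2) (sub inL (ll j s))))

theorem rep_pow {β : BL (2 * 3 + 1 + 1)} (h : Gz β) (n : ℕ) : Gz (β ^ n) := by
  obtain ⟨ψ, a, b⟩ := h
  refine ⟨ψ ^ n, ML.bas_pow _ _ a, ?_⟩
  induction n with
  | zero =>
    intro x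
    rw [pow_zero, pow_zero, (gamSt 3).1.1]
    rfl
  | succ n ih =>
    intro x
    rw [pow_succ, pow_succ, ((gamSt 3).2.1 _ _).1, Subgroup.coe_mul, MulAut.mul_apply, ih, b]
    rfl

theorem rep_cer (hZ : ZedSt) {q : ℕ} (hq : q < 8) {C : Cert} (h : cerOk q C = true)
    {u : BL (2 * 3 + 1 + 1)} (hu : IsZ _ (q + 1) u.1) : Pz u (fn C.2.1) := by
  simp only [cerOk, Bool.and_eq_true_iff, List.all_eq_true, List.mem_range, Nat.beq_eq] at h
  obtain ⟨⟨⟨h1, h2⟩, h4⟩, h3⟩ := h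
  have m : ∀ s : Fin 3, s ∈ [0, 1, 2] := by decide
  have ta : ∀ c s : Fin 3, tau c s = -s - c := by decide
  obtain ⟨γ, g1, g2⟩ := rep_loc hZ C.1 h1
  have ac : ∀ w j, gw (ML.tb 8 bL) w (io 8 j) = ev 8 (act bL w [(j, true)]) := fun w j => by
    rw [← Raw_pos (io 8) j]
    exact Raw_act 8 bL bL_ok w _
  refine ⟨γ, g1, fun j hj => Equiv.ext fun s => ?_, ?_⟩
  · change (rhoW 3 (γ.1 (io 8 j))).p s = _
    rw [g2, ac, (rep_go _ _).1, ta]
    exact Fin.ext (h3 j hj s (m s)).1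
  rw [← h4, pow_mul, ← conj_pow]
  refine rep_pow ⟨_, rep_good _ h2, fun x => ?_⟩ _
  have e : (γ * u ^ C.2.2.1 * γ⁻¹).1 =
      gw (ML.tb 8 bL) (C.1 ++ List.replicate C.2.2.1 (q, true) ++ iv C.1) := by
    rw [ML.conj_of, rep_rep, ← g2, cond_true, ← rep_z hq hu]
    rfl
  refine DFunLike.congr_fun (FreeGroup.ext_hom
    ((rhoW 3).comp (γ * u ^ C.2.2.1 * γ⁻¹).1.toMonoidHom)
    ((Wr.map (fb _)).comp (rhoW 3)) fun j => ?_) x
  change rhoW 3 ((γ * u ^ C.2.2.1 * γ⁻¹).1 (of j)) = Wr.map _ (rhoW 3 (of j))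
  rw [twB_of, e, ac]
  refine Wr.ext (Equiv.ext fun s => ?_) (funext fun s => ?_)
  · rw [(rep_go _ _).1, Wr.map_p, (rep_let _ _).1]
    exact Fin.ext (h3 j j.2 s (m s)).2.1
  · rw [(rep_go _ _).2, Wr.map_l, (rep_let _ _).2]
    refine (Raw_eqF _ _ _ (h3 j j.2 s (m s)).2.2).trans
      ((rep_re _).symm.trans (congrArg (reG 3) ?_))
    rw [← Raw_act _ _ ML.tG3.ok, ← rep_in]
    exact congrArg (fun φ : MulAut _ => φ (inG 3 _))
      (Raw_map ML.tG3.t _ (Gam 3).subtype _).symm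

theorem rep_ok0 : ∀ q < 4, (repL.getD (q + 1) []).all (cerOk q) = true := by decide +kernel

theorem rep_ok1 : ∀ q < 2, (repL.getD (q + 5) []).all (cerOk (q + 4)) = true := by decide +kernel

theorem rep_ok2 : ∀ q < 2, (repL.getD (q + 7) []).all (cerOk (q + 6)) = true := by decide +kernel

theorem rep_ok {q : ℕ} (h : q < 8) : (repL.getD (q + 1) []).all (cerOk q) = true := by
  interval_cases q
  iterate 4 exact rep_ok0 _ (by omega)
  exacts [rep_ok1 0 (by omega), rep_ok1 1 (by omega), rep_ok2 0 (by omega), rep_ok2 1 (by omega)]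

/-- The invariant of a piece of a type. -/
def sg (c : ℕ → Fin 3) (p n : ℕ) : ℕ :=
  cond ((List.range (n - 1)).any fun j => !Nat.beq (c (p + j)) (c (p + j + 1))) (3 + al c p n)
    (cond (Nat.beq n 0) 0 (c p))

theorem rep_nc (c : ℕ → Fin 3) (p n : ℕ) : (Nc p (p + n) c ∧ sg c p n = 3 + al c p n) ∨
    (¬ Nc p (p + n) c ∧ sg c p n = if n = 0 then 0 else (c p : ℕ)) := by
  have nc : ((List.range (n - 1)).any
      fun j => !Nat.beq (c (p + j)) (c (p + j + 1))) = true ↔ Nc p (p + n) c := by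
    simp only [List.any_eq_true, List.mem_range, Bool.not_eq_true', ← Bool.not_eq_true, Nat.beq_eq]
    refine ⟨fun ⟨j, a, b⟩ => ⟨p + j, by omega, by omega, fun e => b (congrArg _ e)⟩,
      fun ⟨j, a, b, e⟩ => ⟨j - p, by omega, fun k => e (Fin.ext ?_)⟩⟩
    rwa [Nat.add_sub_cancel' a] at k
  by_cases a : Nc p (p + n) c
  · exact Or.inl ⟨a, by rw [sg, nc.2 a, cond_true]⟩
  · refine Or.inr ⟨a, ?_⟩
    rw [sg, Bool.eq_false_iff.2 (mt nc.1 a), cond_false]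
    cases n <;> rfl

theorem rep_sg {c c' : ℕ → Fin 3} {p n : ℕ} (h : sg c p n = sg c' p n) :
    ∃ e, Rch p (p + n) c e ∧ ∀ x, p ≤ x → x < p + n → e x = c' x := by
  have := (c p).2
  have := (c' p).2
  obtain ⟨a, e⟩ | ⟨a, e⟩ := rep_nc c p n <;> obtain ⟨b, e'⟩ | ⟨b, e'⟩ := rep_nc c' p n <;>
    rw [e, e'] at h
  · exact hurSt.1 _ _ c c' a b ((hur_al c c' p n).1 (Fin.ext (Nat.add_left_cancel h)))
  · split_ifs at h <;> omega
  · split_ifs at h <;> omega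
  · refine ⟨c, .refl, fun x h1 h2 => ?_⟩
    rw [if_neg (by omega), if_neg (by omega)] at h
    rw [cl_const a h1 h2, cl_const b h1 h2]
    exact Fin.ext h

theorem rep_add (c : ℕ → Fin 3) (p n k : ℕ) : al c p (n + k) =
    al c p n + if n % 2 = 0 then al c (p + n) k else -al c (p + n) k := by
  induction n generalizing p with
  | zero => simp [al]
  | succ n ih =>
    rw [Nat.add_right_comm, al, ih, al, show p + 1 + n = p + (n + 1) by omega]
    by_cases h : n % 2 = 0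
    · rw [if_pos h, if_neg (by omega)]
      abel
    · rw [if_neg h, if_pos (by omega)]
      abel

theorem rep_con (c : ℕ → Fin 3) (p n : ℕ) (h : ∀ x, p ≤ x → x < p + n → c x = c p) :
    al c p n = if n % 2 = 0 then 0 else c p := by
  induction n with
  | zero => rfl
  | succ n ih =>
    rw [rep_add, ih fun x a b => h x a (by omega), al, al, h (p + n) (by omega) (by omega)]
    by_cases k : n % 2 = 0
    · simp [k, show (n + 1) % 2 ≠ 0 by omega]
    · simp [k, show (n + 1) % 2 = 0 by omega]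

/-- The alternating sum from the invariant. -/
def alv (n v : ℕ) : Fin 3 := if v < 3 ∧ n % 2 = 0 then 0 else Fin.ofNat 3 v

/-- The invariants that occur. -/
def Fe (n v : ℕ) : Prop := (n = 0 → v = 0) ∧ (n = 1 → v < 3) ∧ (n = 2 → v ≠ 3)

instance (n v : ℕ) : Decidable (Fe n v) := by
  unfold Fe
  infer_instance

theorem rep_fe (c : ℕ → Fin 3) (p n : ℕ) :
    sg c p n < 6 ∧ Fe n (sg c p n) ∧ al c p n = alv n (sg c p n) := by
  have := (c p).2
  have := (al c p n).2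
  have o : ∀ x : Fin 3, Fin.ofNat 3 (3 + x) = x ∧ Fin.ofNat 3 x = x := by decide
  obtain ⟨⟨j, a, b, d⟩, e⟩ | ⟨a, e⟩ := rep_nc c p n <;> rw [e]
  · refine ⟨by omega, ⟨by omega, by omega, fun k t => d ?_⟩, by
      rw [alv, if_neg (by omega), (o _).1]⟩
    obtain rfl : j = p := by omega
    have : al c j n = 0 := Fin.ext (by omega)
    rwa [k, al, al, al, sub_zero, sub_eq_zero] at this
  · rw [rep_con c p n fun x => cl_const a, alv]
    refine ⟨by split_ifs <;> omega, ⟨fun k => if_pos k, fun _ => by split_ifs <;> omega,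
      fun _ => by split_ifs <;> omega⟩, ?_⟩
    by_cases k : n % 2 = 0
    · rw [if_pos k, if_pos ⟨by split_ifs <;> omega, k⟩]
    · rw [if_neg k, if_neg (fun t => k t.2), if_neg (by omega), (o _).2]

/-- A rotation of the colours. -/
def rt (C : Cert) (e : ℕ) (x : ℕ) : Fin 3 := fn C.2.1 x - Fin.ofNat 3 e

theorem rep_all : ∀ q < 8, ∀ v < 6, ∀ w < 6, Fe (q + 1) v ∧ Fe (7 - q) w ∧
    (alv (q + 1) v + if (q + 1) % 2 = 0 then alv (7 - q) w else -alv (7 - q) w) = 1 →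
    ((repL.getD (q + 1) []).any fun C => [0, 1, 2].any fun e =>
      Nat.beq (sg (rt C e) 0 (q + 1)) v && Nat.beq (sg (rt C e) (0 + (q + 1)) (7 - q)) w) = true := by
  decide +kernel

theorem repSt (hZ : ZedSt) (hM : MovSt) : RepSt := by
  intro a u d h1 h8 hu hd
  obtain ⟨q, rfl⟩ : ∃ q, a = q + 1 := ⟨a - 1, by omega⟩
  obtain ⟨a1, a2, a3⟩ := rep_fe d 0 (q + 1)
  obtain ⟨b1, b2, b3⟩ := rep_fe d (0 + (q + 1)) (7 - q)
  have e := rep_add d 0 (q + 1) (7 - q)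
  rw [show q + 1 + (7 - q) = 2 * 4 by omega, (hurSt.2.2.2.2 d 4).1 hd, b3, a3] at e
  have k := rep_all q h8 _ a1 _ b1 ⟨a2, b2, e.symm⟩
  simp only [List.any_eq_true, Bool.and_eq_true_iff, Nat.beq_eq] at k
  obtain ⟨C, m, e, me, k1, k2⟩ := k
  have p0 := rep_cer hZ h8 (List.all_eq_true.1 (rep_ok h8) C m) hu
  have hl := ((hZ _).2.1 1 _ _ u h1 h8 le_rfl hu).1
  have p1 := (hM u _ p0).2.2.2.2 hl
  have p2 := (hM u _ p1).2.2.2.2 hl
  have cy : ∀ x : Fin 3, x - Fin.ofNat 3 0 = x ∧ x - Fin.ofNat 3 1 = cyc x ∧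
    x - Fin.ofNat 3 2 = cyc (cyc x) := by decide
  have p : Pz u (rt C e) := by
    simp only [List.mem_cons, List.not_mem_nil, or_false] at me
    obtain rfl | rfl | rfl := me
    exacts [(hM u _ p0).2.1 _ fun x _ => (cy _).1, (hM u _ p1).2.1 _ fun x _ => (cy _).2.1,
      (hM u _ p2).2.1 _ fun x _ => (cy _).2.2]
  obtain ⟨c1, r1, e1⟩ := rep_sg k1
  obtain ⟨c2, r2, e2⟩ := rep_sg k2
  rw [Nat.zero_add] at r1 e1 r2 e2
  rw [show q + 1 + (7 - q) = 8 by omega] at r2 e2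
  have s1 := (hM u _ p).2.2.1 _ _ h1 h8
    (fun β m => (hZ _).2.2.1 1 (q + 1) _ u β h1 le_rfl h8 hu (Or.inl m)) r1
  obtain ⟨c3, r3, e3⟩ := hur_congr (d := c1) r2 fun x a _ => cl_out r1 x (Or.inr a)
  have s2 := (hM u _ s1).2.2.2.1 _ _ h1 h8 (fun β m => (hZ _).2.2.1 1 _ _ u β h1 h8 le_rfl hu
    (Or.inr (Or.inl ((lcaSt _ _ _ h8 le_rfl).2.1 m)))) r3
  refine (hM u _ s2).2.1 d fun x hx => ?_
  by_cases c : x < q + 1
  · rw [cl_out r3 x (Or.inl c), e1 x x.zero_le c]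
  · rw [e3 x (by omega) hx, e2 x (by omega) hx]

end Pool.Agent.MK
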