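import Pool.Agent.Lib.MP_c86c76_al.Tk.All0
import Pool.Agent.Lib.MP_c86c76_al.Tk.Rep

/-!
The step with cusps.
-/

set_option autoImplicit false

namespace Pool.Agent.MK

theorem repAll : RepSt := repSt zedSt movAll

theorem gdAll : GdSt := gdOf repAll

theorem elAll : ElSt := elOf repAll

theorem stepAll : StepSt := stepOf repAll

end Pool.Agent.MK
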