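import Pool.Agent.Lib.MP_c86c76_al.Tk.St
import Pool.Agent.Lib.MP_c86c76_al.Tg.Ell
import Pool.Agent.Lib.MP_c86c76_al.Tg.Ed
import Pool.Agent.Lib.MP_c86c76_al.Tg.Lca
import Pool.Agent.Lib.MP_c86c76_al.Tg.Re

/-!
The lifts of the braids of an annulus with two points.
-/

set_option autoImplicit false

namespace Pool.Agent.MK

open Pool.Agent.MB Pool.Agent.MG Pool.Agent.MA Pool.Agent.MW
open FreeGroup hiding map_mul map_inv map_one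

theorem el_uniq {G : Type} [Group G] {m : ℕ} {r : G} {ρ : FN m →* Wr G} (h : XX r ρ)
    {β : MulAut (FN m)} {φ φ' : MulAction.stabilizer (MulAut G) r} (e : Lf ρ β φ.1)
    (e' : Lf ρ β φ'.1) : φ = φ' :=
  Subtype.ext (MulEquiv.toMonoidHom_injective (ed_uniq h _ _ fun y => (e y).symm.trans (e' y)))

theorem el_pow (c : Fin 3) {n : ℕ} (h : n % 2 = 1) : tau c ^ n = tau c := by
  rw [← Nat.div_add_mod n 2, h, pow_add, pow_mul, Re_sq, one_pow, one_mul, pow_one]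

theorem elSt (hZ : ZedSt) (hN : NfSt) (hW : WiSt) (hG : GdSt) (hK : KpSt) : ElSt := by
  classical
  intro g k ρ hρ g3 k1 k2 H _ _ _ α hL S U hS hU
  obtain ⟨c, hc⟩ : ∃ c, Tp (pp ρ) c := by
    have h1 : ∀ p, ∃ c, p < 2 * g + 1 + 1 → pp ρ (io _ p) = tau c := fun p => by
      by_cases hp : p < 2 * g + 1 + 1
      · obtain ⟨c, a, e⟩ := hρ.1 p hp
        exact ⟨c, fun _ => congrArg Wr.p e⟩
      · exact ⟨0, fun c => absurd c hp⟩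
    choose c hc using h1
    exact ⟨c, hc⟩
  obtain ⟨i, γ, δ, e, i1, i2, i3, i4, i5, i6, i7, i8⟩ := hN g k (pp ρ) c g3 k1 k2 hc hρ.2.1.1
  have hρ' := (xSt edSt _ _ _ ρ hρ).1 (γ * δ)
  have t : ∀ β ∈ Loc _ k (k + 2), ∀ φ : MulAut (FN (2 * g)), Lf ρ β.1 φ →
      Lf (ρ.comp (γ * δ).1.toMonoidHom) (δ⁻¹ * β * δ).1 φ := fun β hβ φ e x => by
    refine Eq.trans (congrArg ρ ?_) (e ((γ * δ).1 x))
    have h1 : γ * δ * (δ⁻¹ * β * δ) = β * (γ * δ) := by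
      rw [← mul_assoc β, ← (i5 β hβ).eq]
      group
    exact DFunLike.congr_fun (congrArg Subtype.val h1) x
  have j7 : Std 3 i (pp (ρ.comp (γ * δ).1.toMonoidHom)) := i7
  have j8 : ∀ p, i + 2 * 3 + 1 ≤ p → p < 2 * g + 1 + 1 →
      pp (ρ.comp (γ * δ).1.toMonoidHom) (io _ p) = tau e := i8
  generalize ρ.comp (γ * δ).1.toMonoidHom = ρ' at hρ' t j7 j8
  have hm : Loc (2 * g + 1 + 1) k (k + 2) ≤ Loc _ i (i + 2 * 3 + 1) :=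
    (lcaSt _ k (k + 2) (by omega) k2).1 _ _ i2 i3
  obtain ⟨k0, s, ι, hI, hA⟩ := hL ρ' i e hρ' i1 i4 j7 j8
  obtain ⟨z1, z2, z3, -, z5, -⟩ := hZ (2 * g + 1 + 1)
  obtain ⟨Z, hZ1⟩ := z1 i (by omega)
  obtain ⟨z6, z7⟩ := z2 i (i + 2 * 3 + 1) i Z le_rfl (by omega) i4 hZ1
  have pX : pp ρ' (bl _ 0 i) = tau 0 := by
    rw [Re_bl i fun p hp => j7.1 p (by omega), el_pow 0 i1]
  have pZ : pp (ρ'.comp Z.1.toMonoidHom) = pp ρ' := by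
    refine FreeGroup.ext_hom _ _ fun j => ?_
    rw [← show io _ j = of j from dif_pos j.2]
    show pp ρ' (Z.1 (io _ j)) = _
    by_cases hj : (j : ℕ) < i
    · rw [hZ1.1 j hj, map_mul, map_mul, map_inv, pX, j7.1 j (by omega), mul_inv_cancel_right]
    · rw [hZ1.2 j (not_lt.1 hj)]
  obtain ⟨h0, h1, h2⟩ := (xSt edSt _ _ _ ρ' hρ').2.1 _ ((xSt edSt _ _ _ ρ' hρ').1 Z) pZ
  obtain ⟨h, hh⟩ : ∃ h : MT.St g, Lf ρ' Z.1 h.1 := ⟨⟨h0, h1⟩, h2⟩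
  have a0 : ∀ β ∈ Loc _ i (i + 2 * 3 + 1), ∀ φ : MT.St g, Lf ρ' β.1 φ.1 → Commute h φ :=
    fun β hβ φ e => by
      have e1 : Lf ρ' (Z * β).1 (h * φ).1 := ell_mul hh e
      have e2 : Lf ρ' (β * Z).1 (φ * h).1 := ell_mul e hh
      rw [(z3 i (i + 2 * 3 + 1) i Z β le_rfl (by omega) i4 hZ1 (Or.inr (Or.inl hβ))).eq] at e1
      exact el_uniq hρ' e1 e2
  have a1 : ∀ β ∈ Loc _ i (i + 2 * 3 + 1), ∀ (u : FN _) (φ : MT.St g),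
      Loc0 _ i (i + 2 * 3 + 1) β.1 u → pp ρ' u = 1 → Lf ρ' β.1 φ.1 → ∃ ψ, φ = ι ψ :=
    fun β hβ u φ b2 b4 b3 => by
      obtain ⟨ψ, -, e, -⟩ := hW _ 3 _ i _ ρ' k0 s ι hρ' (by omega) i4 j7 hI β u hβ b2 b4
        (MonoidHom.ext (ell_pp b3))
      exact ⟨ψ, el_uniq hρ' b3 e⟩
  have a2 : ∀ β ∈ Loc _ i (i + 2 * 3 + 1), ∀ φ : MT.St g, Lf ρ' β.1 φ.1 →
      ∃ ψ, φ = ι ψ ∨ φ * h = ι ψ := fun β hβ φ b3 => by
    obtain ⟨u, b2⟩ := hβ.1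
    have e := ell_pp b3 (io _ 0)
    rw [b2.2.1 0 (by omega), map_mul, map_mul, map_inv, j7.1 0 (by omega)] at e
    rcases ((edSt (FN 0)).2.2.2.2.2 0 0).2.2 _ e with e | e
    · obtain ⟨ψ, e'⟩ := a1 β hβ u φ b2 e b3
      exact ⟨ψ, Or.inl e'⟩
    · have z8 := z7 1
      rw [pow_one, pow_one] at z8
      obtain ⟨ψ, e'⟩ := a1 (β * Z) (mul_mem hβ z6) _ (φ * h) (b2.mul z8)
        (by rw [map_mul, ell_pp b3, pX, e]; decide) (ell_mul b3 hh)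
      exact ⟨ψ, Or.inr e'⟩
  obtain ⟨ψ2, e2⟩ : ∃ ψ, h * h = ι ψ := by
    refine a1 (Z ^ 2) (pow_mem z6 2) _ _ (z7 2) (by rw [map_pow, pX, Re_sq]) ?_
    rw [pow_two]
    exact ell_mul hh hh
  have b1 : ∀ φ : MT.St g, ∃ ψ, φ ∈ S → Commute h φ ∧ (φ = ι ψ ∨ φ * h = ι ψ) := fun φ => by
    by_cases hφ : φ ∈ S
    · obtain ⟨β, hβ, e⟩ := hS φ hφ
      have m1 := mul_mem (mul_mem (inv_mem i6) (hm hβ)) i6
      obtain ⟨ψ, e'⟩ := a2 _ m1 φ (t β hβ _ e)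
      exact ⟨ψ, fun _ => ⟨a0 _ m1 φ (t β hβ _ e), e'⟩⟩
    · exact ⟨1, fun c => absurd c hφ⟩
  have b2 : ∀ φ : MT.St g, ∃ ψ, φ ∈ U → Commute h φ ∧ ML.Good ψ ∧ φ = ι ψ := fun φ => by
    by_cases hφ : φ ∈ U
    · obtain ⟨γ1, hγ, u, hu, e⟩ := hU φ hφ
      have m0 := mul_mem (mul_mem hγ (pow_mem (z5 k (k + 2) u (by omega) k2 hu).1 6)) (inv_mem hγ)
      have m1 := mul_mem (mul_mem (inv_mem i6) (hm m0)) i6
      have e1 := t _ m0 _ e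
      have hu' : u ∈ Cu (2 * g + 1 + 1) i (i + 2 * 3 + 1) := by
        rcases hu with ⟨q, q1, q2, q3⟩ | ⟨q, q1, q2, q3⟩
        · exact Or.inl ⟨q, by omega, by omega, q3⟩
        · exact Or.inr ⟨q, by omega, by omega, q3⟩
      obtain ⟨ψ, p1, p2⟩ := hG _ _ i _ ρ' k0 s ι hρ' (by omega) i4 j7 hI u hu' (δ⁻¹ * γ1)
        (mul_mem (inv_mem i6) (hm hγ))
      rw [show δ⁻¹ * γ1 * u ^ 6 * (δ⁻¹ * γ1)⁻¹ = δ⁻¹ * (γ1 * u ^ 6 * γ1⁻¹) * δ by group] at p2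
      exact ⟨ψ, fun _ => ⟨a0 _ m1 φ e1, p1, el_uniq hρ' e1 p2⟩⟩
    · exact ⟨1, fun c => absurd c hφ⟩
  choose f hf using b1
  choose f' hf' using b2
  intro ε hε
  obtain ⟨y, y1, y2⟩ := hA (insert ψ2 (S.image f)) (U.image f') (fun ψ hψ => by
    obtain ⟨φ, hφ, rfl⟩ := Finset.mem_image.1 hψ
    exact (hf' φ hφ).2.1) (ε / 2) (half_pos hε)
  obtain ⟨-, n2, -, n4, -⟩ := hK H
  obtain ⟨y', w1, w2⟩ := n4 (α h) y
  have w3 : ‖α h y' - y'‖ ≤ ε / 2 := by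
    refine w1.trans ?_
    have := y1 ψ2 (Finset.mem_insert_self _ _)
    rwa [MonoidHom.comp_apply, ← e2, map_mul] at this
  refine ⟨y', fun φ hφ => ?_, fun φ hφ => ?_⟩
  · obtain ⟨c1, c2⟩ := hf φ hφ
    have y3 := y1 (f φ) (Finset.mem_insert_of_mem (Finset.mem_image_of_mem f hφ))
    rw [MonoidHom.comp_apply] at y3
    rcases c2 with c2 | c2
    · rw [← c2] at y3
      linarith [(w2 _ (c1.map α)).1]
    · rw [← c2] at y3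
      have y4 := (w2 _ ((c1.mul_right (Commute.refl h)).map α)).1.trans y3
      have y5 : ‖α φ y' - α (φ * h) y'‖ ≤ ε / 2 := by
        rw [map_mul, ← dist_eq_norm]
        change dist (α φ y') (α φ (α h y')) ≤ _
        rw [(α φ).dist_map, dist_comm, dist_eq_norm]
        exact w3
      linarith [norm_sub_le_norm_sub_add_norm_sub (α φ y') (α (φ * h) y') y']
  · obtain ⟨c1, -, c2⟩ := hf' φ hφ
    have y3 := y2 (f' φ) (Finset.mem_image_of_mem f' hφ)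
    rw [MonoidHom.comp_apply, ← c2] at y3
    exact (n2 _ _ _ ((w2 _ (c1.map α)).2 _ y3)).2.2.1 _ (half_le_self hε.le)

end Pool.Agent.MK
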