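import Pool.Agent.Lib.MP_c86c76_al.Tk.St
import Pool.Agent.Lib.MP_c86c76_al.Tg.Ed
import Pool.Agent.Lib.MP_c86c76_al.Tg.Wl
import Pool.Agent.Lib.MP_c86c76_al.Tg.Un
import Pool.Agent.Lib.MP_c86c76_al.Tg.Gam
import Pool.Agent.Lib.MP_c86c76_al.Tg.Iot

/-!
The window of genus three in the window of genus five.
-/

set_option autoImplicit false

namespace Pool.Agent.MK

open Pool.Agent.MB Pool.Agent.MG Pool.Agent.MA Pool.Agent.MW
open FreeGroup hiding map_mul map_inv map_one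

theorem emb_mod : ModSt := modSt edSt wlSt

theorem emb_W (h : ℕ) {j : ℕ} (h1 : 1 ≤ j) (h2 : j ≤ 2 * h) :
    rhoW h (io _ j) = Ed 0 (wl (2 * h + 1) h (2 * h - j)) := by
  rw [io, dif_pos (by omega), rhoW, lift_apply_of, if_neg (by simpa using (by omega : j ≠ 0)),
    if_pos h2]

theorem emb_top (h : ℕ) : rhoW h (io _ (2 * h + 1)) = Ed 2 1 := by
  rw [io, dif_pos (by omega), rhoW, lift_apply_of, if_neg (Nat.succ_ne_zero _),
    if_neg (Nat.not_succ_le_self _)]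

theorem emb_in (m i : ℕ) (x : FN (2 * 3 + 1 + 1)) :
    inB 3 m (i + 4) x = inB 5 m i (inB 3 (2 * 5 + 1 + 1) 5 x) := by
  refine DFunLike.congr_fun (Iot_ext (f := inB 3 m (i + 4))
    (f' := (inB 5 m i).comp (inB 3 (2 * 5 + 1 + 1) 5)) fun p hp => ?_) x
  rw [MonoidHom.comp_apply]
  rcases p with _ | p
  · rw [Iot_in0, Iot_in0]
    exact (Iot_bl 5 m i (q := 4) (by omega)).symm
  · rw [Iot_in 3 _ _ (by omega), Iot_in 3 _ _ (by omega), show 5 + p = 4 + p + 1 by omega,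
      Iot_in 5 _ _ (by omega), add_assoc]

theorem emb_bl : inB 3 (2 * 5 + 1 + 1) 5 (bl _ 0 (2 * 3 + 1 + 1)) = bl _ 0 (2 * 5 + 1 + 1) :=
  Iot_bl 3 _ 5 (q := 2 * 3 + 1) le_rfl

theorem emb_pow {q : ℕ} (hq : q ≤ 2 * 5) :
    (rhoW 5 (bl _ 0 (q + 1))).p = tau 0 ^ (q + 1) ∧ (rhoW 5 (bl _ 0 (q + 1))).l 0 = 1 := by
  induction q with
  | zero =>
    rw [bl_succ _ le_rfl, bl_self, one_mul, Iot_W0]
    exact ⟨rfl, rfl⟩
  | succ q ih =>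
    obtain ⟨a, b⟩ := ih (by omega)
    rw [bl_succ _ (Nat.zero_le _), map_mul, emb_W 5 (by omega) hq, Wr.mul_p, Wr.mul_l, a,
      pow_succ _ (q + 1)]
    exact ⟨rfl, by simp [Ed, show tau 0 0 = 0 by decide, b]⟩

theorem emb_s : ∃ s : FN (2 * 3 + 1) →* FN (2 * 5 + 1),
    ∀ x, rhoW 5 (inB 3 (2 * 5 + 1 + 1) 5 x) = Wr.map s (rhoW 3 x) := by
  obtain ⟨a, b⟩ := emb_pow (q := 4) (by omega)
  refine ((emb_mod 3).2.2 _).1 ((rhoW 5).comp (inB 3 (2 * 5 + 1 + 1) 5)) ?_ ?_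
    (fun j h1 h2 => ?_) ?_ ?_
  · rw [MonoidHom.comp_apply, Iot_in0, a]
    exact Iot_odd rfl
  · rw [MonoidHom.comp_apply, Iot_in0, b]
  · obtain ⟨j, rfl⟩ := Nat.exists_eq_add_of_le' h1
    exact ⟨_, by rw [MonoidHom.comp_apply, Iot_in 3 _ _ (by omega), emb_W 5 (by omega) (by omega)]⟩
  · exact ⟨_, by rw [MonoidHom.comp_apply, Iot_in 3 _ _ le_rfl]; exact emb_top 5⟩
  · rw [MonoidHom.comp_apply, emb_bl]
    exact (emb_mod 5).1

/-- `f` extends the action of `ψ`. -/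
def emb_P (s : FN (2 * 3 + 1) →* FN (2 * 5 + 1)) (ψ : Gam 3)
    (f : FN (2 * 5 + 1) →* FN (2 * 5 + 1)) : Prop :=
  (∀ x, f (s x) = s (fb ψ x)) ∧ ∀ p, p < 5 → Wr.map f (rhoW 5 (io _ p)) =
    Wr.map s (Ub ψ) * rhoW 5 (io _ p) * (Wr.map s (Ub ψ))⁻¹

section

variable {s : FN (2 * 3 + 1) →* FN (2 * 5 + 1)}

theorem emb_cj {ψ : Gam 3} {f : FN (2 * 5 + 1) →* FN (2 * 5 + 1)} (a : emb_P s ψ f)
    (x : Wr (FN (2 * 3 + 1))) : Wr.map f (Wr.map s x) = Wr.map s (Wr.map (fb ψ) x) := by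
  rw [Iot_map, Iot_map, show f.comp s = s.comp (fb ψ) from MonoidHom.ext a.1]

theorem emb_win {p : ℕ} (h1 : 5 ≤ p) (h2 : p < 2 * 5 + 1 + 1) :
    io _ p = inB 3 (2 * 5 + 1 + 1) 5 (io _ (p - 5 + 1)) := by
  rw [Iot_in 3 _ _ (by omega), Nat.add_sub_cancel' h1]

theorem emb_uniq (hs : ∀ x, rhoW 5 (inB 3 (2 * 5 + 1 + 1) 5 x) = Wr.map s (rhoW 3 x))
    {ψ : Gam 3} {f f' : FN (2 * 5 + 1) →* FN (2 * 5 + 1)} (a : emb_P s ψ f) (a' : emb_P s ψ f') :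
    f = f' :=
  ((emb_mod 5).2.2 _).2 f f' (DFunLike.congr_fun (Iot_ext (f := (Wr.map f).comp (rhoW 5))
    (f' := (Wr.map f').comp (rhoW 5)) fun p hp => by
      change Wr.map f (rhoW 5 _) = Wr.map f' (rhoW 5 _)
      rcases lt_or_ge p 5 with h1 | h1
      · rw [a.2 p h1, a'.2 p h1]
      · rw [emb_win h1 hp, hs, emb_cj a, emb_cj a']))

theorem emb_one : emb_P s 1 (MonoidHom.id _) :=
  ⟨fun x => by rw [(gamSt 3).1.1]; rfl, fun p _ => by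
    rw [Iot_U1 gamSt, map_one, inv_one, mul_one, one_mul]; rfl⟩

theorem emb_mul {ψ ψ' : Gam 3} {f f' : FN (2 * 5 + 1) →* FN (2 * 5 + 1)} (a : emb_P s ψ f)
    (a' : emb_P s ψ' f') : emb_P s (ψ * ψ') (f.comp f') := by
  refine ⟨fun x => ?_, fun p hp => ?_⟩
  · rw [MonoidHom.comp_apply, a'.1, a.1, ((gamSt 3).2.1 ψ ψ').1, MonoidHom.comp_apply]
  · rw [← Iot_map, a'.2 p hp, map_mul, map_mul, map_inv, emb_cj a, a.2 p hp, Iot_Um gamSt, map_mul]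
    group

theorem emb_ex (hs : ∀ x, rhoW 5 (inB 3 (2 * 5 + 1 + 1) 5 x) = Wr.map s (rhoW 3 x)) (ψ : Gam 3) :
    ∃ f, emb_P s ψ f := by
  set V := Wr.map s (Ub ψ) with hV
  let F : ℕ → Wr (FN (2 * 5 + 1)) := fun p => if p < 5 then V * rhoW 5 (io _ p) * V⁻¹ else
    Wr.map s (Wr.map (fb ψ) (rhoW 3 (io _ (p - 5 + 1))))
  let ρ' : FN (2 * 5 + 1 + 1) →* Wr (FN (2 * 5 + 1)) := lift fun j : Fin _ => F j
  have a1 : ∀ p, p < 5 → ρ' (io _ p) = V * rhoW 5 (io _ p) * V⁻¹ := fun p hp =>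
    (Iot_lift F (by omega)).trans (if_pos hp)
  have a2 : ∀ p, 5 ≤ p → p < 2 * 5 + 1 + 1 →
      ρ' (io _ p) = Wr.map s (Wr.map (fb ψ) (rhoW 3 (io _ (p - 5 + 1)))) := fun p h1 h2 =>
    (Iot_lift F h2).trans (if_neg (by omega))
  have a4 : ∀ x, ρ' (inB 3 (2 * 5 + 1 + 1) 5 x) = Wr.map s (Wr.map (fb ψ) (rhoW 3 x)) :=
    DFunLike.congr_fun (Iot_ext (f := ρ'.comp (inB 3 (2 * 5 + 1 + 1) 5))
      (f' := (Wr.map s).comp ((Wr.map (fb ψ)).comp (rhoW 3))) fun p hp => by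
        change ρ' (inB 3 _ 5 _) = Wr.map s (Wr.map (fb ψ) (rhoW 3 _))
        rcases p with _ | p
        · rw [Iot_in0, bl_conj ρ' (rhoW 5) V a1, ← Iot_in0 3, hs, Iot_U0 gamSt, hV, map_mul,
            map_mul, map_inv]
        · rw [Iot_in 3 _ _ (by omega), a2 _ (by omega) (by omega), Nat.add_sub_cancel_left])
  obtain ⟨f, hf⟩ := ((emb_mod 5).2.2 _).1 ρ'
    (by rw [a1 0 (by omega), Iot_W0]; simp [hV, Ub])
    (by rw [a1 0 (by omega), Iot_W0]; simp [hV, Ub, show tau 0 0 = 0 by decide])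
    (fun j h1 h2 => by
      rcases lt_or_ge j 5 with h3 | h3
      · exact ⟨_, by rw [a1 j h3, emb_W 5 h1 h2, (edSt _).1]; rfl⟩
      · exact ⟨_, by
          rw [a2 j h3 (by omega), emb_W 3 (by omega) (by omega), (edSt _).2.2.2.1,
            (edSt _).2.2.2.1]⟩)
    ⟨_, by
      rw [a2 _ (by omega) (by omega),
        show rhoW 3 (io _ (2 * 5 + 1 - 5 + 1)) = Ed 2 1 from emb_top 3,
        (edSt _).2.2.2.1, (edSt _).2.2.2.1]⟩
    (by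
      rw [← emb_bl, a4, Iot_fix emb_mod gamSt, ← hs, emb_bl]
      exact (emb_mod 5).1)
  refine ⟨f, DFunLike.congr_fun (((emb_mod 3).2.2 _).2 (f.comp s) (s.comp (fb ψ)) fun x => ?_),
    fun p hp => (hf _).symm.trans (a1 p hp)⟩
  have := (hf _).symm.trans (a4 x)
  rwa [hs] at this

theorem emb_wl {ψ : Gam 3} {f : FN (2 * 5 + 1) →* FN (2 * 5 + 1)} (a : emb_P s ψ f) {j : ℕ}
    (h1 : 6 ≤ j) (h2 : j ≤ 10) :
    f (wl _ 5 j) = s ((Ub ψ).l 2) * wl _ 5 j * (s (uu ψ))⁻¹ := by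
  have e := congrArg (·.l 1) (a.2 (10 - j) (by omega))
  rcases h2.eq_or_lt with rfl | h3
  · rw [Nat.sub_self, Iot_W0] at e
    simpa [Ub, show tau 0 1 = 2 by decide] using e
  · rw [emb_W 5 (by omega) (by omega), show 2 * 5 - (10 - j) = j by omega] at e
    simpa [Ub, Ed, show tau 0 1 = 2 by decide] using e

theorem emb_c {ψ : Gam 3} {f : FN (2 * 5 + 1) →* FN (2 * 5 + 1)} (a : emb_P s ψ f) :
    f (io _ (2 * 5)) = s (uu ψ) * io _ (2 * 5) * (s (uu ψ))⁻¹ := by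
  have e := congrArg (·.l 2) (a.2 0 (by omega))
  rw [Iot_W0] at e
  have e' : f (io _ (2 * 5) * (wl _ 5 10)⁻¹) =
      s (uu ψ) * (io _ (2 * 5) * (wl _ 5 10)⁻¹) * (s ((Ub ψ).l 2))⁻¹ := by
    simpa [Ub, show tau 0 2 = 1 by decide] using e
  rw [map_mul, map_inv, emb_wl a (by omega) le_rfl, mul_inv_eq_iff_eq_mul] at e'
  rw [e']
  group

theorem emb_bd (hs : ∀ x, rhoW 5 (inB 3 (2 * 5 + 1 + 1) 5 x) = Wr.map s (rhoW 3 x))
    {ψ : Gam 3} {f : FN (2 * 5 + 1) →* FN (2 * 5 + 1)} (a : emb_P s ψ f) :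
    f (io _ (2 * 5) * ev (2 * 5 + 1) (rW 5)) = io _ (2 * 5) * ev (2 * 5 + 1) (rW 5) := by
  have e : Wr.map f (rhoW 5 (bl _ 0 (2 * 5 + 1 + 1))) = rhoW 5 (bl _ 0 (2 * 5 + 1 + 1)) := by
    rw [← emb_bl, hs, emb_cj a, Iot_fix emb_mod gamSt]
  rw [← (emb_mod 5).2.1]
  exact congrArg (·.l 2) e

end

theorem embSt (hK : KerSt) : EmbSt := by
  obtain ⟨s1, hs⟩ := emb_s
  choose f hf using emb_ex hs
  have inv : ∀ ψ ψ', ψ * ψ' = 1 → (f ψ).comp (f ψ') = MonoidHom.id _ := fun ψ ψ' e =>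
    emb_uniq hs (emb_mul (hf ψ) (hf ψ')) (e ▸ emb_one)
  have ex : ∀ ψ, ∃ χ : Gam 5, fb χ = f ψ ∧ uu χ = s1 (uu ψ) := fun ψ =>
    (gamSt 5).2.2.2 (MonoidHom.toMulEquiv (f ψ) (f ψ⁻¹) (inv _ _ (inv_mul_cancel ψ))
      (inv _ _ (mul_inv_cancel ψ))) _ (emb_c (hf ψ)) (emb_bd hs (hf ψ))
  choose e he hu using ex
  have hU : ∀ ψ, Ub (e ψ) = Wr.map s1 (Ub ψ) := fun ψ => by
    refine Wr.ext rfl (funext fun t => ?_)
    fin_cases t
    · exact (map_one s1).symm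
    · exact hu ψ
    · change fb (e ψ) (wl _ 5 10) * uu (e ψ) * (wl _ 5 10)⁻¹ = s1 ((Ub ψ).l 2)
      rw [he, hu, emb_wl (hf ψ) (by omega) le_rfl]
      group
  refine ⟨s1, MonoidHom.mk' e fun ψ ψ' => (hK 5).2.2.1 _ _ ?_ ?_, fun ψ => ?_,
    fun G _ m i r ρ k s ι h => ⟨h.1, fun x => ?_, fun ψ => ?_⟩⟩
  · rw [((gamSt 5).2.1 _ _).1, he, he, he]
    exact emb_uniq hs (hf _) (emb_mul (hf ψ) (hf ψ'))
  · rw [((gamSt 5).2.1 _ _).2, hu, hu, hu, he, ((gamSt 3).2.1 _ _).2, map_mul, (hf ψ).1]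
  · rintro _ ⟨j, h1, h2, rfl⟩
    change (e ψ).1 _ = _
    rw [map_mul, map_mul, map_inv, (hK 5).1, (hK 5).2.1, he, hu, map_mul (f ψ), map_inv (f ψ),
      emb_wl (hf ψ) (by omega) le_rfl, emb_wl (hf ψ) h1 (by omega)]
    simp only [map_mul, map_inv]
    group
  · rw [emb_in, h.2.1, hs, Iot_map]
  · obtain ⟨b1, b2, b3, b4⟩ := h.2.2 (e ψ)
    refine ⟨fun x => ?_, b2, fun p hp => ?_, fun p hp => b4 p (by omega)⟩
    · exact (b1 _).trans (by rw [he, (hf ψ).1]; rfl)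
    · change Wr.map (ι (e ψ)).1.toMonoidHom _ = _
      rw [← Iot_map s s1, ← hU]
      rcases lt_or_ge p i with h1 | h1
      · exact b3 p h1
      · have w : io m p = inB 5 m i (io _ (p - i + 1)) := by
          rw [Iot_in 5 m i (by omega), Nat.add_sub_cancel' h1]
        rw [w, h.2.1, map_mul, map_mul, map_inv, b2, Iot_map,
          show (ι (e ψ)).1.toMonoidHom.comp s = s.comp (fb (e ψ)) from MonoidHom.ext b1,
          ← Iot_map, he, (hf ψ).2 _ (by omega), hU, map_mul, map_mul, map_inv]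
        group

end Pool.Agent.MK
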