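import Pool.Agent.Lib.MP_c86c76_al.Tk.St
import Pool.Agent.Lib.MP_c86c76_al.Tg.Ed
import Pool.Agent.Lib.MP_c86c76_al.Tg.Wl
import Pool.Agent.Lib.MP_c86c76_al.Tg.Un
import Pool.Agent.Lib.MP_c86c76_al.Lo.Bas

/-!
The cusps of a window have tame lifts.
-/

set_option autoImplicit false

namespace Pool.Agent.MK

open Pool.Agent.MB Pool.Agent.MG Pool.Agent.MA Pool.Agent.MW
open FreeGroup hiding map_mul map_inv map_one

theorem gd_inv {m i j : ℕ} {β : MulAut (FN m)} {u u₁ : FN m} (h : Loc0 m i j β u)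
    (h₁ : Loc0 m i j β⁻¹ u₁) : Loc0 m i j β⁻¹ (β⁻¹ u)⁻¹ := by
  refine ⟨inv_mem (h₁.ea h.1), fun p hp => ?_, h₁.2.2⟩
  have := congrArg (β⁻¹ ·) (h.2.1 p hp)
  simp only [MulAut.inv_apply_self, map_mul, map_inv] at this
  rw [inv_inv, mul_assoc, eq_inv_mul_iff_mul_eq, ← mul_inv_eq_iff_eq_mul, ← this]

theorem gd_zpow {G : Type} [Group G] {u : G} (h : ML.Good u) (n : ℤ) : ML.Good (u ^ n) := by
  obtain ⟨k, rfl | rfl⟩ := n.eq_nat_or_neg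
  · exact zpow_natCast u k ▸ ML.bas_pow u k h
  · rw [zpow_neg, zpow_natCast]
    exact ML.bas_inv _ (ML.bas_pow u k h)

theorem gdSt (hZ : ZedSt) (hW : WiSt) (hK : KerSt) (hR : RsSt) (hG : GoodSt) (hM : MgSt) :
    GdSt := by
  intro G _ m i r ρ k s ι hX hi hm hS hI u hu γ hγ
  obtain ⟨u1, ⟨w, w1, w2⟩, u2⟩ := (hZ m).2.2.2.2.1 i _ u (by omega) hm hu
  choose! c g hc using ((xSt edSt G m r ρ hX).1 γ).1
  have e : ∀ x, pp ρ (γ.1 ((u ^ 6).1 x)) = pp ρ (γ.1 x) := DFunLike.congr_fun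
    (u2 ((pp ρ).comp γ.1.toMonoidHom) c fun j hj => congrArg Wr.p (hc j hj))
  obtain ⟨⟨v, v1⟩, v', v2⟩ := id hγ
  have mem := mul_mem (mul_mem hγ (pow_mem u1 6)) (inv_mem hγ)
  obtain ⟨ψ, b, h1, h2, h3⟩ := hW G 3 m i r ρ k s ι hX hi hm hS hI _ _ mem
    ((v1.mul w1).mul (gd_inv v1 v2)) (by
      rw [map_mul, map_mul, MulAut.mul_apply, e, map_inv, MulAut.apply_inv_self, map_inv,
        show pp ρ (γ.1 w) = 1 from w2 ((pp ρ).comp γ.1.toMonoidHom), one_mul, inv_mul_cancel])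
    (MonoidHom.ext fun x => (e (γ.1⁻¹ x)).trans (congrArg _ (MulAut.apply_inv_self _ _ _)))
  obtain ⟨inj, R, hR⟩ := hR 3 m i hi hm
  obtain ⟨ψ₀, g0, l0⟩ := hM _ ((hR ⟨u, u1⟩).2.2 hu) _ (hR ⟨γ, hγ⟩).2.1
  rw [← map_pow, ← map_inv, ← map_mul, ← map_mul] at l0
  obtain ⟨A, a1, a2, a3⟩ := (hK 3).2.2.2
  obtain ⟨n, rfl⟩ := a3 ψ₀ ψ (((modSt edSt wlSt 3).2.2 _).2 _ _ fun x => by
    rw [← h3, ← l0]
    exact congrArg _ (inj (((hR ⟨_, mem⟩).1 x).symm.trans (h2 x))))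
  exact ⟨_, ML.bas_mul _ _ ((a2 ψ₀).symm.zpow_right n) g0
    (gd_zpow (hG.1 A ⟨3, .inl ⟨le_rfl, .inl a1⟩⟩) n), h1⟩

end Pool.Agent.MK
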