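import Pool.Agent.Lib.MP_c86c76_al.Tk.St
import Pool.Agent.Lib.MP_c86c76_al.Lo.Bas
import Pool.Agent.Lib.MP_c86c76_al.Tg.Ind

/-!
Soft facts on cusp norms, and the induced action with cusp norms.
-/

set_option autoImplicit false

namespace Pool.Agent.MK

open Pool.Agent.MB Pool.Agent.MG Pool.Agent.MA Pool.Agent.MW

section Act

variable {G : Type} [Group G] {H : Type} [NormedAddCommGroup H] [InnerProductSpace ℂ H]

theorem kp_mul (α : G →* (H ≃ᵃⁱ[ℂ] H)) (u v : G) (y : H) (K K' : ℝ) (huv : Commute u v)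
    (hu : ML.Kap (α u) y K) (hv : ML.Kap (α v) y K') :
    ML.Kap (α (u * v)) y (2 * K + 2 * K') := by
  refine (ML.bas_kap α _ y _).2 fun n0 => ?_
  have h1 := (ML.bas_kap α _ y _).1 hu n0
  have h2 := (ML.bas_kap α _ y _).1 hv n0
  have h3 : ∀ n ∈ Finset.range n0, ‖α ((u * v) ^ (n + 1)) y - y‖ ^ 2 / ((n : ℝ) + 1) ^ 2 ≤
      2 * (‖α (u ^ (n + 1)) y - y‖ ^ 2 / ((n : ℝ) + 1) ^ 2) +
      2 * (‖α (v ^ (n + 1)) y - y‖ ^ 2 / ((n : ℝ) + 1) ^ 2) := by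
    intro n _
    rw [huv.mul_pow, ← mul_div_assoc, ← mul_div_assoc, ← add_div]
    exact div_le_div_of_nonneg_right (ML.bas_sq (norm_nonneg _) (MT.disp_mul α y _ _))
      (sq_nonneg _)
  refine (Finset.sum_le_sum h3).trans ?_
  rw [Finset.sum_add_distrib, ← Finset.mul_sum, ← Finset.mul_sum]
  linarith

theorem kp_inv (α : G →* (H ≃ᵃⁱ[ℂ] H)) (u : G) (y : H) (K : ℝ) (h : ML.Kap (α u) y K) :
    ML.Kap (α u⁻¹) y K := by
  refine (ML.bas_kap α _ y _).2 fun n0 => ?_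
  refine le_of_eq_of_le (Finset.sum_congr rfl fun n _ => ?_) ((ML.bas_kap α _ y _).1 h n0)
  rw [inv_pow, MT.disp_inv]

theorem kp_conj (α : G →* (H ≃ᵃⁱ[ℂ] H)) (u g : G) (y : H) (K : ℝ) (h : ML.Kap (α u) y K) :
    ML.Kap (α (g * u * g⁻¹)) (α g y) K := by
  refine (ML.bas_kap α _ _ _).2 fun n0 => ?_
  refine le_of_eq_of_le (Finset.sum_congr rfl fun n _ => ?_) ((ML.bas_kap α _ y _).1 h n0)
  rw [conj_pow, MT.act_mul, MT.act_mul, MT.act_inv, MT.act_norm]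

theorem kp_root (α : G →* (H ≃ᵃⁱ[ℂ] H)) (u : G) (k : ℕ) (hk : 0 < k) (y : H) (K e : ℝ)
    (h : ML.Kap (α (u ^ k)) y K) (hu : ‖α u y - y‖ ≤ e) :
    ML.Kap (α u) y ((2 * k + 4 * k ^ 2) * (K + e ^ 2)) := by
  refine (ML.bas_kap α _ y _).2 fun n0 => ?_
  have hK : 0 ≤ K := by simpa using h 0
  have h1 := (ML.bas_kap α _ y _).1 h n0
  obtain ⟨a, ha⟩ : ∃ a : ℕ → ℝ, ∀ q, a q = ‖α ((u ^ k) ^ q) y - y‖ ^ 2 / (q : ℝ) ^ 2 :=
    ⟨_, fun _ => rfl⟩
  have ha0 : ∀ q, 0 ≤ a q := fun q => by rw [ha]; positivity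
  have h2 := ML.bas_block_le a ha0 hk n0
  have h3 : ∑ q ∈ Finset.range n0, a (q + 1) + a 0 ≤ K := by
    have e0 : a 0 = 0 := by rw [ha]; simp
    rw [e0, add_zero]
    refine le_of_eq_of_le (Finset.sum_congr rfl fun n _ => ?_) h1
    rw [ha, Nat.cast_succ]
  have h4 : ∀ n ∈ Finset.range n0, ‖α (u ^ (n + 1)) y - y‖ ^ 2 / ((n : ℝ) + 1) ^ 2 ≤
      2 * a ((n + 1) / k) + 2 * (k * e) ^ 2 * (1 / ((n : ℝ) + 1) ^ 2) := by
    intro n _
    have e1 : u ^ (n + 1) = (u ^ k) ^ ((n + 1) / k) * u ^ ((n + 1) % k) := by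
      rw [← pow_mul, ← pow_add, Nat.div_add_mod]
    have e2 : ‖α (u ^ ((n + 1) % k)) y - y‖ ≤ k * e :=
      (ML.bas_disp_pow α u y _).trans (mul_le_mul (Nat.cast_le.2 (Nat.mod_lt _ hk).le) hu
        (norm_nonneg _) (Nat.cast_nonneg _))
    have e3 : ‖α (u ^ (n + 1)) y - y‖ ≤ ‖α ((u ^ k) ^ ((n + 1) / k)) y - y‖ + k * e := by
      rw [e1]
      exact (MT.disp_mul α y _ _).trans (add_le_add le_rfl e2)
    have e4 : ‖α ((u ^ k) ^ ((n + 1) / k)) y - y‖ ^ 2 / ((n : ℝ) + 1) ^ 2 ≤ a ((n + 1) / k) := by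
      rcases Nat.eq_zero_or_pos ((n + 1) / k) with h0 | h0
      · rw [h0, pow_zero, MT.act_one, sub_self, norm_zero]
        simpa using ha0 0
      · rw [ha]
        have e5 : (((n + 1) / k : ℕ) : ℝ) ≤ (n : ℝ) + 1 := by
          exact_mod_cast Nat.div_le_self (n + 1) k
        have e6 : (0 : ℝ) < (((n + 1) / k : ℕ) : ℝ) := Nat.cast_pos.2 h0
        exact div_le_div_of_nonneg_left (sq_nonneg _) (by positivity)
          (pow_le_pow_left₀ e6.le e5 2)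
    refine (div_le_div_of_nonneg_right (ML.bas_sq (norm_nonneg _) e3) (sq_nonneg _)).trans ?_
    rw [add_div, mul_div_assoc, mul_one_div]
    linarith
  refine (Finset.sum_le_sum h4).trans ?_
  rw [Finset.sum_add_distrib, ← Finset.mul_sum, ← Finset.mul_sum]
  have hk0 : (0 : ℝ) ≤ k := Nat.cast_nonneg k
  have h5 := mul_le_mul_of_nonneg_left (ML.bas_zeta n0)
    (show 0 ≤ 2 * ((k : ℝ) * e) ^ 2 by positivity)
  have h6 := mul_le_mul_of_nonneg_left h3 hk0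
  have h7 : 0 ≤ (k : ℝ) ^ 2 * K := by positivity
  have h8 : 0 ≤ (k : ℝ) * e ^ 2 := by positivity
  nlinarith

theorem kp_mid (R : H ≃ᵃⁱ[ℂ] H) (x y : H) :
    R ((2 : ℂ)⁻¹ • (x + y)) = (2 : ℂ)⁻¹ • (R x + R y) := by
  have h : ∀ z, R z = R.linearIsometryEquiv z + R 0 := fun z => by
    simpa using R.map_vadd 0 z
  rw [h, h x, h y, map_smul, map_add]
  module

theorem kp_half (a b : H) : ‖(2 : ℂ)⁻¹ • (a + b)‖ ≤ (‖a‖ + ‖b‖) / 2 := by
  rw [norm_smul, norm_inv, Complex.norm_ofNat]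
  linarith [norm_add_le a b]

theorem kp_norm (g : H ≃ᵃⁱ[ℂ] H) (x y : H) : ‖g x - g y‖ = ‖x - y‖ := by
  simpa only [dist_eq_norm] using g.dist_map x y

theorem kp_comm (T R : H ≃ᵃⁱ[ℂ] H) (y : H) (h : Commute T R) :
    ‖R ((2 : ℂ)⁻¹ • (y + T y)) - (2 : ℂ)⁻¹ • (y + T y)‖ ≤ ‖R y - y‖ := by
  have e1 : R (T y) = T (R y) := by
    have := congrArg (fun S : H ≃ᵃⁱ[ℂ] H => S y) h.eq
    exact this.symm
  have e2 : R ((2 : ℂ)⁻¹ • (y + T y)) - (2 : ℂ)⁻¹ • (y + T y) =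
      (2 : ℂ)⁻¹ • ((R y - y) + (T (R y) - T y)) := by
    rw [kp_mid, e1]
    module
  rw [e2]
  refine (kp_half _ _).trans ?_
  rw [kp_norm]
  linarith

end Act

theorem kpSt : KpSt := by
  intro H _ _
  refine ⟨fun T R y K K' h hT hR => kp_mul (MonoidHom.id _) T R y K K' h hT hR,
    fun T y K h => ⟨by simpa using h 0, kp_inv (MonoidHom.id _) T y K h,
      fun K' hK n0 => (h n0).trans hK, fun g => kp_conj (MonoidHom.id _) T g y K h⟩,
    fun l hl => ⟨2 * l + 4 * l ^ 2, by positivity,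
      fun T y K e h he => kp_root (MonoidHom.id _) T l hl y K e h he⟩,
    fun T y => ⟨(2 : ℂ)⁻¹ • (y + T y), ?_, fun R hR => ⟨kp_comm T R y hR, fun K hK n0 => ?_⟩⟩,
    ?_⟩
  · have e : T ((2 : ℂ)⁻¹ • (y + T y)) - (2 : ℂ)⁻¹ • (y + T y) =
        (2 : ℂ)⁻¹ • ((T (T y) - y) + 0) := by
      rw [kp_mid]
      module
    rw [e]
    refine (kp_half _ _).trans ?_
    rw [norm_zero]
    linarith [norm_nonneg (T (T y) - y)]
  · refine (Finset.sum_le_sum fun n _ => ?_).trans (hK n0)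
    exact div_le_div_of_nonneg_right
      (pow_le_pow_left₀ (norm_nonneg _) (kp_comm T _ y (hR.pow_right _)) 2) (sq_nonneg _)
  · intro K K' _ _ e α h S U hU ε hε
    classical
    obtain ⟨y, h1, h2⟩ := h (S.image e) (U.image e) (fun u hu => by
      obtain ⟨u', hu', rfl⟩ := Finset.mem_image.1 hu
      exact ML.bas_map e u' (hU u' hu')) ε hε
    exact ⟨y, fun s hs => h1 _ (Finset.mem_image_of_mem _ hs),
      fun u hu => h2 _ (Finset.mem_image_of_mem _ hu)⟩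

theorem inSt (hK : KpSt) : InSt := by
  intro B G T _ _ _ act Φ h1 hm hΦ H _ _ _ α
  classical
  have := Fintype.ofFinite T
  have hinv : ∀ t β, act (act t β) β⁻¹ = t := fun t β => by rw [← hm, mul_inv_cancel, h1]
  have hinv' : ∀ t β, act (act t β⁻¹) β = t := fun t β => by rw [← hm, inv_mul_cancel, h1]
  have hΦ1 : ∀ t, Φ t 1 = 1 := fun t => by
    have h := hΦ t 1 1
    rw [mul_one, h1] at h
    exact left_eq_mul.1 h
  have hΦi : ∀ t β, Φ (act t β) β⁻¹ = (Φ t β)⁻¹ := fun t β => by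
    have h := hΦ t β β⁻¹
    rw [mul_inv_cancel, hΦ1] at h
    exact (inv_eq_of_mul_eq_one_right h.symm).symm
  have hpow : ∀ t β, act t β = t → ∀ n : ℕ, act t (β ^ n) = t ∧ Φ t (β ^ n) = Φ t β ^ n := by
    intro t β h n
    induction n with
    | zero => rw [pow_zero, pow_zero]; exact ⟨h1 t, hΦ1 t⟩
    | succ n ih => rw [pow_succ, pow_succ, hm, hΦ, ih.1, ih.2]; exact ⟨h, rfl⟩
  let σ : B → T ≃ T := fun β =>
    ⟨fun t => act t β, fun t => act t β⁻¹, fun t => hinv t β, fun t => hinv' t β⟩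
  let a : B →* (PiLp 2 (fun _ : T => H) ≃ᵃⁱ[ℂ] PiLp 2 (fun _ : T => H)) :=
    MonoidHom.mk' (fun β => ind_eq (σ β) fun t => α (Φ t β)) (by
      intro β γ
      ext v t
      change α (Φ t (β * γ)) (v (act t (β * γ))) =
        α (Φ t β) (α (Φ (act t β) γ) (v (act (act t β) γ)))
      rw [hΦ, hm, map_mul]
      rfl)
  have ha : ∀ β v t, a β v t = α (Φ t β) (v (act t β)) := fun _ _ _ => rfl
  refine ⟨PiLp 2 (fun _ : T => H), inferInstance, inferInstance, inferInstance, a,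
    fun t v => v t, fun Λ V l hl hV hl' hS ε hε => ?_, fun t β v h => ?_⟩
  swap
  · have h2 := PiLp.norm_apply_le (a β v - v) t
    rwa [PiLp.sub_apply, ha, h] at h2
  let s : Setoid T := ⟨fun t t' => ∃ β ∈ Λ, act t β = t', fun t => ⟨1, one_mem _, h1 t⟩,
    by
      rintro t _ ⟨β, hβ, rfl⟩
      exact ⟨β⁻¹, inv_mem hβ, hinv t β⟩,
    by
      rintro t _ _ ⟨β, hβ, rfl⟩ ⟨γ, hγ, rfl⟩
      exact ⟨β * γ, mul_mem hβ hγ, hm t β γ⟩⟩
  obtain ⟨r, hr, hr'⟩ : ∃ r : T → T, (∀ t, ∃ β ∈ Λ, act (r t) β = t) ∧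
      ∀ t, ∀ β ∈ Λ, r (act t β) = r t :=
    ⟨fun t => (Quotient.mk s t).out, fun t => Quotient.mk_out (s := s) t,
      fun t β hβ => congrArg Quotient.out (Quotient.sound (s := s) ⟨β, hβ, rfl⟩).symm⟩
  choose b hb hb' using hr
  have hfix : ∀ t, ∀ β ∈ Λ, act (r t) (b t * β * (b (act t β))⁻¹) = r t := by
    intro t β hβ
    have e1 := hb' (act t β)
    rw [hr' t β hβ] at e1
    have e2 : act (r t) (b t * β) = act (r t) (b (act t β)) := by rw [hm, hb', e1]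
    rw [hm, e2, hinv]
  obtain ⟨C, hC0, hC⟩ := (hK (PiLp 2 (fun _ : T => H))).2.2.1 l hl
  obtain ⟨N, hN⟩ : ∃ N : ℝ, N = Fintype.card T := ⟨_, rfl⟩
  have hN0 : 0 ≤ N := by rw [hN]; positivity
  have hNN : N ≤ N ^ 2 := by
    rw [hN]
    exact_mod_cast Nat.le_self_pow two_ne_zero _
  obtain ⟨η, hη0, hη1, hη2⟩ : ∃ η : ℝ, 0 < η ∧ η ≤ 1 ∧ (2 * C + 1) * η ≤ ε := by
    refine ⟨min 1 (ε / (2 * C + 1)), lt_min one_pos (by positivity), min_le_left _ _, ?_⟩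
    rw [← le_div_iff₀' (by positivity)]
    exact min_le_right _ _
  obtain ⟨δ, hδ0, hδ⟩ : ∃ δ : ℝ, 0 < δ ∧ N * δ ≤ η := by
    refine ⟨η / (N + 1), by positivity, ?_⟩
    rw [← mul_div_assoc, div_le_iff₀ (by positivity)]
    nlinarith
  have hy : ∀ t0 : T, ∃ y : H,
      (∀ t, r t = t0 → ∀ v ∈ V, ‖α (Φ t0 (b t * v * (b (act t v))⁻¹)) y - y‖ ≤ δ) ∧
      ∀ t, ∀ v ∈ V, ML.Kap (α (Φ t0 (b t * v ^ l * (b t)⁻¹))) y δ := by
    intro t0
    obtain ⟨y, hy1, hy2⟩ := hS t0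
      (((Finset.univ.filter fun t => r t = t0) ×ˢ V).image
        fun q => Φ t0 (b q.1 * q.2 * (b (act q.1 q.2))⁻¹))
      ((Finset.univ ×ˢ V).image fun q => Φ t0 (b q.1 * q.2 ^ l * (b q.1)⁻¹))
      (fun φ hφ => by
        obtain ⟨⟨t, v⟩, hq, rfl⟩ := Finset.mem_image.1 hφ
        obtain ⟨ht, hv⟩ := Finset.mem_product.1 hq
        have ht' : r t = t0 := (Finset.mem_filter.1 ht).2
        refine ⟨_, mul_mem (mul_mem (hb t) (hV v hv)) (inv_mem (hb _)), ?_, rfl⟩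
        rw [← ht']
        exact hfix t v (hV v hv))
      (fun φ hφ => by
        obtain ⟨⟨t, v⟩, hq, rfl⟩ := Finset.mem_image.1 hφ
        exact ⟨b t, hb t, v, (Finset.mem_product.1 hq).2, rfl⟩) δ hδ0
    refine ⟨y, fun t ht v hv => hy1 _ (Finset.mem_image.2 ⟨(t, v), ?_, rfl⟩),
      fun t v hv => hy2 _ (Finset.mem_image.2 ⟨(t, v), ?_, rfl⟩)⟩
    · exact Finset.mem_product.2 ⟨Finset.mem_filter.2 ⟨Finset.mem_univ _, ht⟩, hv⟩
    · exact Finset.mem_product.2 ⟨Finset.mem_univ _, hv⟩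
  choose y hy1 hy2 using hy
  obtain ⟨w, hw⟩ : ∃ w : PiLp 2 (fun _ : T => H),
      ∀ t, w t = α (Φ (r t) (b t))⁻¹ (y (r t)) :=
    ⟨WithLp.toLp 2 fun t => α (Φ (r t) (b t))⁻¹ (y (r t)), fun _ => rfl⟩
  have key : ∀ β ∈ Λ, ‖a β w - w‖ ^ 2 =
      ∑ t, ‖α (Φ (r t) (b t * β * (b (act t β))⁻¹)) (y (r t)) - y (r t)‖ ^ 2 := by
    intro β hβ
    rw [PiLp.norm_sq_eq_of_L2]
    refine Finset.sum_congr rfl fun t _ => ?_
    rw [PiLp.sub_apply, ha, hw, hw, hr' t β hβ]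
    have e1 := hb' (act t β)
    rw [hr' t β hβ] at e1
    have e2 : act (r t) (b t * β) = act (r t) (b (act t β)) := by rw [hm, hb', e1]
    have e3 : Φ (r t) (b t * β * (b (act t β))⁻¹) =
        Φ (r t) (b t) * Φ t β * (Φ (r t) (b (act t β)))⁻¹ := by
      rw [hΦ, e2, hΦi, hΦ, hb']
    rw [e3, MT.act_mul, MT.act_mul, ← MT.act_norm α (Φ (r t) (b t)), MT.act_inv']
  have hd : ∀ v ∈ V, ‖a v w - w‖ ≤ η := by
    intro v hv
    have h2 : ‖a v w - w‖ ^ 2 ≤ (N * δ) ^ 2 := by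
      rw [key v (hV v hv)]
      refine (Finset.sum_le_card_nsmul _ _ (δ ^ 2) fun t _ =>
        pow_le_pow_left₀ (norm_nonneg _) (hy1 (r t) t rfl v hv) 2).trans ?_
      rw [nsmul_eq_mul, Finset.card_univ, ← hN, mul_pow]
      exact mul_le_mul_of_nonneg_right hNN (sq_nonneg _)
    exact (pow_le_pow_iff_left₀ (norm_nonneg _) (by positivity) two_ne_zero).1 h2 |>.trans hδ
  have hk : ∀ v ∈ V, ML.Kap (a v ^ l) w η := by
    intro v hv
    rw [← map_pow]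
    refine (ML.bas_kap a _ w _).2 fun n0 => ?_
    have h2 : ∀ n ∈ Finset.range n0, ‖a ((v ^ l) ^ (n + 1)) w - w‖ ^ 2 / ((n : ℝ) + 1) ^ 2 =
        ∑ t, ‖α (Φ (r t) (b t * v ^ l * (b t)⁻¹) ^ (n + 1)) (y (r t)) - y (r t)‖ ^ 2 /
          ((n : ℝ) + 1) ^ 2 := by
      intro n _
      rw [key _ (pow_mem (pow_mem (hV v hv) l) _), Finset.sum_div]
      refine Finset.sum_congr rfl fun t _ => ?_
      have e1 := hfix t (v ^ l) (pow_mem (hV v hv) l)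
      rw [hl' v hv t] at e1
      rw [(hpow t _ (hl' v hv t) _).1, ← conj_pow, (hpow _ _ e1 _).2]
    rw [Finset.sum_congr rfl h2, Finset.sum_comm]
    refine (Finset.sum_le_card_nsmul _ _ δ fun t _ =>
      (ML.bas_kap α _ _ _).1 (hy2 (r t) t v hv) n0).trans ?_
    rw [nsmul_eq_mul, Finset.card_univ, ← hN]
    exact hδ
  refine ⟨w, fun v hv => (hd v hv).trans (by nlinarith), fun v hv n0 => ?_⟩
  refine (hC (a v) w η η (hk v hv) (hd v hv) n0).trans ?_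
  have h3 : C * η ^ 2 ≤ C * η := mul_le_mul_of_nonneg_left (by nlinarith) hC0
  nlinarith

end Pool.Agent.MK
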