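import Pool.Agent.Lib.MP_c86c76_al.Tk.St
import Pool.Agent.Lib.MP_c86c76_al.Tg.Lcb

/-!
The three loops of a pair of pants as products of twists; two blocks of points change places.
-/

set_option autoImplicit false

namespace Pool.Agent.MK

open Pool.Agent.MB Pool.Agent.MG Pool.Agent.MA Pool.Agent.MW
open FreeGroup hiding map_mul map_inv map_one

theorem lc_of {m : ℕ} (j : Fin m) : of j = io m j := (dif_pos j.2 : io m j = of j).symm

theorem lc_ext {m : ℕ} {β γ : BL m} (h : ∀ p, p < m → β.1 (io m p) = γ.1 (io m p)) : β = γ :=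
  Subtype.ext (MulEquiv.toMonoidHom_injective (FreeGroup.ext_hom _ _ fun j => by
    rw [lc_of]
    exact h j j.2))

theorem lc_ext' {N : ℕ} {β γ : BL (N + 1)}
    (h : ∀ p, p < N → β.1 (io _ p) = γ.1 (io _ p)) : β = γ := by
  refine lc_ext fun p hp => ?_
  rcases (Nat.le_of_lt_succ hp).lt_or_eq with a | a
  · exact h p a
  · have h1 : β.1 (bl _ 0 (N + 1)) = γ.1 (bl _ 0 (N + 1)) := β.2.1.trans γ.2.1.symm
    have h2 := bl_conj (i := N) β.1.toMonoidHom γ.1.toMonoidHom 1 fun q hq => by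
      simpa using h q hq
    rw [bl_succ _ N.zero_le, map_mul, map_mul] at h1
    simp only [one_mul, inv_one, mul_one, MulEquiv.coe_toMonoidHom] at h2
    rw [h2] at h1
    rw [a]
    exact mul_left_cancel h1

theorem lc_bl0 {m : ℕ} (f : MulAut (FN m)) (u : FN m) {k l : ℕ} (hkl : k ≤ l)
    (h : ∀ p, k ≤ p → p < l → f (io m p) = u * io m p * u⁻¹) :
    f (bl m k l) = u * bl m k l * u⁻¹ :=
  lcb_bl f u 0 0 hkl h

theorem lc_fix {m : ℕ} (f : MulAut (FN m)) {k l : ℕ} (hkl : k ≤ l)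
    (h : ∀ p, k ≤ p → p < l → f (io m p) = io m p) : f (bl m k l) = bl m k l := by
  simpa using lc_bl0 f 1 hkl fun p a b => by simpa using h p a b

theorem lc_key {N k : ℕ} (hk : k ≤ N) : ∃ η : BL (N + 1), ∀ u,
    u = bl (N + 1) 0 k * io _ k * (bl _ 0 k)⁻¹ → ∀ l, k ≤ l → l ≤ N → ∀ E : BL (N + 1),
      E = η⁻¹ * ((MM N 0)⁻¹ * MM N l) * η →
      (∀ p, p ≤ l → p ≠ k → E.1 (io _ p) = u * io _ p * u⁻¹) ∧
      E.1 (io _ k) = u * bl _ (k + 1) (l + 1) * u * (u * bl _ (k + 1) (l + 1))⁻¹ ∧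
      ∀ p, l < p → E.1 (io _ p) = io _ p := by
  obtain ⟨η, f1, f2, f3⟩ := lcb_eta hk
  obtain ⟨w, hw⟩ : ∃ w, w = bl (N + 1) 0 N * io _ N * (bl _ 0 N)⁻¹ := ⟨_, rfl⟩
  refine ⟨η, fun u hu l h1 h2 E hE => ?_⟩
  have eu : η.1 u = w := by
    have := lc_fix η.1 k.zero_le fun p _ b => f1 p b
    rw [hu, map_mul, map_mul, map_inv, this, f2, hw, lcb_split _ k.zero_le hk]
    group
  have ew : (MM N 0).1 w = io _ N := hw ▸ lcb_M N.zero_le
  have a : ∀ x y, (MM N l).1 (η.1 x) = (MM N 0).1 (η.1 y) → E.1 x = y := fun x y h => by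
    simp only [hE, Subgroup.coe_mul, Subgroup.coe_inv, MulAut.mul_apply, h,
      MulAut.inv_apply_self]
  have b : ∀ p, p < l → (MM N l).1 (io _ p) = (MM N 0).1 (w * io _ p * w⁻¹) := fun p h => by
    rw [map_mul, map_mul, map_inv, ew, (MM_isM h2).1 p h,
      (MM_isM N.zero_le).2.1 p p.zero_le (by omega)]
    group
  refine ⟨fun p c d => a _ _ ?_, a _ _ ?_, fun p c => ?_⟩
  · rw [map_mul η.1, map_mul η.1, map_inv, eu]
    rcases d.lt_or_gt with d | d
    · rw [f1 p d, b p (by omega)]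
    · obtain ⟨q, rfl⟩ : ∃ q, p = q + 1 := ⟨p - 1, by omega⟩
      rw [f3 q (by omega) (by omega), b q c]
  · have c1 := lcb_bl η.1 1 1 0 h1 fun p c d => by simpa using f3 p c (by omega)
    have c2 := lcb_bl (MM N l).1 1 0 0 h1 fun p _ d => by simpa using (MM_isM h2).1 p d
    have c3 := lcb_bl (MM N 0).1 (io _ N)⁻¹ 0 0 h1 fun p _ d => by
      simpa using (MM_isM N.zero_le).2.1 p p.zero_le (by omega)
    simp only [add_zero, one_mul, inv_one, mul_one] at c1 c2 c3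
    rw [f2, lcb_split _ h1 h2, show bl _ k l * bl _ l N * io _ N * (bl _ k l * bl _ l N)⁻¹ =
      bl _ k l * (bl _ l N * io (N + 1) N * (bl _ l N)⁻¹) * (bl _ k l)⁻¹ by group, map_mul,
      map_mul, lcb_M h2]
    simp only [map_mul, map_inv, eu, ew, c1, c2, c3]
    group
  · rcases lt_or_ge N p with d | d
    · rw [io, dif_neg (by omega), map_one]
    · obtain ⟨q, rfl⟩ : ∃ q, p = q + 1 := ⟨p - 1, by omega⟩
      refine a _ _ ?_
      rw [f3 q (by omega) d, (MM_isM h2).2.1 q (by omega) d,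
        (MM_isM N.zero_le).2.1 q q.zero_le d]

theorem lcSt : LcSt := by
  intro N k hk
  obtain ⟨η, key⟩ := lc_key hk.le
  refine ⟨η, fun Z0 Z1 Z2 s h0 h1 h2 hs => ?_⟩
  obtain ⟨X, hX⟩ : ∃ X, X = bl (N + 1) 0 k := ⟨_, rfl⟩
  obtain ⟨x, hx⟩ : ∃ x, x = io (N + 1) k := ⟨_, rfl⟩
  obtain ⟨y, hy⟩ : ∃ y, y = io (N + 1) (k + 1) := ⟨_, rfl⟩
  obtain ⟨E, hE⟩ : ∃ E, E = η⁻¹ * ((MM N 0)⁻¹ * MM N k) * η := ⟨_, rfl⟩
  obtain ⟨F, hF⟩ : ∃ F, F = η⁻¹ * ((MM N 0)⁻¹ * MM N (k + 1)) * η := ⟨_, rfl⟩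
  obtain ⟨e1, e2, e3⟩ := key (X * x * X⁻¹) (by rw [hX, hx]) k le_rfl hk.le E hE
  obtain ⟨g1, g2, g3⟩ := key (X * x * X⁻¹) (by rw [hX, hx]) (k + 1) k.le_succ hk F hF
  have b1 : bl (N + 1) 0 (k + 1) = X * x := by rw [bl_succ _ k.zero_le, hX, hx]
  have b2 : bl (N + 1) 0 (k + 2) = X * x * y := by rw [bl_succ _ (k + 1).zero_le, b1, hy]
  have b3 : bl (N + 1) (k + 1) (k + 1 + 1) = y := by rw [bl_succ _ le_rfl, bl_self, one_mul, hy]
  rw [bl_self, ← hx] at e2
  rw [b3, ← hx] at g2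
  have eX : E.1 X = X * x * X⁻¹ * X * (X * x * X⁻¹)⁻¹ := by
    conv_lhs => rw [hX]
    rw [lc_bl0 E.1 _ k.zero_le fun p _ b => e1 p b.le b.ne, ← hX]
  have gX : F.1 X = X * x * X⁻¹ * X * (X * x * X⁻¹)⁻¹ := by
    conv_lhs => rw [hX]
    rw [lc_bl0 F.1 _ k.zero_le fun p _ b => g1 p (by omega) b.ne, ← hX]
  have ey : E.1 y = y := hy ▸ e3 _ k.lt_succ_self
  have gy : F.1 y = X * x * X⁻¹ * y * (X * x * X⁻¹)⁻¹ := hy ▸ g1 _ le_rfl k.succ_ne_self
  have sx : s.1 x = x * y * x⁻¹ := by rw [hx, hy]; exact hs.1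
  have sy : s.1 y = x := by rw [hx, hy]; exact hs.2.1
  have sX : s.1 X = X := by
    rw [hX]
    exact lc_fix s.1 k.zero_le fun p _ b => hs.2.2 p b.ne (by omega)
  have cs : ∀ p, p < k ∨ p = k ∨ p = k + 1 ∨ k + 1 < p := fun p => by omega
  have A1 : E * Z0 = Z1 := lc_ext fun p _ => by
    rw [Subgroup.coe_mul, MulAut.mul_apply]
    rcases lt_trichotomy p k with a | a | a
    · rw [h0.1 p a, h1.1 p (by omega), b1, ← hX, map_mul, map_mul, map_inv, eX, e1 p a.le a.ne]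
      group
    · rw [h0.2 p a.ge, h1.1 p (by omega), b1, a, ← hx, e2]
      group
    · rw [h0.2 p a.le, h1.2 p a, e3 p a]
  have w0 : ∀ a b, Z1.1 (s.1 a) = s.1 b → (s⁻¹ * Z1 * s).1 a = b := fun a b h => by
    simp only [Subgroup.coe_mul, Subgroup.coe_inv, MulAut.mul_apply, h, MulAut.inv_apply_self]
  have zx : Z1.1 x = X * x * X⁻¹ := by
    conv_lhs => rw [hx]
    rw [h1.1 k k.lt_succ_self, b1, ← hx]
    group
  have zy : Z1.1 y = y := hy ▸ h1.2 _ le_rfl
  have A2 : F * (s⁻¹ * Z1 * s) = Z2 := lc_ext fun p _ => by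
    rw [Subgroup.coe_mul, MulAut.mul_apply]
    rcases cs p with a | a | a | a
    · rw [w0 _ (X * y * io _ p * (X * y)⁻¹) (by
        simp only [map_mul, map_inv, sX, sy, hs.2.2 p a.ne (by omega), h1.1 p (by omega), b1]),
        h2.1 p (by omega), b2]
      simp only [map_mul, map_inv, gX, gy, g1 p (by omega) a.ne]
      group
    · rw [h2.1 p (by omega), b2, a, ← hx,
        w0 _ (X * y * X⁻¹ * (y⁻¹ * x * y) * (X * y * X⁻¹)⁻¹) (by
          simp only [map_mul, map_inv, sX, sy, sx, zx, zy]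
          group)]
      simp only [map_mul, map_inv, gX, gy, g2]
      group
    · rw [h2.1 p (by omega), b2, a, ← hy, w0 _ (X * y * X⁻¹) (by
          simp only [map_mul, map_inv, sX, sy, zx])]
      simp only [map_mul, map_inv, gX, gy]
      group
    · rw [w0 _ (io _ p) (by rw [hs.2.2 p (by omega) a.ne', h1.2 p a.le]), g3 p a, h2.2 p a]
  have A3 : E * s ^ 2 = F := lc_ext fun p _ => by
    rw [sq, Subgroup.coe_mul, Subgroup.coe_mul, MulAut.mul_apply, MulAut.mul_apply]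
    rcases cs p with a | a | a | a
    · rw [hs.2.2 p a.ne (by omega), hs.2.2 p a.ne (by omega), e1 p a.le a.ne,
        g1 p (by omega) a.ne]
    · rw [a, ← hx, g2]
      simp only [map_mul, map_inv, sx, sy, e2, ey]
      group
    · rw [a, ← hy, gy]
      simp only [map_mul, map_inv, sx, sy, e2, ey]
      group
    · rw [hs.2.2 p (by omega) a.ne', hs.2.2 p (by omega) a.ne', e3 p (by omega), g3 p a]
  refine ⟨?_, ?_, ?_⟩
  · rw [← hE, ← A1, mul_inv_cancel_right]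
  · rw [← hF, ← A2, mul_inv_cancel_right]
  · have : η⁻¹ * ((MM N (k + 1))⁻¹ * MM N k) * η = F⁻¹ * E := by
      rw [hE, hF]
      group
    rw [this, ← A3]
    group

theorem blk_one (m a b : ℕ) (hm : a + b ≤ m) : ∃ δ : BL m,
    (∀ p, p < b → δ.1 (io m p) = bl m 0 a * io m (a + p) * (bl m 0 a)⁻¹) ∧
    (∀ p, p < a → δ.1 (io m (b + p)) = io m p) ∧ ∀ p, a + b ≤ p → δ.1 (io m p) = io m p := by
  let f : FN m →* FN m := lift fun j => if (j : ℕ) < b then
    bl m 0 a * io m (a + j) * (bl m 0 a)⁻¹ else if (j : ℕ) < a + b then io m (j - b) else io m j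
  let g : FN m →* FN m := lift fun j => if (j : ℕ) < a then io m (b + j) else
    if (j : ℕ) < a + b then (bl m b (a + b))⁻¹ * io m (j - a) * bl m b (a + b) else io m j
  have e : ∀ (G : Fin m → FN m) p (h : p < m), lift G (io _ p) = G ⟨p, h⟩ :=
    fun G p h => by rw [io, dif_pos h, lift_apply_of]
  have f1 : ∀ p, p < b → f (io m p) = bl m 0 a * io m (a + p) * (bl m 0 a)⁻¹ := fun p h =>
    (e _ p (by omega)).trans (if_pos h)
  have f2 : ∀ p, p < a → f (io m (b + p)) = io m p := fun p h =>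
    (e _ _ (by omega)).trans ((if_neg (by simp)).trans ((if_pos (by simp; omega)).trans (by simp)))
  have f3 : ∀ p, a + b ≤ p → f (io m p) = io m p := fun p h => by
    by_cases hp : p < m
    · exact (e _ p hp).trans ((if_neg (by simp; omega)).trans (if_neg (by simp; omega)))
    · rw [io, dif_neg hp, map_one]
  have g1 : ∀ p, p < a → g (io m p) = io m (b + p) := fun p h =>
    (e _ p (by omega)).trans (if_pos h)
  have g2 : ∀ p, p < b → g (io m (a + p)) = (bl m b (a + b))⁻¹ * io m p * bl m b (a + b) :=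
    fun p h =>
    (e _ _ (by omega)).trans ((if_neg (by simp)).trans ((if_pos (by simp; omega)).trans (by simp)))
  have g3 : ∀ p, a + b ≤ p → g (io m p) = io m p := fun p h => by
    by_cases hp : p < m
    · exact (e _ p hp).trans ((if_neg (by simp; omega)).trans (if_neg (by simp; omega)))
    · rw [io, dif_neg hp, map_one]
  have f4 : f (bl m b (a + b)) = bl m 0 a := by
    simpa using lcb_bl f 1 b 0 a.zero_le fun p _ h => by simpa [add_comm p b] using f2 p h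
  have g4 : g (bl m 0 a) = bl m b (a + b) := by
    simpa using lcb_bl g 1 0 b a.zero_le fun p _ h => by simpa [add_comm p b] using g1 p h
  have f5 : f (bl m 0 b) = bl m 0 a * bl m a (a + b) * (bl m 0 a)⁻¹ := by
    simpa [add_comm b a] using lcb_bl f (bl m 0 a) 0 a b.zero_le fun p _ h => by
      simpa [add_comm p a] using f1 p h
  have f6 : f (bl m (a + b) m) = bl m (a + b) m := by
    simpa using lcb_bl f 1 0 0 hm fun p h _ => by simpa using f3 p h
  have c : ∀ p, p < b ∨ (∃ q, q < a ∧ p = b + q) ∨ a + b ≤ p := fun p => by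
    rcases lt_or_ge p b with h | h
    · exact .inl h
    rcases lt_or_ge p (a + b) with h' | h'
    exacts [.inr (.inl ⟨p - b, by omega, by omega⟩), .inr (.inr h')]
  have c' : ∀ p, p < a ∨ (∃ q, q < b ∧ p = a + q) ∨ a + b ≤ p := fun p => by
    rcases lt_or_ge p a with h | h
    · exact .inl h
    rcases lt_or_ge p (a + b) with h' | h'
    exacts [.inr (.inl ⟨p - a, by omega, by omega⟩), .inr (.inr h')]
  let π : Fin m → Fin m := fun j =>
    ⟨if (j : ℕ) < b then a + j else if (j : ℕ) < a + b then j - b else j, by split_ifs <;> omega⟩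
  refine ⟨⟨MonoidHom.toMulEquiv f g (FreeGroup.ext_hom _ _ fun j => ?_)
    (FreeGroup.ext_hom _ _ fun j => ?_), ?_, .ofBijective π (Finite.injective_iff_bijective.1
      fun i j h => Fin.ext ?_), fun j => ?_⟩, f1, f2, f3⟩
  · rw [lc_of, MonoidHom.comp_apply, MonoidHom.id_apply]
    rcases c j with h | ⟨q, h, d⟩ | h
    · rw [f1 _ h, map_mul, map_mul, map_inv, g4, g2 _ h]
      group
    · rw [d, f2 q h, g1 q h]
    · rw [f3 _ h, g3 _ h]
  · rw [lc_of, MonoidHom.comp_apply, MonoidHom.id_apply]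
    rcases c' j with h | ⟨q, h, d⟩ | h
    · rw [g1 _ h, f2 _ h]
    · rw [d, g2 q h, map_mul, map_mul, map_inv, f4, f1 q h]
      group
    · rw [g3 _ h, f3 _ h]
  · change f _ = _
    conv_lhs => rw [lcb_split m (a + b).zero_le hm, lcb_split m b.zero_le (Nat.le_add_left b a)]
    rw [map_mul, map_mul, f4, f5, f6, lcb_split m (a + b).zero_le hm,
      lcb_split m a.zero_le (Nat.le_add_right a b)]
    group
  · have := congrArg Fin.val h
    simp only [π] at this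
    split_ifs at this <;> omega
  · change IsConj (of (π j)) (f (of j))
    rw [lc_of, lc_of j]
    rcases c j with h | ⟨q, h, d⟩ | h
    · rw [f1 _ h, show (π j : ℕ) = a + j from if_pos h]
      exact isConj_iff.2 ⟨_, rfl⟩
    · rw [show (π j : ℕ) = j - b from (if_neg (by omega)).trans (if_pos (by omega)), d, f2 q h,
        Nat.add_sub_cancel_left]
    · rw [show (π j : ℕ) = j from (if_neg (by omega)).trans (if_neg (by omega)), f3 _ h]

theorem blk_T {N k l : ℕ} (hkl : k ≤ l) (hl : l ≤ N) (w : FN (N + 1))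
    (hw : w = bl _ l N * io _ N * (bl _ l N)⁻¹) :
    (∀ p, p < k → ((MM N l)⁻¹ * MM N k).1 (io _ p) = io _ p) ∧
    (∀ p, k ≤ p → p < l → ((MM N l)⁻¹ * MM N k).1 (io _ p) = w⁻¹ * io _ p * w) ∧
    ∀ p, l ≤ p → p < N → ((MM N l)⁻¹ * MM N k).1 (io _ p) = io _ p := by
  have a : ∀ x y, (MM N k).1 x = (MM N l).1 y → ((MM N l)⁻¹ * MM N k).1 x = y := fun x y h => by
    simp only [Subgroup.coe_mul, Subgroup.coe_inv, MulAut.mul_apply, h, MulAut.inv_apply_self]
  have hk := MM_isM (hkl.trans hl)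
  have hL := MM_isM hl
  have ew : (MM N l).1 w = io _ N := hw ▸ lcb_M hl
  refine ⟨fun p h => a _ _ ?_, fun p h h' => a _ _ ?_, fun p h h' => a _ _ ?_⟩
  · rw [hk.1 p h, hL.1 p (by omega)]
  · rw [hk.2.1 p h (by omega), map_mul, map_mul, map_inv, ew, hL.1 p h']
  · rw [hk.2.1 p (by omega) h', hL.2.1 p h h']

theorem blkSt : BlkSt := by
  refine ⟨blk_one, fun N k hk => ?_⟩
  obtain ⟨δ, d1, d2, d3⟩ := blk_one (N + 1) k 2 (by omega)
  refine ⟨δ, eq_mul_inv_iff_mul_eq.2 (lc_ext' fun p hp => ?_)⟩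
  obtain ⟨w, hw⟩ : ∃ w, w = bl (N + 1) (k + 2) N * io _ N * (bl _ (k + 2) N)⁻¹ := ⟨_, rfl⟩
  obtain ⟨v, hv⟩ : ∃ v, v = bl (N + 1) 2 N * io _ N * (bl _ 2 N)⁻¹ := ⟨_, rfl⟩
  obtain ⟨t1, t2, t3⟩ := blk_T (Nat.le_add_right k 2) hk w hw
  obtain ⟨-, s2, s3⟩ := blk_T (Nat.zero_le 2) (show 2 ≤ N by omega) v hv
  have tX := lc_fix _ k.zero_le fun p _ b => t1 p b
  have y1 : δ.1 (bl _ 2 (k + 2)) = bl _ 0 k := by
    simpa using lcb_bl δ.1 1 2 0 k.zero_le fun p _ h => by simpa [add_comm p 2] using d2 p h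
  have y2 := lc_fix δ.1 hk fun p h _ => d3 p h
  have dv : δ.1 v = bl _ 0 k * w * (bl _ 0 k)⁻¹ := by
    rw [hv, lcb_split _ (Nat.le_add_left 2 k) hk]
    simp only [map_mul, map_inv, y1, y2, d3 N hk, hw]
    group
  rw [Subgroup.coe_mul _ _ δ, Subgroup.coe_mul _ δ, MulAut.mul_apply, MulAut.mul_apply]
  rcases lt_or_ge p 2 with a | a
  · rw [d1 p a, s2 p p.zero_le a, map_mul, map_mul, map_inv, tX, t2 _ (by omega) (by omega),
      map_mul, map_mul, map_inv, dv, d1 p a]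
    group
  rw [s3 p a hp]
  rcases lt_or_ge p (k + 2) with b | b
  · obtain ⟨q, rfl⟩ : ∃ q, p = 2 + q := ⟨p - 2, by omega⟩
    rw [d2 q (by omega), t1 q (by omega)]
  · rw [d3 p b, t3 p b hp]

end Pool.Agent.MK
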