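import Pool.Agent.Lib.MP_c86c76_al.Tk.St
import Pool.Agent.Lib.MP_c86c76_al.Tg.Nf
import Pool.Agent.Lib.MP_c86c76_al.Tg.Ed
import Pool.Agent.Lib.MP_c86c76_al.Tg.Sg
import Pool.Agent.Lib.MP_c86c76_al.Tg.Lca
import Pool.Agent.Lib.MP_c86c76_al.Tg.Lcb
import Pool.Agent.Lib.MP_c86c76_al.Tg.Cl
import Pool.Agent.Lib.MP_c86c76_al.Tg.Re

/-!
Every annulus with two points lies in a standard window of genus three.
-/

set_option autoImplicit false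

namespace Pool.Agent.MK

open Pool.Agent.MB Pool.Agent.MG Pool.Agent.MA Pool.Agent.MW
open FreeGroup hiding map_mul map_inv map_one

theorem nf_ind {g k : ℕ} (h1 : 3 ≤ g) (h3 : 1 ≤ k) (h6 : k + 2 ≤ 2 * g + 1 + 1) :
    ∃ i l, i % 2 = 1 ∧ i + (2 * 3 + 1) + 2 * l = 2 * g + 1 + 1 ∧ i ≤ k ∧
      k + 2 ≤ i + (2 * 3 + 1) ∧ (i = 1 ∨ i + 2 ≤ k) ∧ (l = 0 ∨ k + 2 + 2 ≤ i + (2 * 3 + 1)) := by
  by_cases e : g - 3 ≤ (k - 3) / 2
  · exact ⟨2 * (g - 3) + 1, 0, by omega⟩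
  · exact ⟨2 * ((k - 3) / 2) + 1, g - 3 - (k - 3) / 2, by omega⟩

theorem nfSt (hH : HurSt) : NfSt := by
  have hR := reSt edSt sgSt lcaSt lcbSt
  intro g k π c h1 h3 h6 hc hb
  obtain ⟨c₁, r₁, e₁⟩ := hH.2.1 0 k c
  obtain ⟨γ₁, m₁, t₁⟩ := (hR _ π c hc).1 0 k c₁ (by omega) r₁
  obtain ⟨c₂, r₂, e₂⟩ := hH.2.2.1 (k + 2) (2 * g + 1 + 1) c₁
  obtain ⟨γ₂, m₂, t₂⟩ := (hR _ _ c₁ t₁).1 (k + 2) _ c₂ le_rfl r₂
  obtain ⟨i, l, i1, i2, i3, i4, i5, i6⟩ := nf_ind h1 h3 h6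
  have k1 : ∀ x, x < i → c₂ x = c₂ 0 := fun x hx => by
    rcases i5 with rfl | e
    · rw [show x = 0 by omega]
    · rw [clSt.1 _ _ _ _ r₂ x (by omega), clSt.1 _ _ _ _ r₂ 0 (by omega)]
      exact e₁ x 0 (by omega) le_rfl (by omega) (by omega)
  have k2 : tp (fun x => c₂ (i - 1 + x)) (2 * 3 + 1 + 1) = cyc := by
    have a1 := nf_bl t₂ le_rfl
    have a2 : γ₁.1.toMonoidHom (γ₂.1.toMonoidHom (bl _ 0 (2 * g + 1 + 1))) = bl _ 0 _ :=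
      (congrArg _ γ₂.2.1).trans γ₁.2.1
    rw [MonoidHom.comp_apply, MonoidHom.comp_apply, a2, hb] at a1
    have a3 := nf_add c₂ (i + (2 * 3 + 1)) (2 * l)
    have a4 : tp (fun x => c₂ (i + (2 * 3 + 1) + x)) (2 * l) = 1 :=
      (nf_const (t := c₂ (i + (2 * 3 + 1))) fun x hx =>
        e₂ _ _ (by omega) (by omega) (by omega) (by omega)).trans (if_neg (by omega))
    have a5 : tp (fun x => c₂ (i - 1 + x)) 1 = tau (c₂ 0) :=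
      (nf_const fun x hx => k1 _ (by omega)).trans (if_pos rfl)
    rw [i2, ← a1, nf_add c₂ i, nf_const k1, if_pos i1, a4, mul_one] at a3
    rw [a3, add_comm _ 1, nf_add _ 1, a5]
    exact congrArg (fun f => tau (c₂ 0) * tp f (2 * 3 + 1))
      (funext fun x => congrArg c₂ (by omega))
  obtain ⟨d, r₃, e₃, e₄⟩ := clSt.2.2.2 _ _ (by omega) (by omega) k2
  obtain ⟨γ₃, m₃, t₃⟩ := (hR _ _ c₂ t₂).2 i (2 * 3 + 1) d i1 (by omega) k1 r₃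
  refine ⟨i, γ₁ * γ₂, γ₃, c₂ (i + (2 * 3 + 1)), i1, i3, by omega, by omega, fun β hβ => ?_, m₃,
    ⟨fun p hp => ?_, ?_⟩, fun p h4 h5 => ?_⟩
  · obtain ⟨-, -, a2⟩ := lcaSt _ k (k + 2) (by omega) h6
    exact Commute.mul_left (a2 β hβ γ₁ (Or.inl m₁)) (a2 β hβ γ₂ (Or.inr m₂))
  · exact (t₃ p (by omega)).trans (congrArg tau (e₃ _ (by omega)))
  · exact (t₃ _ (by omega)).trans (congrArg tau ((congrArg d (by omega)).trans e₄))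
  · refine (t₃ p h5).trans (congrArg tau ((clSt.1 _ _ _ _ r₃ _ (Or.inr (by omega))).trans ?_))
    exact e₂ _ _ (by omega) (by omega) (by omega) (by omega)

end Pool.Agent.MK
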