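import Pool.Agent.Lib.MP_c86c76_al.Tk.Out
import Pool.Agent.Lib.MP_c86c76_al.Tg.Gam

/-!
The placement of the windows.
-/

set_option autoImplicit false

namespace Pool.Agent.MK

theorem plcSt (hE : EmbSt) (hO : OutSt) (hK : KpSt) : PlcSt := plcG MW.gamSt hE hO hK

end Pool.Agent.MK
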