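import Pool.Agent.Lib.MP_c86c76_al.Tk.St
import Pool.Agent.Lib.MP_c86c76_al.Tg.Step
import Pool.Agent.Lib.MP_c86c76_al.Tg.Ed
import Pool.Agent.Lib.MP_c86c76_al.Tg.Wl
import Pool.Agent.Lib.MP_c86c76_al.Tg.Un
import Pool.Agent.Lib.MP_c86c76_al.Tg.Sg
import Pool.Agent.Lib.MP_c86c76_al.An2.All

/-!
The assembly of the step with cusps.
-/

set_option autoImplicit false

namespace Pool.Agent.MK

open Pool.Agent.MB Pool.Agent.MG Pool.Agent.MA Pool.Agent.MW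
open FreeGroup hiding map_mul map_inv map_one

/-- The cusp norms of the loops of a pair of pants. -/
theorem step_pants (hZ : ZedSt) (hL : LcSt) (hK : KpSt) {H : Type} [NormedAddCommGroup H]
    [InnerProductSpace ℂ H] {N k : ℕ} (hk : k < N) (a : BL (N + 1) →* (H ≃ᵃⁱ[ℂ] H))
    {Z0 Z1 Z2 s : BL (N + 1)} (h0 : IsZ _ k Z0.1) (h1 : IsZ _ (k + 1) Z1.1)
    (h2 : IsZ _ (k + 2) Z2.1) (hs : IsS _ k s.1) {y : H} {ε : ℝ}
    (k0 : ML.Kap (a Z0) y ε) (k1 : ML.Kap (a Z1) y ε) (k2 : ML.Kap (a Z2) y ε)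
    (ks : ML.Kap (a s) y ε) (k3 : ML.Kap (a (s⁻¹ * Z1 * s)) y ε) :
    ∃ y', ML.Kap (a ((MM N (k + 1))⁻¹ * MM N k)) y' (4 * ε) ∧
      ML.Kap (a ((MM N k)⁻¹ * MM N 0)) y' (4 * ε) ∧
      ML.Kap (a ((MM N (k + 1))⁻¹ * MM N 0)) y' (4 * ε) := by
  obtain ⟨η, hη⟩ := hL N k hk
  obtain ⟨e1, e2, e3⟩ := hη Z0 Z1 Z2 s h0 h1 h2 hs
  obtain ⟨km, ki, -⟩ := hK H
  have m1 : Z1 ∈ Loc (N + 1) k (k + 2) :=
    ((hZ _).2.1 k (k + 2) (k + 1) Z1 (by omega) (by omega) (by omega) h1).1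
  have ms : s ∈ Loc (N + 1) k (k + 2) :=
    ((hZ _).2.2.2.2.1 k (k + 2) s (by omega) (by omega) (Or.inr ⟨k, le_rfl, by omega, hs⟩)).1
  have c0 : Commute Z0 Z1 :=
    (hZ _).2.2.1 k (k + 2) k Z0 Z1 le_rfl (by omega) (by omega) h0 (Or.inr (Or.inl m1))
  have c2 : Commute Z2 (s⁻¹ * Z1 * s) :=
    (hZ _).2.2.1 k (k + 2) (k + 2) Z2 _ (by omega) le_rfl (by omega) h2
      (Or.inl (mul_mem (mul_mem (inv_mem ms) m1) ms))
  have fin : ∀ u v w : BL (N + 1), Commute u v → ML.Kap (a u) y ε → ML.Kap (a v) y ε →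
      w = η * (u * v)⁻¹ * η⁻¹ → ML.Kap (a w) (a η y) (4 * ε) := by
    intro u v w c hu hv e
    have := (ki _ _ _ (ki _ _ _ (km _ _ y ε ε (c.map a) hu hv)).2.1).2.2.2 (a η)
    rw [e, map_mul, map_mul, map_inv, map_inv, map_mul, show 4 * ε = 2 * ε + 2 * ε by ring]
    exact this
  have kin : ∀ u : BL (N + 1), ML.Kap (a u) y ε → ML.Kap (a u⁻¹) y ε := fun u hu => by
    rw [map_inv]
    exact (ki _ _ _ hu).2.1
  refine ⟨a η y, fin s s _ (Commute.refl s) ks ks ?_, fin Z1 Z0⁻¹ _ c0.symm.inv_right k1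
    (kin _ k0) ?_, fin Z2 (s⁻¹ * Z1 * s)⁻¹ _ c2.inv_right k2 (kin _ k3) ?_⟩
  · rw [← pow_two, ← e3]; group
  · rw [← e1]; group
  · rw [← e2]; group

theorem stepSt (hZ : ZedSt) (hL : LcSt) (hB : BlkSt) (hK : KpSt) (hI : InSt) (hE : ElSt)
    (hN : MW.NbSt) : StepSt := by
  intro g hg H _ _ _ α hH S ε hε
  classical
  have hX := xSt edSt
  have hU := unSt edSt wlSt
  let r := ev (2 * g) (rW g)
  let T := {π : FN (2 * g + 1 + 1) →* Equiv.Perm (Fin 3) //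
    ∃ ρ : FN (2 * g + 1 + 1) →* Wr (FN (2 * g)), XX r ρ ∧ pp ρ = π}
  have : Finite (FN (2 * g + 1 + 1) →* Equiv.Perm (Fin 3)) := Finite.of_equiv _ FreeGroup.lift
  let t0 : T := ⟨pp (rho0 g), rho0 g, hU g, rfl⟩
  obtain ⟨sec, hsec, h0⟩ : ∃ sec : T → (FN (2 * g + 1 + 1) →* Wr (FN (2 * g))),
      (∀ t, XX r (sec t) ∧ pp (sec t) = t.1) ∧ sec t0 = rho0 g := by
    refine ⟨fun t => if t = t0 then rho0 g else t.2.choose, fun t => ?_, if_pos rfl⟩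
    by_cases e : t = t0
    · subst e
      simp only [if_pos]
      exact ⟨hU g, rfl⟩
    · simp only [if_neg e]
      exact t.2.choose_spec
  let act : T → BL (2 * g + 1 + 1) → T := fun t β =>
    ⟨t.1.comp β.1.toMonoidHom, (sec t).comp β.1.toMonoidHom,
      (hX _ _ r _ (hsec t).1).1 β, by rw [← (hsec t).2]; rfl⟩
  have ex : ∀ (t : T) (β : BL (2 * g + 1 + 1)), ∃ φ : MT.St g,
      ∀ x, sec t (β.1 x) = Wr.map φ.1.toMonoidHom (sec (act t β) x) := by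
    intro t β
    obtain ⟨φ, a, b⟩ := (hX _ _ r _ (hsec (act t β)).1).2.1 _ ((hX _ _ r _ (hsec t).1).1 β)
      (by rw [(hsec _).2]; show _ = t.1.comp _; rw [← (hsec t).2]; rfl)
    exact ⟨⟨φ, a⟩, b⟩
  choose Φ hΦ using ex
  have uq : ∀ (t : T) (φ φ' : MT.St g), (∀ x, Wr.map φ.1.toMonoidHom (sec t x) =
      Wr.map φ'.1.toMonoidHom (sec t x)) → φ = φ' := fun t φ φ' e =>
    Subtype.ext (MulEquiv.toMonoidHom_injective ((hX _ _ r _ (hsec t).1).2.2 _ _ e))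
  have am : ∀ t β γ, act t (β * γ) = act (act t β) γ := fun _ _ _ => rfl
  obtain ⟨H', _, _, _, a, e, hsm, hle⟩ := hI _ _ T act Φ (fun _ => rfl) am (fun t β γ =>
    uq (act t (β * γ)) _ _ fun x => by
      rw [← hΦ, Subgroup.coe_mul, MulAut.mul_apply, hΦ t β, hΦ (act t β) γ]
      rfl) H α
  have lf : ∀ t β, act t β = t → Lf (sec t) β.1 (Φ t β).1 := fun t β e y => by
    rw [hΦ t β, e]
  have ty : ∀ t : T, ∃ c, Tp t.1 c := fun t => by
    choose c g' hc using (hsec t).1.1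
    refine ⟨fun j => if h : j < 2 * g + 1 + 1 then c j h else 0, fun j hj => ?_⟩
    rw [← (hsec t).2]
    simp only [dif_pos hj]
    exact congrArg Wr.p (hc j hj)
  have fx : ∀ k, k + 2 ≤ 2 * g + 1 + 1 → ∀ u ∈ Cu (2 * g + 1 + 1) k (k + 2), ∀ γ t,
      act t (γ * u ^ 6 * γ⁻¹) = t := by
    intro k hk u hu γ t
    obtain ⟨c, hc⟩ := ty (act t γ)
    have : act (act t γ) (u ^ 6) = act t γ :=
      Subtype.ext (((hZ _).2.2.2.2.1 k (k + 2) u (by omega) hk hu).2.2 _ c hc)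
    rw [am, am, this, ← am, mul_inv_cancel]
    rfl
  have key : ∀ k, 1 ≤ k → k < 2 * g + 1 → ∀ δ > 0, ∃ y,
      ML.Kap (a ((MM (2 * g + 1) (k + 1))⁻¹ * MM (2 * g + 1) k)) y δ ∧
      ML.Kap (a ((MM (2 * g + 1) k)⁻¹ * MM (2 * g + 1) 0)) y δ ∧
      ML.Kap (a ((MM (2 * g + 1) (k + 1))⁻¹ * MM (2 * g + 1) 0)) y δ := by
    intro k k1 k2 δ hδ
    obtain ⟨Z0, z0⟩ := (hZ (2 * g + 1 + 1)).1 k (by omega)
    obtain ⟨Z1, z1⟩ := (hZ (2 * g + 1 + 1)).1 (k + 1) (by omega)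
    obtain ⟨Z2, z2⟩ := (hZ (2 * g + 1 + 1)).1 (k + 2) (by omega)
    obtain ⟨s, hs⟩ := sgSt.1 (2 * g + 1 + 1) k (by omega)
    have lc : ∀ u ∈ Cu (2 * g + 1 + 1) k (k + 2), u ∈ Loc (2 * g + 1 + 1) k (k + 2) := fun u hu =>
      ((hZ _).2.2.2.2.1 k (k + 2) u (by omega) (by omega) hu).1
    have u0 : Z0 ∈ Cu _ k (k + 2) := Or.inl ⟨k, le_rfl, by omega, z0⟩
    have u1 : Z1 ∈ Cu _ k (k + 2) := Or.inl ⟨k + 1, by omega, by omega, z1⟩
    have u2 : Z2 ∈ Cu _ k (k + 2) := Or.inl ⟨k + 2, by omega, le_rfl, z2⟩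
    have us : s ∈ Cu _ k (k + 2) := Or.inr ⟨k, le_rfl, by omega, hs⟩
    have hV : ∀ v ∈ ({Z0, Z1, Z2, s, s⁻¹ * Z1 * s} : Finset (BL (2 * g + 1 + 1))),
        ∃ d ∈ Loc (2 * g + 1 + 1) k (k + 2), ∃ u ∈ Cu (2 * g + 1 + 1) k (k + 2),
          v = d * u * d⁻¹ := by
      intro v hv
      simp only [Finset.mem_insert, Finset.mem_singleton] at hv
      rcases hv with rfl | rfl | rfl | rfl | rfl
      · exact ⟨1, one_mem _, _, u0, by simp⟩
      · exact ⟨1, one_mem _, _, u1, by simp⟩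
      · exact ⟨1, one_mem _, _, u2, by simp⟩
      · exact ⟨1, one_mem _, _, us, by simp⟩
      · exact ⟨s⁻¹, inv_mem (lc s us), _, u1, by simp⟩
    obtain ⟨y, -, hy⟩ := hsm (Loc _ k (k + 2)) {Z0, Z1, Z2, s, s⁻¹ * Z1 * s} 6 (by omega)
      (fun v hv => by
        obtain ⟨d, hd, u, hu, rfl⟩ := hV v hv
        exact mul_mem (mul_mem hd (lc u hu)) (inv_mem hd))
      (fun v hv t => by
        obtain ⟨d, hd, u, hu, rfl⟩ := hV v hv
        rw [conj_pow]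
        exact fx k (by omega) u hu d t)
      (fun t S' U hS hU' => hE g k (sec t) (hsec t).1 hg k1 (by omega) H α hH S' U
        (fun φ hφ => by
          obtain ⟨β, hβ, e1, rfl⟩ := hS φ hφ
          exact ⟨β, hβ, lf t β e1⟩)
        (fun φ hφ => by
          obtain ⟨γ, hγ, v, hv, rfl⟩ := hU' φ hφ
          obtain ⟨d, hd, u, hu, rfl⟩ := hV v hv
          have e1 : γ * (d * u * d⁻¹) ^ 6 * γ⁻¹ = γ * d * u ^ 6 * (γ * d)⁻¹ := by
            rw [conj_pow]; group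
          rw [e1]
          exact ⟨γ * d, mul_mem hγ hd, u, hu, lf t _ (fx k (by omega) u hu _ t)⟩))
      (δ / 4) (by positivity)
    have := step_pants hZ hL hK k2 a z0 z1 z2 hs (hy _ (by simp)) (hy _ (by simp))
      (hy _ (by simp)) (hy _ (by simp)) (hy _ (by simp))
    rwa [show 4 * (δ / 4) = δ by ring] at this
  have main := MA2.brMain2 (N := 2 * g + 1) (by omega) a
    (fun k hk => by
      rcases Nat.eq_zero_or_pos k with rfl | k0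
      · obtain ⟨y, -, hy, -⟩ := key 1 le_rfl (by omega) 1 one_pos
        exact ⟨y, 1, hy⟩
      · obtain ⟨y, hy, -⟩ := key k k0 hk 1 one_pos
        exact ⟨y, 1, hy⟩)
    (fun k hk => by
      obtain ⟨y, -, -, hy⟩ := key 1 le_rfl (by omega) 1 one_pos
      obtain ⟨d, hd⟩ := hB.2 (2 * g + 1) k hk
      refine ⟨a d y, 1, ?_⟩
      rw [hd, map_mul, map_mul, map_inv]
      exact ((hK H').2.1 _ _ _ hy).2.2.2 (a d))
    (by
      obtain ⟨y, -, hy, -⟩ := key (2 * g + 1 - 1) (by omega) (by omega) 1 one_pos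
      exact ⟨y, 1, hy⟩)
    (by
      obtain ⟨y, -, -, hy⟩ := key (2 * g) (by omega) (by omega) 1 one_pos
      rw [MM_top, inv_one, one_mul] at hy
      exact ⟨y, 1, hy⟩)
    key
  have wd : ∀ s : MT.St g, ∃ C : ℝ, 0 ≤ C ∧ ∀ v (δ : ℝ),
      (∀ k, k ≤ 2 * g + 1 → ‖a (MM _ k) v - v‖ ≤ δ) → 0 ≤ δ → ‖α s (e t0 v) - e t0 v‖ ≤ C * δ := by
    intro s
    obtain ⟨β, hβ, hl⟩ := hN g s
    obtain ⟨C, c0, hC⟩ := step_word a _ hβ
    have e1 : act t0 β = t0 := Subtype.ext (MonoidHom.ext fun x => by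
      have := congrArg Wr.p (hl x)
      exact this)
    have e2 : Φ t0 β = s := uq t0 _ _ fun x => by
      have := hΦ t0 β x
      rw [e1] at this
      rw [← this, h0]
      exact hl x
    refine ⟨C, c0, fun v δ hv h0 => ?_⟩
    rw [← e2]
    exact (hle t0 β v e1).trans (hC v δ (by rintro _ ⟨k, hk, rfl⟩; exact hv k hk) h0)
  choose C c0 hC using wd
  have s0 : 0 ≤ ∑ s ∈ S, C s := Finset.sum_nonneg fun s _ => c0 s
  obtain ⟨v, hv⟩ := main (ε / (∑ s ∈ S, C s + 1)) (by positivity)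
  refine ⟨e t0 v, fun s hs => (hC s v _ (fun k hk => (hv k hk).le) (by positivity)).trans_lt ?_⟩
  have := Finset.single_le_sum (fun s _ => c0 s) hs
  rw [mul_div_assoc', div_lt_iff₀ (by positivity)]
  nlinarith

end Pool.Agent.MK
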