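import Pool.Agent.Lib.MP_c86c76_al.Tk.Mov
import Pool.Agent.Lib.MP_c86c76_al.Tk.El
import Pool.Agent.Lib.MP_c86c76_al.Tk.Emb
import Pool.Agent.Lib.MP_c86c76_al.Tk.Gd
import Pool.Agent.Lib.MP_c86c76_al.Tk.Hur
import Pool.Agent.Lib.MP_c86c76_al.Tk.Kp
import Pool.Agent.Lib.MP_c86c76_al.Tk.Lc
import Pool.Agent.Lib.MP_c86c76_al.Tk.Nf
import Pool.Agent.Lib.MP_c86c76_al.Tk.Plc
import Pool.Agent.Lib.MP_c86c76_al.Tk.Step
import Pool.Agent.Lib.MP_c86c76_al.Tk.Wi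
import Pool.Agent.Lib.MP_c86c76_al.Tk.Zed
import Pool.Agent.Lib.MP_c86c76_al.Lo.All

/-!
Assembly of the step with cusps, up to the full twists.
-/

set_option autoImplicit false

namespace Pool.Agent.MK

theorem movAll : MovSt := movSt zedSt

theorem sigAll : SigSt := sigSt zedSt ML.goodSt movAll

theorem plcAll : PlcSt := plcSt (embSt kerSt) (outSt hurSt zedSt blkSt) kpSt

theorem gdOf (hR : RepSt) : GdSt := gdSt zedSt wiSt kerSt rsSt ML.goodSt (mgSt movAll hR sigAll)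

theorem elOf (hR : RepSt) : ElSt := elSt zedSt (nfSt hurSt) wiSt (gdOf hR) kpSt

theorem stepOf (hR : RepSt) : StepSt :=
  stepSt zedSt lcSt blkSt kpSt (inSt kpSt) (elOf hR) MW.nbAll

end Pool.Agent.MK
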