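import Pool.Agent.Lib.MP_c86c76_al.Tk.Sig
import Pool.Agent.Lib.MP_c86c76_al.Tg.All

/-!
Moves of types and the cusps of the standard window.
-/

set_option autoImplicit false

namespace Pool.Agent.MK

open Pool.Agent.MB Pool.Agent.MG Pool.Agent.MA Pool.Agent.MW
open FreeGroup hiding map_mul map_inv map_one

theorem mov_mul {h : ℕ} {β β' : MulAut (FN (2 * h + 1 + 1))} {ψ ψ' : Gam h} (k : Lw h β ψ)
    (k' : Lw h β' ψ') : Lw h (β * β') (ψ * ψ') := fun x => by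
  rw [MulAut.mul_apply, k, k', ((gamSt h).2.1 ψ ψ').1]
  rfl

theorem mov_inv {h : ℕ} {β : MulAut (FN (2 * h + 1 + 1))} {ψ : Gam h} (k : Lw h β ψ) :
    Lw h β⁻¹ ψ⁻¹ := fun x => by
  have e := ((gamSt h).2.1 ψ⁻¹ ψ).1
  rw [inv_mul_cancel, (gamSt h).1.1] at e
  conv_rhs => rw [← MulAut.apply_inv_self _ β x, k]
  exact Wr.ext rfl (funext fun t => DFunLike.congr_fun e _)

theorem mov_in (h : ℕ) (x : FN (2 * h + 1 + 1)) : inB h (2 * h + 1 + 1) 1 x = x := by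
  have : inB h (2 * h + 1 + 1) 1 = MonoidHom.id _ := FreeGroup.ext_hom _ _ fun j => by
    have := j.2
    rw [lift_of, MonoidHom.id_apply]
    by_cases c : (j : ℕ) = 0
    · rw [c, lift_in_zero, bl_succ _ le_rfl, bl_self, one_mul]
    · rw [lift_in_io (by omega) (by omega), show 1 + (j : ℕ) - 1 = j by omega]
  rw [this, MonoidHom.id_apply]

theorem mov_ty {m : ℕ} {π : FN m →* Equiv.Perm (Fin 3)} {c : ℕ → Fin 3} (h : Tp π c) (γ : BL m) :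
    ∃ d, Tp (π.comp γ.1.toMonoidHom) d := by
  obtain ⟨σ, hσ⟩ := γ.2.2
  have k : ∀ (s : Equiv.Perm (Fin 3)) a, s * tau a * s⁻¹ = tau (s a) := by decide
  have : ∀ p, ∃ a, p < m → π (γ.1 (io m p)) = tau a := fun p => by
    by_cases b : p < m
    · obtain ⟨w, e⟩ := isConj_iff.1 (hσ ⟨p, b⟩)
      rw [lift_of, lift_of] at e
      exact ⟨_, fun _ => by rw [← e, map_mul, map_mul, map_inv, h _ (σ _).2, k]⟩
    · exact ⟨0, fun q => absurd q b⟩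
  choose d hd using this
  exact ⟨d, hd⟩

/-- A local braid that keeps the monodromy has a lift. -/
theorem mov_lift {δ : BL (2 * 3 + 1 + 1)} (hδ : δ ∈ Loc _ 1 (2 * 3 + 1 + 1))
    (e : (pp (rhoW 3)).comp δ.1.toMonoidHom = pp (rhoW 3)) : ∃ ψ, Lw 3 δ.1 ψ := by
  obtain ⟨w, h1, h2⟩ : ∃ w, Loc0 _ 1 (2 * 3 + 1 + 1) δ.1 w ∧ pp (rhoW 3) w = 1 := by
    obtain ⟨⟨w, hw⟩, -⟩ := id hδ
    have z := hw.2.1 0 one_pos
    have k : pp (rhoW 3) (δ.1 (io _ 0)) = _ := DFunLike.congr_fun e _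
    rw [z, map_mul, map_mul, map_inv, sig_pp (Nat.zero_le _)] at k
    rcases ((edSt (FN 7)).2.2.2.2.2 0 0).2.2 _ k with q | q
    · exact ⟨w, hw, q⟩
    · refine ⟨w * io _ 0, ⟨mul_mem hw.1 (Subgroup.subset_closure (Or.inl ?_)), fun p hp => ?_,
        hw.2.2⟩, ?_⟩
      · rw [bl_succ _ le_rfl, bl_self, one_mul]
      · rw [show p = 0 by omega, z]
        group
      · rw [map_mul, q, sig_pp (Nat.zero_le _)]
        decide
  obtain ⟨ψ, b, -, k1, -, k2, -⟩ := liftAll 3 _ 1 (pp (rhoW 3)) δ w le_rfl le_rfl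
    (MonoidHom.ext fun x => congrArg (pp (rhoW 3)) (mov_in 3 x)) hδ h1 h2 e
  refine ⟨ψ, fun x => ?_⟩
  rw [← k2, ← mov_in 3 (b x), ← k1, mov_in]

theorem movSt (hZ : ZedSt) : MovSt := by
  rintro u d ⟨γ0, h0, t0, ψ0, g0, l0⟩
  have key : ∀ β ∈ Loc _ 1 (2 * 3 + 1 + 1), Commute u β → ∀ d',
      Tp (((pp (rhoW 3)).comp γ0.1.toMonoidHom).comp β.1.toMonoidHom) d' → Pz u d' := by
    intro β hβ k d' t
    refine ⟨γ0 * β, mul_mem h0 hβ, t, ψ0, g0, ?_⟩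
    rwa [mul_assoc γ0, ← (k.pow_left 6).eq, mul_inv_rev, ← mul_assoc, ← mul_assoc,
      mul_inv_cancel_right]
  refine ⟨fun γ hγ t => ?_, fun d' k => ⟨γ0, h0, fun j hj => (t0 j hj).trans (by rw [k j hj]),
    ψ0, g0, l0⟩, fun a d' a1 a2 k r => ?_, fun a d' a1 a2 k r => ?_, fun hu => ?_⟩
  · have e : (pp (rhoW 3)).comp γ.1.toMonoidHom = (pp (rhoW 3)).comp γ0.1.toMonoidHom :=
      FreeGroup.ext_hom _ _ fun j => by rw [lift_of, t _ j.2, t0 _ j.2]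
    obtain ⟨ψ, l⟩ := mov_lift (mul_mem hγ (inv_mem h0)) (MonoidHom.ext fun x =>
      (DFunLike.congr_fun e (γ0.1⁻¹ x)).trans
        (congrArg (pp (rhoW 3)) (MulAut.apply_inv_self _ γ0.1 x)))
    refine ⟨ψ * ψ0 * ψ⁻¹, (ML.basSt _).2.2.1 _ _ g0, ?_⟩
    rw [show γ * u ^ 6 * γ⁻¹ = γ * γ0⁻¹ * (γ0 * u ^ 6 * γ0⁻¹) * (γ * γ0⁻¹)⁻¹ by group]
    exact mov_mul (mov_mul l l0) (mov_inv l)
  · obtain ⟨q, rfl⟩ : ∃ q, a = 1 + q := ⟨a - 1, by omega⟩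
    obtain ⟨β, hβ, t⟩ := (reAll (2 * 3 + 1) _ d t0).2 1 q d' rfl a2
      (fun x hx => by rw [show x = 0 by omega]) (by simpa [add_comm] using r)
    exact key β ((lcaSt _ 1 (1 + q) a1 a2).1 1 _ le_rfl a2 hβ) (k β hβ) d' t
  · obtain ⟨β, hβ, t⟩ := (reAll (2 * 3 + 1) _ d t0).1 a 8 d' le_rfl r
    have := lcaSt (2 * 3 + 1 + 1) a 8 a2 le_rfl
    exact key β (this.1 1 _ a1 le_rfl (this.2.1 hβ)) (k β hβ) d' t
  · obtain ⟨z1, z2, z3, z4, -⟩ := hZ (2 * 3 + 1 + 1)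
    obtain ⟨Z, hz⟩ := z1 _ le_rfl
    refine key Z (z2 1 _ _ Z (by omega) le_rfl le_rfl hz).1
      (z3 1 _ _ Z u (by omega) le_rfl le_rfl hz (Or.inl hu)).symm _ fun j hj => ?_
    rw [z4 _ Z _ d le_rfl hz t0 j hj]
    simp only []
    rw [if_pos hj, MonoidHom.comp_apply,
      show γ0.1.toMonoidHom (bl _ 0 _) = _ from γ0.2.1,
      show pp (rhoW 3) (bl _ 0 (2 * 3 + 1 + 1)) = cyc from (modAll 3).1.1]

theorem mgSt (hM : MovSt) (hR : RepSt) (hS : SigSt) : MgSt := by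
  rintro u (⟨q, a, b, hu⟩ | ⟨q, a, b, hu⟩) γ hγ
  · obtain ⟨d, t⟩ := mov_ty sig_tp γ
    refine (hM u d (hR q u d a b hu ?_)).1 γ hγ t
    rw [← nf_bl t le_rfl, MonoidHom.comp_apply, show γ.1.toMonoidHom (bl _ 0 _) = _ from γ.2.1]
    exact (modAll 3).1.1
  · exact hS q u a (by omega) hu γ hγ

end Pool.Agent.MK
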