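import Pool.Agent.Lib.MP_c86c76_al.Tk.St
import Pool.Agent.Lib.MP_c86c76_al.Tg.Ed
import Pool.Agent.Lib.MP_c86c76_al.Tg.Sg
import Pool.Agent.Lib.MP_c86c76_al.Tg.Lca
import Pool.Agent.Lib.MP_c86c76_al.Tg.Cl
import Pool.Agent.Lib.MP_c86c76_al.Tg.Nf
import Pool.Agent.Lib.MP_c86c76_al.Tg.TwB
import Pool.Agent.Lib.MP_c86c76_al.G.Lick
import Pool.Agent.Lib.MP_c86c76_al.Lo.Bas

/-!
The sixth powers of half twists have tame lifts at all types.
-/

set_option autoImplicit false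

namespace Pool.Agent.MK

open Pool.Agent.MB Pool.Agent.MG Pool.Agent.MA Pool.Agent.MW
open FreeGroup hiding map_mul map_inv map_one

theorem sig_br {m j : ℕ} {s t : BL m} (hs : IsS m j s.1) (ht : IsS m (j + 1) t.1) :
    s * t * s = t * s * t := by
  refine Subtype.ext (twB_ext fun x => ?_)
  have s2 := hs.2.2 (j + 1 + 1) (by omega) (by omega)
  have t0 := ht.2.2 j (by omega) (by omega)
  simp only [Subgroup.coe_mul, MulAut.mul_apply]
  by_cases p : x = j
  · simp only [p, hs.1, hs.2.1, s2, ht.1, ht.2.1, t0, map_mul, map_inv]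
    group
  by_cases q : x = j + 1
  · simp only [q, hs.1, hs.2.1, s2, ht.1, ht.2.1, t0, map_mul, map_inv, mul_assoc,
      inv_mul_cancel_left]
  by_cases r : x = j + 1 + 1
  · simp only [r, hs.1, hs.2.1, s2, ht.1, ht.2.1, t0, map_mul, map_inv]
  · simp only [hs.2.2 x p q, ht.2.2 x q r]

theorem sig_hw (j : ℕ) (c : ℕ → Fin 3) : Hw j (Hw j (Hw j c)) = c := by
  funext p
  have h : ∀ a b : Fin 3, -(-(-a - b) - a) - (-a - b) = a ∧ -(-a - b) - a = b := by decide
  by_cases a : p = j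
  · simp only [Hw, a, if_true, Nat.succ_ne_self, if_false]
    exact (h _ _).1
  by_cases b : p = j + 1
  · simp only [Hw, b, if_true, Nat.succ_ne_self, if_false]
    exact (h _ _).2
  · simp only [Hw, a, b, if_false]

theorem sig_symm {p q : ℕ} {c c' : ℕ → Fin 3} (h : Rch p q c c') : Rch p q c' c := by
  induction h with
  | refl => exact .refl
  | @tail b _ _ e ih =>
    obtain ⟨j, h1, h2, rfl⟩ := e
    refine Relation.ReflTransGen.trans ?_ ih
    have := cl_tail (cl_tail (Relation.ReflTransGen.refl (a := Hw j b)) h1 h2) h1 h2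
    rwa [sig_hw] at this

theorem sig_re (h : ℕ) (x : FN (2 * h + 1)) : reG h (inG h x) = x := by
  have io1 : ∀ j, j < 2 * h → reG h (io _ j) = io _ j := fun j hj => by
    rw [io, dif_pos (by omega : j < 2 * (h + 1)), reG, lift_apply_of, if_pos hj]
  have io2 : reG h (io _ (2 * h)) = (io _ (2 * h))⁻¹ := by
    rw [io, dif_pos (by omega : 2 * h < 2 * (h + 1)), reG, lift_apply_of, if_neg (by simp),
      if_pos rfl]
  have io3 : reG h (io _ (2 * h + 1)) = 1 := by
    rw [io, dif_pos (by omega : 2 * h + 1 < 2 * (h + 1)), reG, lift_apply_of, if_neg (by simp),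
      if_neg (by simp)]
  have : (reG h).comp (inG h) = MonoidHom.id _ := by
    refine FreeGroup.ext_hom _ _ fun j => ?_
    have hj := j.2
    rw [MonoidHom.comp_apply, inG, lift_apply_of, MonoidHom.id_apply, twB_of]
    split_ifs with c
    · exact io1 _ c
    · rw [map_mul, map_mul, map_inv, map_inv, io2, io3, show (j : ℕ) = 2 * h by omega]
      simp
  exact DFunLike.congr_fun this x

theorem sig_rho {p : ℕ} (h1 : 1 ≤ p) (h2 : p ≤ 6) :
    rhoW 3 (io _ p) = Ed 0 (wl 7 3 (6 - p)) := by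
  rw [io, dif_pos (by omega : p < 2 * 3 + 1 + 1), rhoW, lift_apply_of, if_neg (by simp; omega),
    if_pos h2]

theorem sig_rho0 : rhoW 3 (io _ 0) = ⟨tau 0, ![1, wl 7 3 6, io 7 6 * (wl 7 3 6)⁻¹]⟩ := by
  rw [io, dif_pos (by omega : 0 < 2 * 3 + 1 + 1), rhoW, lift_apply_of, if_pos rfl]

theorem sig_rho7 : rhoW 3 (io _ 7) = Ed 2 1 := by
  rw [io, dif_pos (by omega : 7 < 2 * 3 + 1 + 1), rhoW, lift_apply_of, if_neg (by simp),
    if_neg (by simp)]

theorem sig_pp {p : ℕ} (h : p ≤ 6) : pp (rhoW 3) (io _ p) = tau 0 := by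
  show (rhoW 3 (io _ p)).p = _
  by_cases c : p = 0
  · rw [c, sig_rho0]
  · rw [sig_rho (by omega) h]
    rfl

theorem sig_pp7 : pp (rhoW 3) (io _ 7) = tau 2 := congrArg Wr.p sig_rho7

theorem sig_tp : Tp (pp (rhoW 3)) fun p => if p = 7 then 2 else 0 := fun p hp => by
  by_cases c : p = 7
  · rw [c, sig_pp7]
    rfl
  · rw [sig_pp (by omega)]
    simp [c]

/-- The inverse of the twist about the first curve, on the group of the window. -/
noncomputable def sigT : FN 7 →* FN 7 :=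
  lift fun j => if (j : ℕ) = 1 then io 7 1 * (io 7 0)⁻¹ else io 7 j

theorem sigT_one : sigT (io 7 1) = io 7 1 * (io 7 0)⁻¹ := by
  conv_lhs => rw [io, dif_pos (by omega : 1 < 7), sigT, lift_apply_of, if_pos rfl]

theorem sigT_ne {j : ℕ} (h : j ≠ 1) : sigT (io 7 j) = io 7 j := by
  by_cases c : j < 7
  · conv_lhs => rw [io, dif_pos c, sigT, lift_apply_of, if_neg h]
  · rw [io, dif_neg c, map_one]

theorem sigT_be {l : ℕ} (h : 1 ≤ l) : sigT (be 7 3 l) = be 7 3 l := by
  rw [be, map_list_prod, List.map_map]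
  refine congrArg _ (List.map_congr_left fun j hj => sigT_ne ?_)
  have := (List.mem_range'_1.1 hj).1
  omega

theorem sigT_wl {l : ℕ} (h : 2 ≤ l) : sigT (wl 7 3 l) = wl 7 3 l := by
  rcases twB_cases l with rfl | ⟨k, rfl⟩ | ⟨k, rfl⟩
  · omega
  · rw [twB_odd, map_mul, map_mul, map_inv, sigT_be (by omega), sigT_ne (by omega),
      sigT_ne (by omega)]
  · rw [twB_even, map_mul, map_inv, sigT_be (by omega), sigT_ne (by omega)]

theorem sig_five {s : BL (2 * 3 + 1 + 1)} (hs : IsS _ 5 s.1) (x) :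
    rhoW 3 (s.1 x) = Wr.map sigT (rhoW 3 x) := by
  have w0 : wl 7 3 0 = io 7 1 * be 7 3 1 := twB_be 7 (by omega : 0 < 3)
  have w1 : wl 7 3 1 = io 7 1 * (io 7 0)⁻¹ * be 7 3 1 := twB_odd 7 3 0
  have e5 : rhoW 3 (io _ 5) = Ed 0 (wl 7 3 1) := sig_rho (by omega) (by omega)
  have e6 : rhoW 3 (io _ (5 + 1)) = Ed 0 (wl 7 3 0) := sig_rho (by omega) (by omega)
  have key : (rhoW 3).comp s.1.toMonoidHom = (Wr.map sigT).comp (rhoW 3) := by
    refine FreeGroup.ext_hom _ _ fun j => ?_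
    show rhoW 3 (s.1 (of j)) = Wr.map sigT (rhoW 3 (of j))
    rw [twB_of]
    have hj := j.2
    by_cases a : (j : ℕ) = 5
    · rw [a, hs.1, map_mul, map_mul, map_inv, e5, e6, twB_conj, twB_map, w0, w1, map_mul, map_mul,
        map_inv, sigT_one, sigT_ne (by omega), sigT_be le_rfl]
      congr 1
      group
    by_cases b : (j : ℕ) = 5 + 1
    · rw [b, hs.2.1, e5, e6, twB_map, w0, w1, map_mul, sigT_one, sigT_be le_rfl]
    rw [hs.2.2 j a b]
    by_cases c : (j : ℕ) = 0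
    · rw [c, sig_rho0]
      refine Wr.ext rfl (funext fun t => ?_)
      fin_cases t <;> simp [sigT_wl, sigT_ne]
    by_cases d : (j : ℕ) = 7
    · rw [d, sig_rho7, twB_map, map_one]
    · rw [sig_rho (by omega) (by omega), twB_map, sigT_wl (by omega)]
  exact DFunLike.congr_fun key x

theorem sig_gz (hG : GoodSt) {s : BL (2 * 3 + 1 + 1)} (hs : IsS _ 5 s.1) : Gz (s ^ 6) := by
  obtain ⟨A, hA⟩ := (((lickSt (2 * (3 + 1))).2.1 0).1 (by omega)).1
  have hL : A ∈ Lick (2 * (3 + 1)) := ⟨0, Or.inl ⟨by omega, Or.inl hA⟩⟩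
  have hm : A ∈ Gam 3 := ⟨(lickSt _).2.2 _ rfl A hL, hA.2 _ (by omega)⟩
  have inv : ∀ x y, A x = y → A⁻¹ y = x := fun x y e => by
    rw [← e]
    exact A.symm_apply_apply x
  have hi : ∀ j, j < 6 → inG 3 (io 7 j) = io _ j := fun j hj => by
    rw [io, dif_pos (by omega : j < 7), inG, lift_apply_of, if_pos hj]
  have h1 : A⁻¹.toMonoidHom.comp (inG 3) = (inG 3).comp sigT := by
    refine FreeGroup.ext_hom _ _ fun j => ?_
    show A⁻¹ (inG 3 (of j)) = inG 3 (sigT (of j))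
    by_cases a : (j : ℕ) = 1
    · rw [twB_of, a, sigT_one, map_mul, map_inv, hi 1 (by omega), hi 0 (by omega)]
      refine inv _ _ ?_
      rw [map_mul, map_inv, hA.1, hA.2 0 (by omega)]
      group
    · rw [show sigT (of j) = of j by rw [twB_of, sigT_ne a]]
      refine inv _ _ ?_
      rw [inG, lift_apply_of]
      split_ifs
      · exact hA.2 _ a
      · rw [map_mul, map_mul, map_inv, map_inv, hA.2 _ (by omega), hA.2 _ (by omega)]
  have h2 : ∀ (n : ℕ) x, (A⁻¹ ^ n) (inG 3 x) = inG 3 (sigT^[n] x) := fun n => by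
    induction n with
    | zero => exact fun x => rfl
    | succ n ih =>
      intro x
      rw [pow_succ, MulAut.mul_apply, Function.iterate_succ_apply, ← ih]
      exact congrArg _ (DFunLike.congr_fun h1 x)
  have h3 : ∀ (n : ℕ) x, rhoW 3 ((s ^ n).1 x) = (Wr.map sigT)^[n] (rhoW 3 x) := fun n => by
    induction n with
    | zero => exact fun x => rfl
    | succ n ih =>
      intro x
      rw [pow_succ, Subgroup.coe_mul, MulAut.mul_apply, ih, sig_five hs,
        Function.iterate_succ_apply]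
  refine ⟨(⟨A, hm⟩ : Gam 3)⁻¹ ^ 6, ML.bas_pow _ _ (ML.bas_inv _ (hG.1 _ hL)), fun x => ?_⟩
  rw [h3]
  refine Wr.ext rfl (funext fun t => ?_)
  exact (sig_re 3 _).symm.trans (congrArg (reG 3) (h2 6 _).symm)

theorem sig_six (hZ : ZedSt) (hG : GoodSt) (hM : MovSt) (u : BL (2 * 3 + 1 + 1))
    (hu : IsS _ 6 u.1) (γ : BL (2 * 3 + 1 + 1)) (hγ : γ ∈ Loc _ 1 (2 * 3 + 1 + 1)) :
    Gz (γ * u ^ 6 * γ⁻¹) := by
  have loc : ∀ j (s : BL (2 * 3 + 1 + 1)), 1 ≤ j → j ≤ 6 → IsS _ j s.1 →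
      s ∈ Loc _ 1 (2 * 3 + 1 + 1) := fun j s a b c =>
    ((hZ _).2.2.2.2.1 1 _ s (by omega) le_rfl (Or.inr ⟨j, a, by omega, c⟩)).1
  have com : ∀ β ∈ Loc _ 1 6, Commute u β := fun β hβ =>
    (lcaSt _ 1 6 (by omega) (by omega)).2.2 β hβ u
      (Or.inr (Subgroup.subset_closure ⟨6, le_rfl, by omega, by omega, hu⟩))
  obtain ⟨⟨v, -, v0, v1, -⟩, -⟩ := id hγ
  have ed : ∀ p, 1 ≤ p → p < 8 → ∃ c g, rhoW 3 (γ.1 (io _ p)) = Ed c g := fun p a b => by
    obtain ⟨q, w, q1, q2, -, e⟩ := v1 p a b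
    have : ∃ c g, rhoW 3 (io _ q) = Ed c g := by
      by_cases c : q = 7
      · exact ⟨_, _, c ▸ sig_rho7⟩
      · exact ⟨_, _, sig_rho q1 (by omega)⟩
    obtain ⟨c, g, e'⟩ := this
    exact ⟨_, _, by rw [e, map_mul, map_mul, map_inv, e', (edSt _).1]⟩
  have ty : ∀ p, ∃ c, p < 8 → pp (rhoW 3) (γ.1 (io _ p)) = tau c := fun p => by
    by_cases a : p = 0
    · refine ⟨pp (rhoW 3) v 0, fun _ => ?_⟩
      rw [a, v0 0 one_pos, map_mul, map_mul, map_inv, sig_pp (by omega)]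
      generalize pp (rhoW 3) v = σ
      revert σ
      decide
    by_cases b : p < 8
    · obtain ⟨c, g, e⟩ := ed p (by omega) b
      exact ⟨c, fun _ => congrArg Wr.p e⟩
    · exact ⟨0, fun h => absurd h b⟩
  choose d hd using ty
  have td : Tp ((pp (rhoW 3)).comp γ.1.toMonoidHom) d := hd
  by_cases h67 : d 6 = d 7
  · refine (hM u d ?_).1 γ hγ td
    have key : ∀ d1 d2 : ℕ → Fin 3, Pz u d1 → tp d1 6 = cyc → tp d2 6 = cyc → d1 6 = d2 6 →
        d1 7 = d2 7 → Pz u d2 := fun d1 d2 h a b e6 e7 => by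
      obtain ⟨n1, r1, x1, y1⟩ := clSt.2.2.2 6 d1 (by omega) rfl a
      obtain ⟨n2, r2, x2, y2⟩ := clSt.2.2.2 6 d2 (by omega) rfl b
      have h1 := (hM u d1 h).2.2.1 6 n1 (by omega) (by omega) com r1
      have h2 : Pz u n2 := (hM u n1 h1).2.1 n2 fun x hx => by
        by_cases c : x + 1 < 6
        · rw [x1 x c, x2 x c]
        by_cases c5 : x = 5
        · rw [c5]
          exact y2.trans y1.symm
        · rw [cl_out r1 x (Or.inr (by omega)), cl_out r2 x (Or.inr (by omega))]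
          obtain rfl | rfl : x = 6 ∨ x = 7 := by omega
          exacts [e6.symm, e7.symm]
      exact (hM u n2 h2).2.2.1 6 d2 (by omega) (by omega) com (sig_symm r2)
    have t6 : tp d 6 = cyc := by
      have a := nf_bl td (le_refl _)
      have b := nf_bl sig_tp (le_refl _)
      rw [MonoidHom.comp_apply, show γ.1.toMonoidHom (bl _ 0 _) = _ from γ.2.1, b,
        show tp d (2 * 3 + 1 + 1) = tp d 6 * tau (d 6) * tau (d 7) by rw [cl_succ, cl_succ],
        h67, mul_assoc, show tau (d 7) * tau (d 7) = 1 from Equiv.swap_mul_self _ _, mul_one] at a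
      rw [← a]
      decide
    obtain ⟨s, hs⟩ := sgSt.1 (2 * 3 + 1 + 1) 5 (by omega)
    have hu' := loc 6 u (by omega) le_rfl hu
    have p0 : Pz u fun p => if p = 5 then 2 else 0 := by
      refine ⟨u * s, mul_mem hu' (loc 5 s (by omega) (by omega) hs), fun p hp => ?_, ?_⟩
      · show pp (rhoW 3) (u.1 (s.1 (io _ p))) = tau (if p = 5 then 2 else 0)
        have u5 := hu.2.2 5 (by omega) (by omega)
        by_cases a : p = 5
        · have u6 : u.1 (io _ (5 + 1)) = io _ 6 * io _ 7 * (io _ 6)⁻¹ := hu.1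
          rw [a, hs.1]
          simp only [map_mul, map_inv, u5, u6, sig_pp7, sig_pp (le_refl 6),
            sig_pp (by omega : 5 ≤ 6)]
          decide
        rw [if_neg a]
        by_cases b : p = 5 + 1
        · rw [b, hs.2.1, u5, sig_pp (by omega)]
        rw [hs.2.2 p a b]
        by_cases c : p = 6 + 1
        · rw [c, hu.2.1, sig_pp le_rfl]
        · rw [hu.2.2 p b c, sig_pp (by omega)]
      · have e : u * s * u * (u * s)⁻¹ = s := by
          rw [← sig_br hs hu]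
          group
        rw [← conj_pow, e]
        exact sig_gz hG hs
    have p1 := (hM u _ p0).2.2.2.2 hu'
    have p2 := (hM u _ p1).2.2.2.2 hu'
    have c3 : ∀ t : Fin 3, 0 = t ∨ cyc 0 = t ∨ cyc (cyc 0) = t := by decide
    rcases c3 (d 7) with e | e | e
    · exact key _ d p0 (by decide) t6 (e.trans h67.symm) e
    · exact key _ d p1 (by decide) t6 (e.trans h67.symm) e
    · exact key _ d p2 (by decide) t6 (e.trans h67.symm) e
  · obtain ⟨c, g, e⟩ := ed 6 (by omega) (by omega)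
    obtain ⟨c', g', e'⟩ := ed 7 (by omega) (by omega)
    have hc : c ≠ c' := fun q => h67 (((edSt (FN 7)).2.2.2.2.2 _ _).1
      ((hd 6 (by omega)).symm.trans ((congrArg Wr.p e).trans
        (q ▸ (congrArg Wr.p e').symm.trans (hd 7 (by omega))))))
    have h := (hZ _).2.2.2.2.2 _ ((rhoW 3).comp γ.1.toMonoidHom) 6 u c c' g g' (by omega) hu e e' hc
    refine ⟨1, ML.bas_one, fun x => ?_⟩
    have h1 : rhoW 3 ((γ * u ^ 6 * γ⁻¹).1 x) = rhoW 3 x :=
      (h (γ.1⁻¹ x)).trans (congrArg _ (γ.1.apply_symm_apply x))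
    rw [h1]
    exact Wr.ext rfl (funext fun t => (sig_re 3 _).symm)

theorem sigSt (hZ : ZedSt) (hG : GoodSt) (hM : MovSt) : SigSt := by
  have loc : ∀ j (s : BL (2 * 3 + 1 + 1)), 1 ≤ j → j ≤ 6 → IsS _ j s.1 →
      s ∈ Loc _ 1 (2 * 3 + 1 + 1) := fun j s a b c =>
    ((hZ _).2.2.2.2.1 1 _ s (by omega) le_rfl (Or.inr ⟨j, a, by omega, c⟩)).1
  have key : ∀ n j (u : BL (2 * 3 + 1 + 1)), 1 ≤ j → j + n = 6 → IsS _ j u.1 →
      ∀ γ ∈ Loc _ 1 (2 * 3 + 1 + 1), Gz (γ * u ^ 6 * γ⁻¹) := fun n => by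
    induction n with
    | zero =>
      rintro j u - rfl hu
      exact sig_six hZ hG hM u hu
    | succ n ih =>
      intro j u a b hu γ hγ
      obtain ⟨t, ht⟩ := sgSt.1 (2 * 3 + 1 + 1) (j + 1) (by omega)
      have e : (u * t)⁻¹ * t * (u * t)⁻¹⁻¹ = u := by
        rw [inv_inv, ← mul_assoc, mul_assoc _ t, mul_assoc _ (t * u), ← sig_br hu ht]
        group
      have := ih (j + 1) t (by omega) (by omega) ht (γ * (u * t)⁻¹) (mul_mem hγ (inv_mem
        (mul_mem (loc j u a (by omega) hu) (loc _ t (by omega) (by omega) ht))))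
      rw [← e, conj_pow]
      simpa only [mul_inv_rev, mul_assoc] using this
  exact fun j u a b => key (6 - j) j u a (by omega)

end Pool.Agent.MK
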